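import Pool.Agent.Y297.Fin

/-!
# Non-conjugate Cremer germs with homeomorphic stable sets
-/

set_option autoImplicit false
set_option linter.all false

open Set Metric Filter Topology
open scoped ContDiff ComplexConjugate Manifold

noncomputable section

namespace Pool.Agent.Y297

/-- the scaling -/
def scl : ℂ ≃ₜ ℂ := Homeomorph.mulLeft₀ (1 / 4 : ℂ) (by norm_num)

theorem scl_apply (z : ℂ) : scl z = 1 / 4 * z := rfl

/-- the admissible domain -/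
def Ub (h : ℂ ≃ₜ ℂ) : Set ℂ := (scl.trans h) '' closedBall 0 1

theorem mem_Ub {h : ℂ ≃ₜ ℂ} {y : ℂ} : y ∈ Ub h ↔ ‖h.symm y‖ ≤ 1 / 4 := by
  constructor
  · rintro ⟨x, hx, rfl⟩
    rw [Homeomorph.trans_apply, h.symm_apply_apply, scl_apply, norm_mul]
    rw [mem_closedBall_zero_iff] at hx
    norm_num
    linarith
  · intro hy
    refine ⟨4 * h.symm y, ?_, ?_⟩
    · rw [mem_closedBall_zero_iff, norm_mul]
      norm_num
      linarith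
    · rw [Homeomorph.trans_apply, scl_apply]
      have : (1 / 4 : ℂ) * (4 * h.symm y) = h.symm y := by ring
      rw [this, h.apply_symm_apply]

theorem adm {d : ℕ → Stg} (S : SeqD d) {b : ℕ → ℝ} (hb : ∀ n, 0 ≤ b n ∧ b n ≤ (d n).kap) {h : ℂ ≃ₜ ℂ}
    (h0 : h 0 = 0) (hd : ∀ x : ℂ, ‖x‖ < 1 / 2 → DifferentiableAt ℂ (fb d b h) (h x)) :
    IsCompact (Ub h) ∧ Nonempty (↥(Ub h) ≃ₜ ↥(Metric.closedBall (0 : ℂ) 1)) ∧
        (0 : ℂ) ∈ interior (Ub h) ∧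
        ∃ W : Set ℂ, IsOpen W ∧ Ub h ⊆ W ∧ DifferentiableOn ℂ (fb d b h) W ∧ Set.InjOn (fb d b h) W := by
  refine ⟨?_, ?_, ?_, h '' ball 0 (1 / 2), ?_, ?_, ?_, ?_⟩
  · exact (isCompact_closedBall _ _).image (scl.trans h).continuous
  · exact ⟨((scl.trans h).image (closedBall 0 1)).symm⟩
  · rw [mem_interior]
    refine ⟨h '' ball 0 (1 / 4), ?_, h.isOpenMap _ isOpen_ball, ⟨0, by simp, h0⟩⟩
    rintro _ ⟨x, hx, rfl⟩
    rw [mem_Ub, h.symm_apply_apply]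
    exact (mem_ball_zero_iff.1 hx).le
  · exact h.isOpenMap _ isOpen_ball
  · intro y hy
    rw [mem_Ub] at hy
    refine ⟨h.symm y, ?_, h.apply_symm_apply y⟩
    rw [mem_ball_zero_iff]
    linarith
  · rintro _ ⟨x, hx, rfl⟩
    exact (hd x (mem_ball_zero_iff.1 hx)).differentiableWithinAt
  · intro y _ y' _ he
    have h1 := S.FF_inj hb (h.injective he)
    exact h.symm.injective h1

theorem ana {d : ℕ → Stg} {b : ℕ → ℝ} {h : ℂ ≃ₜ ℂ}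
    (h0 : h 0 = 0) (hd : ∀ x : ℂ, ‖x‖ < 1 / 2 → DifferentiableAt ℂ (fb d b h) (h x)) :
    AnalyticAt ℂ (fb d b h) 0 := by
  have h1 : DifferentiableOn ℂ (fb d b h) (h '' ball 0 (1 / 2)) := by
    rintro _ ⟨x, hx, rfl⟩
    exact (hd x (mem_ball_zero_iff.1 hx)).differentiableWithinAt
  apply h1.analyticAt
  apply (h.isOpenMap _ isOpen_ball).mem_nhds
  exact ⟨0, by simp, h0⟩

theorem fb_zero {d : ℕ → Stg} (S : SeqD d) {b : ℕ → ℝ} (hb : ∀ n, 0 ≤ b n ∧ b n ≤ (d n).kap) {h : ℂ ≃ₜ ℂ}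
    (h0 : h 0 = 0) : fb d b h 0 = 0 := by
  have h1 : h.symm 0 = 0 := by rw [h.symm_apply_eq, h0]
  rw [fb, h1, S.FF_zero hb, h0]

theorem exists_good {κ : ℝ} (hκ : 0 < κ) {C : Set ℝ} (hC : C.Countable) :
    ∃ t, 0 ≤ t ∧ t ≤ κ ∧ Irrational t ∧ t ∉ C := by
  have h1 : (range ((↑) : ℚ → ℝ) ∪ C).Countable := (countable_range _).union hC
  have h2 := h1.dense_compl ℝ
  obtain ⟨t, ht, ht2⟩ := h2.exists_mem_open (isOpen_Ioo (a := (0 : ℝ)) (b := κ)) (nonempty_Ioo.2 hκ)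
  refine ⟨t, ht2.1.le, ht2.2.le, ?_, ?_⟩
  · intro h; exact ht (Or.inl h)
  · intro h; exact ht (Or.inr h)

theorem main : ∃ (f g : ℂ → ℂ) (U U' : Set ℂ), AnalyticAt ℂ f 0 ∧ AnalyticAt ℂ g 0 ∧ f 0 = 0 ∧ g 0 = 0 ∧
    (∃ θ : ℝ, Irrational θ ∧
        deriv f 0 = Complex.exp (2 * (Real.pi : ℂ) * Complex.I * (θ : ℂ))) ∧
    (¬ ∃ ψ : ℂ → ℂ, AnalyticAt ℂ ψ 0 ∧ ψ 0 = 0 ∧ deriv ψ 0 ≠ 0 ∧
        ∀ᶠ z in nhds (0 : ℂ), ψ (f z) = deriv f 0 * ψ z) ∧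
    (∃ θ : ℝ, Irrational θ ∧
        deriv g 0 = Complex.exp (2 * (Real.pi : ℂ) * Complex.I * (θ : ℂ))) ∧
    (¬ ∃ ψ : ℂ → ℂ, AnalyticAt ℂ ψ 0 ∧ ψ 0 = 0 ∧ deriv ψ 0 ≠ 0 ∧
        ∀ᶠ z in nhds (0 : ℂ), ψ (g z) = deriv g 0 * ψ z) ∧
    deriv f 0 = deriv g 0 ∧
    (IsCompact U ∧ Nonempty (↥U ≃ₜ ↥(Metric.closedBall (0 : ℂ) 1)) ∧
        (0 : ℂ) ∈ interior U ∧
        ∃ W : Set ℂ, IsOpen W ∧ U ⊆ W ∧ DifferentiableOn ℂ f W ∧ Set.InjOn f W) ∧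
    (IsCompact U' ∧ Nonempty (↥U' ≃ₜ ↥(Metric.closedBall (0 : ℂ) 1)) ∧
        (0 : ℂ) ∈ interior U' ∧
        ∃ W : Set ℂ, IsOpen W ∧ U' ⊆ W ∧ DifferentiableOn ℂ g W ∧ Set.InjOn g W) ∧
    (∃ e : ℂ ≃ₜ ℂ, e 0 = 0 ∧ e '' {z : ℂ | ∀ k : ℕ, f^[k] z ∈ U} = {z : ℂ | ∀ k : ℕ, g^[k] z ∈ U'}) ∧
    ¬ ∃ V : Set ℂ, V ∈ nhds (0 : ℂ) ∧ ∃ W : Set ℂ, W ∈ nhds (0 : ℂ) ∧
      ∃ h : ↥V ≃ₜ ↥W,
      (∀ x : ↥V, (x : ℂ) = 0 → ((h x : ↥W) : ℂ) = 0) ∧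
      ∃ ε : ℝ, ε > 0 ∧ ∀ x y : ↥V, ‖(x : ℂ)‖ < ε → (y : ℂ) = f (x : ℂ) →
        ((h y : ↥W) : ℂ) = g ((h x : ↥W) : ℂ) := by
  obtain ⟨d, S⟩ := seqD_exists
  obtain ⟨α, hαirr, hα⟩ := S.alpha_exists
  -- the second germ
  have hex' : ∀ n, ∃ t, 0 ≤ t ∧ t ≤ (d n).kap ∧ Irrational t ∧ t ∉ (∅ : Set ℝ) := fun n =>
    exists_good (S.good n).kap0 countable_empty
  choose b' hb0' hb1' hbi' _ using hex'
  have hb' : ∀ n, 0 ≤ b' n ∧ b' n ≤ (d n).kap := fun n => ⟨hb0' n, hb1' n⟩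
  obtain ⟨h', h0', hd', hdd'⟩ := S.package hb' hα
  set g := fb d b' h' with hg
  -- the first germ
  have hcount := rot_count g
  have hth : ∀ n, Function.Injective (th d n) := by
    intro n s t hst
    have h1 : ((d n).q : ℝ) ≠ 0 := by exact_mod_cast (S.qpos n).ne'
    have h2 : ((d n).Q : ℝ) ≠ 0 := by exact_mod_cast (S.Qpos n).ne'
    unfold th at hst
    field_simp at hst
    linarith
  have hex : ∀ n, ∃ t, 0 ≤ t ∧ t ≤ (d n).kap ∧ Irrational t ∧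
      t ∉ (th d n) ⁻¹' {θ : ℝ | Irrational θ ∧ ∃ q z, RotAt g q z θ} := fun n =>
    exists_good (S.good n).kap0 (hcount.preimage_of_injOn (hth n).injOn)
  choose b hb0 hb1 hbi hbC using hex
  have hb : ∀ n, 0 ≤ b n ∧ b n ≤ (d n).kap := fun n => ⟨hb0 n, hb1 n⟩
  obtain ⟨h, h0, hd, hdd⟩ := S.package hb hα
  set f := fb d b h with hf
  refine ⟨f, g, Ub h, Ub h', ana h0 hd, ana h0' hd', fb_zero S hb h0, fb_zero S hb' h0',
    ⟨α, hαirr, hdd.deriv⟩, S.not_lin hb h0 hαirr hdd, ⟨α, hαirr, hdd'.deriv⟩, S.not_lin hb' h0' hαirr hdd',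
    by rw [hdd.deriv, hdd'.deriv], adm S hb h0 hd, adm S hb' h0' hd', ?_, ?_⟩
  · refine ⟨h.symm.trans h', ?_, ?_⟩
    · have h1 : h.symm 0 = 0 := by rw [h.symm_apply_eq, h0]
      rw [Homeomorph.trans_apply, h1, h0']
    · have hK : ∀ {bb : ℕ → ℝ} {hh : ℂ ≃ₜ ℂ} {y : ℂ}, y ∈ {z : ℂ | ∀ k : ℕ, (fb d bb hh)^[k] z ∈ Ub hh} ↔
          ∀ k, ‖(FF d bb)^[k] (hh.symm y)‖ ≤ 1 / 4 := by
        intro bb hh y
        rw [mem_setOf_eq]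
        apply forall_congr'
        intro k
        rw [mem_Ub, fb_iter, hh.symm_apply_apply]
      ext y
      constructor
      · rintro ⟨x, hx, rfl⟩
        rw [hf, hK] at hx
        rw [hg, hK, Homeomorph.trans_apply, h'.symm_apply_apply]
        intro k
        exact S.K_indep hb hb' hbi hx k
      · intro hy
        rw [hg, hK] at hy
        refine ⟨h (h'.symm y), ?_, ?_⟩
        · rw [hf, hK, h.symm_apply_apply]
          intro k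
          exact S.K_indep hb' hb hbi' hy k
        · rw [Homeomorph.trans_apply, h.symm_apply_apply, h'.apply_symm_apply]
  · rintro ⟨V, hV, W, hW, e, he0, ε, hε, hc⟩
    obtain ⟨O, hO, hmain⟩ := rot_transport hV hW e he0 hε hc
    obtain ⟨n, H, hHc, hHi, hHo, -, hHO, hHr⟩ := S.disc hb h0 hO
    obtain ⟨z, hz⟩ := hmain H (d n).q (th d n (b n)) hHc hHi hHo hHO hHr
    apply hbC n
    refine ⟨?_, (d n).q, z, hz⟩
    have h1 : th d n (b n) = ((-((d n).q / (d n).Q) : ℚ) : ℝ) * (1 + b n) := by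
      rw [th]; push_cast; ring
    rw [h1]
    have h2 : Irrational (1 + b n) := by
      have := (hbi n).natCast_add 1
      simpa using this
    apply h2.ratCast_mul
    have h3 : ((d n).q : ℚ) ≠ 0 := by exact_mod_cast (S.qpos n).ne'
    have h4 : ((d n).Q : ℚ) ≠ 0 := by exact_mod_cast (S.Qpos n).ne'
    exact neg_ne_zero.2 (div_ne_zero h3 h4)

end Pool.Agent.Y297
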