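import Pool.Agent.Y297.Neu

/-!
# The Beltrami equation for coefficients with small Fourier `L¹` norm
-/

set_option autoImplicit false
set_option linter.all false

open MeasureTheory Set Metric Filter Topology
open scoped ContDiff FourierTransform ComplexConjugate InnerProductSpace

noncomputable section

namespace Pool.Agent.Y297

/-- the linear form `x ↦ 2 π i ⟨ξ, x⟩` -/
def Lam (ξ : ℂ) : ℂ →L[ℝ] ℂ :=
  ((2 * Real.pi : ℂ) * Complex.I) • (Complex.ofRealCLM.comp (innerSL ℝ ξ))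

theorem Lam_apply (ξ x : ℂ) : Lam ξ x = (2 * Real.pi : ℂ) * Complex.I * ((⟪ξ, x⟫_ℝ : ℝ) : ℂ) := by
  simp [Lam]

theorem Lam_cont : Continuous Lam := by
  have h1 : Continuous (fun ξ : ℂ => (Complex.ofRealCLM : ℝ →L[ℝ] ℂ).comp (innerSL ℝ ξ)) :=
    continuous_const.clm_comp (innerSL ℝ (E := ℂ)).continuous
  exact h1.const_smul ((2 * Real.pi : ℂ) * Complex.I)

theorem Lam_norm (ξ : ℂ) : ‖Lam ξ‖ ≤ 2 * Real.pi * ‖ξ‖ := by
  refine ContinuousLinearMap.opNorm_le_bound _ (by positivity) fun x => ?_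
  rw [Lam_apply, norm_mul, norm_mul, norm_mul, Complex.norm_I, Complex.norm_real,
    Complex.norm_real, Complex.norm_ofNat, Real.norm_of_nonneg Real.pi_pos.le]
  have h := norm_inner_le_norm (𝕜 := ℝ) ξ x
  have hp := Real.pi_pos
  calc 2 * Real.pi * 1 * ‖⟪ξ, x⟫_ℝ‖ ≤ 2 * Real.pi * 1 * (‖ξ‖ * ‖x‖) :=
        mul_le_mul_of_nonneg_left h (by positivity)
    _ = 2 * Real.pi * ‖ξ‖ * ‖x‖ := by ring

/-- the exponential -/
def Ex (ξ x : ℂ) : ℂ := Complex.exp (Lam ξ x)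

theorem Ex_norm (ξ x : ℂ) : ‖Ex ξ x‖ = 1 := by
  rw [Ex, Lam_apply, Complex.norm_exp]
  simp

theorem Ex_sub_norm (ξ x : ℂ) : ‖Ex ξ x - 1‖ ≤ 2 * Real.pi * ‖ξ‖ * ‖x‖ := by
  have h : Ex ξ x = Complex.exp (Complex.I * ((2 * Real.pi * ⟪ξ, x⟫_ℝ : ℝ) : ℂ)) := by
    rw [Ex, Lam_apply]
    congr 1
    push_cast
    ring
  rw [h]
  refine (Real.norm_exp_I_mul_ofReal_sub_one_le).trans ?_
  rw [norm_mul, norm_mul, Real.norm_of_nonneg Real.pi_pos.le, Real.norm_ofNat]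
  have h := norm_inner_le_norm (𝕜 := ℝ) ξ x
  have hp := Real.pi_pos
  calc 2 * Real.pi * ‖⟪ξ, x⟫_ℝ‖ ≤ 2 * Real.pi * (‖ξ‖ * ‖x‖) :=
        mul_le_mul_of_nonneg_left h (by positivity)
    _ = 2 * Real.pi * ‖ξ‖ * ‖x‖ := by ring

theorem Ex_meas (x : ℂ) : Continuous (fun ξ => Ex ξ x) :=
  Complex.continuous_exp.comp (Lam_cont.clm_apply continuous_const)

theorem Ex_deriv (ξ x : ℂ) : HasFDerivAt (fun x => Ex ξ x) (Ex ξ x • Lam ξ) x :=
  (Lam ξ).hasFDerivAt.cexp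

theorem fi_eq (g : ℂ → ℂ) (x : ℂ) : 𝓕⁻ g x = ∫ ξ, Ex ξ x * g ξ := by
  rw [Real.fourierInv_eq']
  congr 1
  ext ξ
  rw [smul_eq_mul, Ex, Lam_apply]
  congr 2
  push_cast
  ring

theorem two_inner (ξ v : ℂ) : 2 * ((⟪ξ, v⟫_ℝ : ℝ) : ℂ) = conj ξ * v + ξ * conj v := by
  apply Complex.ext <;> simp [Complex.inner] <;> ring

/-- `g` is the inverse Fourier transform of a continuous function with small sup and `L¹` norm -/
def Wn (ε : ℝ) (g : ℂ → ℂ) : Prop :=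
  ∃ b : ℂ → ℂ, Continuous b ∧ (∀ ξ, ‖b ξ‖ ≤ ε) ∧ Integrable b ∧ ∫ ξ, ‖b ξ‖ ≤ ε ∧ g = 𝓕⁻ b

theorem Exi {g : ℂ → ℂ} (hg : Integrable g) (x : ℂ) : Integrable (fun ξ => Ex ξ x * g ξ) := by
  refine hg.bdd_mul (Ex_meas x).aestronglyMeasurable (c := 1) ?_
  exact Filter.Eventually.of_forall fun ξ => (Ex_norm ξ x).le

theorem fi_norm {g : ℂ → ℂ} (hg : Integrable g) (x : ℂ) : ‖𝓕⁻ g x‖ ≤ ∫ ξ, ‖g ξ‖ := by
  rw [fi_eq]
  apply norm_integral_le_of_norm_le hg.norm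
  refine Filter.Eventually.of_forall fun ξ => ?_
  rw [norm_mul, Ex_norm, one_mul]

theorem belt {β : ℂ → ℂ} (hβW : Wn (1 / 8) β) :
    ∃ f A : ℂ → ℂ, f 0 = 0 ∧ (∀ x y, ‖(f x - x) - (f y - y)‖ ≤ 1 / 2 * ‖x - y‖) ∧
      (∀ x, A x ≠ 0) ∧
      ∀ x, ∃ L : ℂ →L[ℝ] ℂ, HasFDerivAt f L x ∧ ∀ v, L v = A x * (v + β x * conj v) := by
  obtain ⟨b, hbcont, hbB, hbint, hbL, hβb⟩ := hβW
  set m : ℂ → ℂ := fun ξ => conj ξ / ξ with hm
  have hmm : Measurable m := Complex.continuous_conj.measurable.div measurable_id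
  have hmK : ∀ ξ, ‖m ξ‖ ≤ 1 := by
    intro ξ
    rw [hm]
    simp only [norm_div, RCLike.norm_conj]
    exact div_self_le_one _
  have hKb : (1:ℝ) * (∫ ξ, ‖b ξ‖) ≤ 1 / 4 := by linarith
  obtain ⟨h, hhm, hhi, hheq, hhL⟩ := neu1 b m 1 (1/8) hbcont hmm hmK one_pos hbint hbB hKb
  have hmi : Integrable (fun ξ => m ξ * h ξ) :=
    hhi.bdd_mul hmm.aestronglyMeasurable (c := 1) (Filter.Eventually.of_forall hmK)
  set P : ℂ → ℂ := 𝓕⁻ (fun ξ => m ξ * h ξ) with hP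
  set R : ℂ → ℂ := 𝓕⁻ h with hR
  have hPb : ∀ x, ‖P x‖ ≤ 1 / 4 := by
    intro x
    rw [hP]
    refine (fi_norm hmi x).trans ?_
    calc ∫ ξ, ‖m ξ * h ξ‖ ≤ ∫ ξ, ‖h ξ‖ := by
          apply integral_mono hmi.norm hhi.norm
          intro ξ
          simp only [norm_mul]
          calc ‖m ξ‖ * ‖h ξ‖ ≤ 1 * ‖h ξ‖ := mul_le_mul_of_nonneg_right (hmK ξ) (norm_nonneg _)
            _ = ‖h ξ‖ := one_mul _
      _ ≤ 2 * ∫ ξ, ‖b ξ‖ := hhL
      _ ≤ 1 / 4 := by linarith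
  have hRb : ∀ x, ‖R x‖ ≤ 1 / 4 := by
    intro x
    rw [hR]
    refine (fi_norm hhi x).trans ?_
    linarith
  -- the relation between P and R
  have hrel : ∀ x, R x = β x + P x * β x := by
    intro x
    have h6 : h = fun ξ => b ξ +
        (MeasureTheory.convolution (fun ξ => m ξ * h ξ) b (ContinuousLinearMap.mul ℂ ℂ)
          volume) ξ := by
      funext ξ
      conv_lhs => rw [hheq ξ]
      congr 1
      unfold MeasureTheory.convolution
      apply integral_congr_ae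
      refine Filter.Eventually.of_forall fun η => ?_
      simp only [ContinuousLinearMap.mul_apply']
      ring
    have hci : Integrable (MeasureTheory.convolution (fun ξ => m ξ * h ξ) b
        (ContinuousLinearMap.mul ℂ ℂ) volume) := hmi.integrable_convolution _ hbint
    have h7 : 𝓕⁻ h x = 𝓕⁻ b x + 𝓕⁻ (MeasureTheory.convolution (fun ξ => m ξ * h ξ) b
        (ContinuousLinearMap.mul ℂ ℂ) volume) x := by
      rw [fi_eq, fi_eq, fi_eq, ← integral_add (Exi hbint x) (Exi hci x)]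
      congr 1
      funext ξ
      rw [← mul_add]
      congr 1
      exact congrFun h6 ξ
    have h8 : 𝓕⁻ b x = β x := by rw [hβb]
    rw [hR, h7, h8]
    congr 1
    rw [Real.fourierInv_eq_fourier_neg, Real.fourier_mul_convolution_eq hmi hbint,
      ← Real.fourierInv_eq_fourier_neg, ← Real.fourierInv_eq_fourier_neg, h8]
  -- the function psi
  set g : ℂ → ℂ := fun ξ => h ξ / ξ / (Real.pi * Complex.I) with hg
  have hgm : Measurable g := (hhm.div measurable_id).div_const _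
  have hgn : ∀ ξ, ‖g ξ‖ * (2 * Real.pi * ‖ξ‖) ≤ 2 * ‖h ξ‖ := by
    intro ξ
    have h1 : ‖g ξ‖ = ‖h ξ‖ / ‖ξ‖ / Real.pi := by
      rw [hg]
      simp only [norm_div, norm_mul, Complex.norm_I, mul_one, Complex.norm_real,
        Real.norm_of_nonneg Real.pi_pos.le]
    rw [h1]
    calc ‖h ξ‖ / ‖ξ‖ / Real.pi * (2 * Real.pi * ‖ξ‖) =
          2 * ‖h ξ‖ * (‖ξ‖ / ‖ξ‖) := by
          have := Real.pi_pos
          field_simp
      _ ≤ 2 * ‖h ξ‖ * 1 := mul_le_mul_of_nonneg_left (div_self_le_one _) (by positivity)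
      _ = 2 * ‖h ξ‖ := by ring
  set ψ : ℂ → ℂ := fun x => ∫ ξ, g ξ * (Ex ξ x - 1) with hψ
  set F' : ℂ → ℂ → (ℂ →L[ℝ] ℂ) := fun x ξ => (g ξ * Ex ξ x) • Lam ξ with hF'
  have hbi : Integrable (fun ξ => 2 * ‖h ξ‖) := hhi.norm.const_mul _
  have hF'b : ∀ x ξ, ‖F' x ξ‖ ≤ 2 * ‖h ξ‖ := by
    intro x ξ
    rw [hF']
    simp only
    rw [norm_smul, norm_mul, Ex_norm, mul_one]
    exact (mul_le_mul_of_nonneg_left (Lam_norm ξ) (norm_nonneg _)).trans (hgn ξ)
  have hF'm : ∀ x, AEStronglyMeasurable (F' x) volume := fun x =>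
    ((hgm.aestronglyMeasurable.mul (Ex_meas x).aestronglyMeasurable).smul
      Lam_cont.aestronglyMeasurable)
  have hF'i : ∀ x, Integrable (F' x) := fun x =>
    hbi.mono' (hF'm x) (Filter.Eventually.of_forall (hF'b x))
  have hFm : ∀ x, AEStronglyMeasurable (fun ξ => g ξ * (Ex ξ x - 1)) volume := fun x =>
    hgm.aestronglyMeasurable.mul ((Ex_meas x).sub continuous_const).aestronglyMeasurable
  have hFi : ∀ x, Integrable (fun ξ => g ξ * (Ex ξ x - 1)) := by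
    intro x
    refine (hbi.mul_const ‖x‖).mono' (hFm x) (Filter.Eventually.of_forall fun ξ => ?_)
    rw [norm_mul]
    calc ‖g ξ‖ * ‖Ex ξ x - 1‖ ≤ ‖g ξ‖ * (2 * Real.pi * ‖ξ‖ * ‖x‖) :=
          mul_le_mul_of_nonneg_left (Ex_sub_norm ξ x) (norm_nonneg _)
      _ = ‖g ξ‖ * (2 * Real.pi * ‖ξ‖) * ‖x‖ := by ring
      _ ≤ 2 * ‖h ξ‖ * ‖x‖ := mul_le_mul_of_nonneg_right (hgn ξ) (norm_nonneg _)
  have hψd : ∀ x, HasFDerivAt ψ (∫ ξ, F' x ξ) x := by
    intro x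
    refine hasFDerivAt_integral_of_dominated_of_fderiv_le (F := fun x ξ => g ξ * (Ex ξ x - 1))
      (F' := F') (s := univ) (bound := fun ξ => 2 * ‖h ξ‖) Filter.univ_mem
      (Filter.Eventually.of_forall hFm) (hFi x) (hF'm x)
      (Filter.Eventually.of_forall fun ξ x _ => hF'b x ξ) hbi
      (Filter.Eventually.of_forall fun ξ x _ => ?_)
    have h1 := ((Ex_deriv ξ x).sub_const 1).const_mul (g ξ)
    have h2 : F' x ξ = g ξ • (Ex ξ x • Lam ξ) := by
      rw [hF']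
      simp only
      rw [smul_smul]
    rw [h2]
    exact h1
  have hψv : ∀ x v, (∫ ξ, F' x ξ) v = P x * v + R x * conj v := by
    intro x v
    rw [ContinuousLinearMap.integral_apply (hF'i x), hP, hR, fi_eq, fi_eq, ← integral_mul_const,
      ← integral_mul_const, ← integral_add ((Exi hmi x).mul_const _) ((Exi hhi x).mul_const _)]
    have h3 : ∀ᵐ ξ : ℂ, ξ ≠ 0 := by
      rw [ae_iff]
      simp
    apply integral_congr_ae
    filter_upwards [h3] with ξ hξ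
    have hp : (Real.pi : ℂ) ≠ 0 := Complex.ofReal_ne_zero.mpr Real.pi_pos.ne'
    have h1 : F' x ξ v = h ξ / ξ * Ex ξ x * (2 * ((⟪ξ, v⟫_ℝ : ℝ) : ℂ)) := by
      rw [hF', hg]
      simp only [ContinuousLinearMap.smul_apply, smul_eq_mul, Lam_apply]
      have hI := Complex.I_ne_zero
      field_simp
    rw [h1, two_inner, hm]
    field_simp
  set L : ℂ → (ℂ →L[ℝ] ℂ) := fun x => ContinuousLinearMap.mul ℝ ℂ (P x) +
    (ContinuousLinearMap.mul ℝ ℂ (R x)).comp (Complex.conjCLE : ℂ →L[ℝ] ℂ) with hL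
  have hLv : ∀ x v, L x v = P x * v + R x * conj v := by
    intro x v
    rw [hL]
    simp
  have hψL : ∀ x, HasFDerivAt ψ (L x) x := by
    intro x
    have : (∫ ξ, F' x ξ) = L x := by
      ext v
      rw [hψv, hLv]
    rw [← this]
    exact hψd x
  have hLn : ∀ x, ‖L x‖ ≤ 1 / 2 := by
    intro x
    refine ContinuousLinearMap.opNorm_le_bound _ (by norm_num) fun v => ?_
    rw [hLv]
    calc ‖P x * v + R x * conj v‖ ≤ ‖P x‖ * ‖v‖ + ‖R x‖ * ‖v‖ := by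
          refine (norm_add_le _ _).trans ?_
          rw [norm_mul, norm_mul, RCLike.norm_conj]
      _ ≤ 1 / 4 * ‖v‖ + 1 / 4 * ‖v‖ := by
          gcongr
          · exact hPb x
          · exact hRb x
      _ = 1 / 2 * ‖v‖ := by ring
  have hψLip : ∀ x y, ‖ψ x - ψ y‖ ≤ 1 / 2 * ‖x - y‖ := by
    intro x y
    exact Convex.norm_image_sub_le_of_norm_hasFDerivWithin_le (s := univ)
      (fun z _ => (hψL z).hasFDerivWithinAt) (fun z _ => hLn z) convex_univ (mem_univ y) (mem_univ x)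
  refine ⟨fun x => x + ψ x, fun x => 1 + P x, ?_, ?_, ?_, ?_⟩
  · simp only [zero_add, hψ]
    have : ∀ ξ, Ex ξ 0 = 1 := by
      intro ξ
      rw [Ex, map_zero, Complex.exp_zero]
    simp [this]
  · intro x y
    have := hψLip x y
    have e : (x + ψ x - x) - (y + ψ y - y) = ψ x - ψ y := by ring
    simp only
    rw [e]
    exact this
  · intro x h0
    have h3 : P x = -1 := by linear_combination h0
    have h1 := hPb x
    rw [h3, norm_neg, norm_one] at h1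
    norm_num at h1
  · intro x
    refine ⟨ContinuousLinearMap.id ℝ ℂ + L x, (hasFDerivAt_id x).add (hψL x), ?_⟩
    intro v
    rw [ContinuousLinearMap.add_apply, ContinuousLinearMap.id_apply, hLv, hrel x]
    ring

end Pool.Agent.Y297
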