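import Mathlib

/-!
# Density of irrational rotations
-/

set_option autoImplicit false
set_option linter.all false

open Set Metric Filter Topology

noncomputable section

namespace Pool.Agent.Y297

theorem irr_dense {θ : ℝ} (h : Irrational θ) {c : ℂ} (hc : ‖c‖ = 1) {γ : ℝ} (hγ : 0 < γ) :
    ∃ m : ℕ, ‖Complex.exp (2 * Real.pi * θ * m * Complex.I) - c‖ < γ := by
  haveI : Fact ((0:ℝ) < 1) := ⟨one_pos⟩
  have h1 : DenseRange (fun n : ℤ => n • (θ : AddCircle (1:ℝ))) := by
    rw [AddCircle.denseRange_zsmul_coe_iff, div_one]; exact h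
  have h2 : DenseRange (fun n : ℕ => n • (θ : AddCircle (1:ℝ))) := denseRange_zsmul_iff_nsmul.1 h1
  have h3 : DenseRange (fun n : ℕ => AddCircle.toCircle (n • (θ : AddCircle (1:ℝ)))) := by
    have hs : Function.Surjective (fun x : AddCircle (1:ℝ) => AddCircle.toCircle x) := by
      intro z
      obtain ⟨t, ht⟩ := Circle.surjOn_exp_neg_pi_pi (mem_univ z)
      refine ⟨((t / (2 * Real.pi) : ℝ) : AddCircle (1:ℝ)), ?_⟩
      simp only
      rw [AddCircle.toCircle_apply_mk, ← ht.2]
      congr 1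
      have := Real.pi_pos
      field_simp
    exact DenseRange.comp (g := fun x : AddCircle (1:ℝ) => AddCircle.toCircle x) hs.denseRange h2
      AddCircle.continuous_toCircle
  set c' : Circle := ⟨c, by simp [Submonoid.unitSphere, hc]⟩ with hc'
  obtain ⟨m, hm⟩ := h3.exists_dist_lt c' hγ
  refine ⟨m, ?_⟩
  rw [dist_comm] at hm
  have hm' : ‖((AddCircle.toCircle (m • (θ : AddCircle (1:ℝ))) : Circle) : ℂ) - c‖ < γ := by
    rw [← dist_eq_norm]; exact hm
  have e : ((AddCircle.toCircle (m • (θ : AddCircle (1:ℝ))) : Circle) : ℂ) =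
      Complex.exp (2 * Real.pi * θ * m * Complex.I) := by
    have : m • (θ : AddCircle (1:ℝ)) = ((m * θ : ℝ) : AddCircle (1:ℝ)) := by
      rw [← nsmul_eq_mul]; rfl
    rw [this, AddCircle.toCircle_apply_mk, Circle.coe_exp]
    congr 1
    push_cast
    ring
  rw [e] at hm'
  exact hm'

end Pool.Agent.Y297
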