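import Pool.Agent.W786.Max4

/-!
# The direction of the vorticity at one maximum point: integrable rates and the log-critical rate
-/

open MeasureTheory Set Filter
open scoped ENNReal NNReal Topology

namespace Pool.Agent.Y297.EulerLL

open Pool.Agent.H708R2.EulerSign Pool.Agent.H708R2.EulerTypeI Pool.Agent.W786.Sv
  Pool.Agent.W786.Dir Pool.Agent.W786.Max

variable {T : ℝ} {u : ℝ → V → V} {p : ℝ → V → ℝ}

/-- Growth of the logarithm of the maximum when the stretching rate at one maximum point is at most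
`b (t) (1 + log |ω|)`. -/
theorem log_growth (h : IsC2Solution T u p) {s c : ℝ} (hs : 0 ≤ s) (hsc : s ≤ c) (hc : c < T)
    {b : ℝ → ℝ} (hbi : IntegrableOn b (Icc s c)) (hb0 : ∀ t ∈ Ioo s c, 0 ≤ b t)
    (hyp : ∀ᵐ t, t ∈ Ioo s c → ∃ x, IsMaxPt u t x ∧ 1 ≤ nrm (vort (u t) x) ∧
      Pq u t x ≤ b t * (1 + Real.log (nrm (vort (u t) x))) * Wq u t x) :
    2 + Real.log (Mx u c + 1)
      ≤ (2 + Real.log (Mx u s + 1)) * Real.exp (∫ t in s..c, b t) := by
  obtain ⟨C, hC0, hCg⟩ := Mx_growth h hc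
  have hpos1 : ∀ y : ℝ, 0 ≤ y → 0 < y + 1 := fun y hy => by linarith
  have hlog1 : ∀ y : ℝ, 0 ≤ y → 0 ≤ Real.log (y + 1) := fun y hy => Real.log_nonneg (by linarith)
  set Φ : ℝ → ℝ := fun y => Real.log (2 + Real.log (y + 1)) with hΦ
  have hΦm : MonotoneOn Φ (Ici 0) := by
    intro y hy z _ hyz
    have hy0 : (0 : ℝ) ≤ y := hy
    have h1 := hlog1 y hy0
    exact Real.log_le_log (by linarith) (by
      have := Real.log_le_log (hpos1 y hy0) (show y + 1 ≤ z + 1 by linarith)
      linarith)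
  have hΦd : ∀ y : ℝ, 0 ≤ y →
      HasDerivAt Φ (1 / (y + 1) / (2 + Real.log (y + 1))) y := by
    intro y hy
    have h1 := hlog1 y hy
    have h2 : HasDerivAt (fun y => 2 + Real.log (y + 1)) (1 / (y + 1)) y :=
      (((hasDerivAt_id y).add_const 1).log (hpos1 y hy).ne').const_add 2
    exact h2.log (by linarith)
  have hLip : ∀ r ∈ Icc s c, ∀ t ∈ Icc s c, r ≤ t →
      Φ (Mx u t) - Φ (Mx u r) ≤ 2 * C * (t - r) := by
    intro r hr t ht hrt
    have h2 := hCg r ⟨hs.trans hr.1, hr.2⟩ t ⟨hs.trans ht.1, ht.2⟩ hrt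
    have hMr := Mx_nonneg (u := u) r
    have hMt := Mx_nonneg (u := u) t
    have hE0 : 0 ≤ 2 * C * (t - r) := by
      have : 0 ≤ t - r := by linarith
      positivity
    have h3 : 1 ≤ Real.exp (2 * C * (t - r)) := Real.one_le_exp hE0
    have h4 : Mx u t + 1 ≤ (Mx u r + 1) * Real.exp (2 * C * (t - r)) := by nlinarith
    have h5 := Real.log_le_log (hpos1 _ hMt) h4
    rw [Real.log_mul (hpos1 _ hMr).ne' (Real.exp_pos _).ne', Real.log_exp] at h5
    have h6 := hlog1 _ hMr
    have h7 := hlog1 _ hMt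
    have h8 : 2 + Real.log (Mx u t + 1)
        ≤ (2 + Real.log (Mx u r + 1)) * Real.exp (2 * C * (t - r)) := by
      have h9 := Real.add_one_le_exp (2 * C * (t - r))
      nlinarith
    have h9 := Real.log_le_log (by linarith) h8
    rw [Real.log_mul (by positivity) (Real.exp_pos _).ne', Real.log_exp] at h9
    simp only [hΦ]
    linarith
  have key : Φ (Mx u c) - Φ (Mx u s) ≤ ∫ t in s..c, b t := by
    refine growth_of_ae (L := fun t => Φ (Mx u t)) (C := 2 * C) hsc hLip
      ((intervalIntegrable_iff_integrableOn_Icc_of_le hsc).2 hbi) ?_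
    filter_upwards [hyp] with t ht htI d hd
    have htT : t ∈ Ioo 0 T := ⟨hs.trans_lt htI.1, htI.2.trans hc⟩
    obtain ⟨x, hx, hm1, hP⟩ := ht htI
    set m := nrm (vort (u t) x) with hm
    have hm0 : 0 < m := by linarith
    have hWm : Wq u t x = m ^ 2 := Wq_eq t x
    have hlogm : 0 ≤ Real.log m := Real.log_nonneg hm1
    have hW0 := Wq_nonneg (u := u) t x
    have h2 := deriv_le h htT hx hΦm (hΦd _ hW0) hd
    refine h2.trans ?_
    have hq : 0 < 2 + Real.log (Wq u t x + 1) := by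
      have := hlog1 _ hW0
      linarith
    have hw1 := hpos1 _ hW0
    have h3 : 2 * Real.log m ≤ Real.log (Wq u t x + 1) := by
      have e4 : 2 * Real.log m = Real.log (m ^ 2) := by
        rw [Real.log_pow]
        norm_num
      rw [e4]
      exact Real.log_le_log (by positivity) (by rw [hWm]; linarith)
    rw [div_div, div_mul_eq_mul_div, one_mul, div_le_iff₀ (by positivity)]
    have hP' : vort (u t) x ⬝ᵥ (grad (u t) x).mulVec (vort (u t) x)
        ≤ b t * (1 + Real.log m) * m ^ 2 := by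
      rw [← hWm]
      exact hP
    calc 2 * (vort (u t) x ⬝ᵥ (grad (u t) x).mulVec (vort (u t) x))
        ≤ 2 * (b t * (1 + Real.log m) * m ^ 2) := by linarith
      _ = b t * (m ^ 2 * (2 + 2 * Real.log m)) := by ring
      _ ≤ b t * ((Wq u t x + 1) * (2 + Real.log (Wq u t x + 1))) := by
          have := hb0 t htI
          have h4 : m ^ 2 ≤ Wq u t x + 1 := by rw [hWm]; linarith
          gcongr
  have hMc := Mx_nonneg (u := u) c
  have hMs := Mx_nonneg (u := u) s
  have h1 : Real.log (2 + Real.log (Mx u c + 1))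
      ≤ Real.log (2 + Real.log (Mx u s + 1)) + ∫ t in s..c, b t := by
    simp only [hΦ] at key
    linarith
  have h2 := Real.exp_le_exp.2 h1
  have h3 := hlog1 _ hMc
  have h4 := hlog1 _ hMs
  rwa [Real.exp_log (by linarith), Real.exp_add, Real.exp_log (by linarith)] at h2


/-- The rates of the three alternatives. -/
lemma rate_alt (h : IsC2Solution T u p) {t : ℝ} (ht : t ∈ Ioo 0 T) {x : V} (hx : IsMaxPt u t x)
    {G U w θ θ₁ κ : ℝ} (hθ : 0 ≤ θ) (hθ1 : θ < θ₁) (hκ : 1 / 2 ≤ κ) (hκ2 : θ ≤ κ * θ₁) (hw : 0 ≤ w)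
    (hL : 1 ≤ Lf T t) (hlow : (T - t) ^ (-θ₁) < nrm (vort (u t) x))
    (hyp : nrm (vort (u t) x) ≤ (T - t) ^ (-θ) ∨
      (0 < G ∧ Directed (u t) x G U ∧
        U * G ≤ 1 / (2 * Cst) / ((T - t) * Real.log (1 / (T - t))) + w) ∨
      MidLE (grad (u t) x) (θ / (2 * (T - t)) + w)) :
    1 ≤ nrm (vort (u t) x) ∧
      Pq u t x ≤ (Cst * (1 + w) + 2 * w + κ / ((T - t) * Lf T t))
        * (1 + Real.log (nrm (vort (u t) x))) * Wq u t x := by
  have hC := Cst_pos
  have hTt : 0 < T - t := sub_pos.2 ht.2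
  have hL0 : 0 < Lf T t := by linarith
  have hθ10 : 0 < θ₁ := by linarith
  set m := nrm (vort (u t) x) with hm
  have hLdef : Real.log (T - t) = -Lf T t := by unfold Lf; ring
  have hpow : ∀ a : ℝ, (T - t) ^ (-a) = Real.exp (a * Lf T t) := by
    intro a
    rw [Real.rpow_def_of_pos hTt, hLdef]
    congr 1
    ring
  rw [hpow] at hlow
  have he : 1 ≤ Real.exp (θ₁ * Lf T t) := Real.one_le_exp (by positivity)
  have hm1 : 1 ≤ m := he.trans hlow.le
  have hm0 : 0 < m := by linarith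
  have hlogm : θ₁ * Lf T t ≤ Real.log m := by
    have := Real.log_le_log (Real.exp_pos _) hlow.le
    rwa [Real.log_exp] at this
  have hlogm0 : 0 ≤ Real.log m := Real.log_nonneg hm1
  have hWm : Wq u t x = m ^ 2 := Wq_eq t x
  have hD : 0 < (T - t) * Lf T t := by positivity
  have hκ0 : 0 < κ := by linarith
  refine ⟨hm1, ?_⟩
  rcases hyp with h1 | ⟨hG, hdir, hUG⟩ | h3
  · exfalso
    rw [hpow] at h1
    have : Real.exp (θ * Lf T t) ≤ Real.exp (θ₁ * Lf T t) :=
      Real.exp_le_exp.2 (by nlinarith)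
    linarith
  · have h1 := stretch_dir (slice_two h ht) (fun x => h.sol.div_free t ⟨ht.1.le, ht.2⟩ x)
      hG hdir (Ω := m) (fun y _ => hx y) (δ := 1 / m) (by positivity)
      (by rw [div_le_one hm0]; exact hm1)
    have e1 : Real.log (1 / (1 / m)) = Real.log m := by rw [one_div_one_div]
    have e2 : 1 / m * m = 1 := by field_simp
    rw [e1, e2] at h1
    rw [← Lf_eq] at hUG
    refine (le_abs_self _).trans (h1.trans ?_)
    have e3 : vort (u t) x ⬝ᵥ vort (u t) x = Wq u t x := rfl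
    rw [e3]
    refine mul_le_mul_of_nonneg_right ?_ (Wq_nonneg _ _)
    have h5 : U * G * (1 + Real.log m) + 1
        ≤ (1 + w + 1 / (2 * Cst) / ((T - t) * Lf T t)) * (1 + Real.log m) := by
      have h6 : U * G * (1 + Real.log m)
          ≤ (1 / (2 * Cst) / ((T - t) * Lf T t) + w) * (1 + Real.log m) :=
        mul_le_mul_of_nonneg_right hUG (by linarith)
      nlinarith
    have h7 : Cst * (1 / (2 * Cst) / ((T - t) * Lf T t)) ≤ κ / ((T - t) * Lf T t) := by
      have e4 : Cst * (1 / (2 * Cst) / ((T - t) * Lf T t)) = (1 / 2) / ((T - t) * Lf T t) := by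
        field_simp
      rw [e4]
      gcongr
    calc Cst * (U * G * (1 + Real.log m) + 1)
        ≤ Cst * ((1 + w + 1 / (2 * Cst) / ((T - t) * Lf T t)) * (1 + Real.log m)) := by gcongr
      _ = (Cst * (1 + w) + Cst * (1 / (2 * Cst) / ((T - t) * Lf T t))) * (1 + Real.log m) := by
          ring
      _ ≤ (Cst * (1 + w) + 2 * w + κ / ((T - t) * Lf T t)) * (1 + Real.log m) := by
          refine mul_le_mul_of_nonneg_right ?_ (by linarith)
          linarith
  · have h1 := mid_rate h.sol ⟨ht.1.le, ht.2⟩ h3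
    refine h1.trans (mul_le_mul_of_nonneg_right ?_ (Wq_nonneg _ _))
    have h4 : θ / (T - t) ≤ κ / ((T - t) * Lf T t) * (1 + Real.log m) := by
      rw [div_mul_eq_mul_div, div_le_div_iff₀ hTt hD]
      have h5 : θ * Lf T t ≤ κ * (1 + Real.log m) := by nlinarith
      nlinarith
    have h6 : 2 * (θ / (2 * (T - t)) + w) = θ / (T - t) + 2 * w := by
      field_simp
    rw [h6]
    have h7 : 2 * w ≤ 2 * w * (1 + Real.log m) := by nlinarith
    have h8 : 0 ≤ Cst * (1 + w) * (1 + Real.log m) := by positivity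
    nlinarith

end Pool.Agent.Y297.EulerLL
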