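import Pool.Agent.Y297.EulerLL

/-!
# The direction of the vorticity at one maximum point: the main theorem
-/

open MeasureTheory Set Filter
open scoped ENNReal NNReal Topology

namespace Pool.Agent.Y297.EulerLL

open Pool.Agent.H708R2.EulerSign Pool.Agent.H708R2.EulerTypeI Pool.Agent.W786.Sv
  Pool.Agent.W786.Dir Pool.Agent.W786.Max

variable {T : ℝ} {u : ℝ → V → V} {p : ℝ → V → ℝ}

lemma rpow_neg_eq {T t : ℝ} (ht : t < T) (a : ℝ) : (T - t) ^ (-a) = Real.exp (a * Lf T t) := by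
  have hTt : 0 < T - t := sub_pos.2 ht
  have hLdef : Real.log (T - t) = -Lf T t := by unfold Lf; ring
  rw [Real.rpow_def_of_pos hTt, hLdef]
  congr 1
  ring

lemma Lf_mono {T s t : ℝ} (hst : s ≤ t) (ht : t < T) : Lf T s ≤ Lf T t := by
  unfold Lf
  have := Real.log_le_log (sub_pos.2 ht) (show T - t ≤ T - s by linarith)
  linarith

/-- The three alternatives at one maximum point. -/
def Alt (T θ : ℝ) (u : ℝ → V → V) (w G U : ℝ → ℝ) (t : ℝ) : Prop :=
  ∃ x, IsMaxPt u t x ∧
    (nrm (vort (u t) x) ≤ (T - t) ^ (-θ) ∨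
      (0 < G t ∧ Directed (u t) x (G t) (U t) ∧
        U t * G t ≤ 1 / (2 * Cst) / ((T - t) * Real.log (1 / (T - t))) + w t) ∨
      MidLE (grad (u t) x) (θ / (2 * (T - t)) + w t))

theorem main_rate (hT : 0 < T) (h : IsC2Solution T u p) {θ θ' : ℝ} (hθ : 0 ≤ θ) (hθ' : θ < θ')
    {w G U : ℝ → ℝ} (hw0 : ∀ t, 0 ≤ w t) (hwi : IntegrableOn w (Ioo 0 T)) {τ : ℝ} (hτ : τ < T)
    (hyp : ∀ᵐ t, t ∈ Ioo τ T → Alt T θ u w G U t) :
    ∀ᶠ t in 𝓝[<] T, ∀ x, nrm (vort (u t) x) ≤ (T - t) ^ (-θ') := by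
  have hC := Cst_pos
  set θ₁ := (θ + θ') / 2 with hθ₁
  have h01 : θ < θ₁ := by rw [hθ₁]; linarith
  have h12 : θ₁ < θ' := by rw [hθ₁]; linarith
  have hθ10 : 0 < θ₁ := by linarith
  set κ := max (1 / 2) (θ / θ₁) with hκdef
  have hκ1 : κ < 1 := max_lt (by norm_num) ((div_lt_one hθ10).2 h01)
  have hκh : 1 / 2 ≤ κ := le_max_left _ _
  have hκ2 : θ ≤ κ * θ₁ := by
    have : θ / θ₁ ≤ κ := le_max_right _ _
    rwa [div_le_iff₀ hθ10] at this
  have hκ0 : 0 < κ := by linarith
  -- the primitive of `w`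
  have hwI : IntegrableOn w (Icc 0 T) := by
    rw [integrableOn_Icc_iff_integrableOn_Ioo]
    exact hwi
  set H : ℝ → ℝ := fun t => ∫ s in (0 : ℝ)..t, w s with hH
  have hHc : ContinuousOn H (Icc 0 T) := by
    have := intervalIntegral.continuousOn_primitive_interval (f := w) (a := 0) (b := T)
      (by rwa [uIcc_of_le hT.le])
    rwa [uIcc_of_le hT.le] at this
  have hwint : ∀ a ∈ Icc 0 T, ∀ b ∈ Icc 0 T, a ≤ b → IntervalIntegrable w volume a b :=
    fun a ha b hb hab => (intervalIntegrable_iff_integrableOn_Icc_of_le hab).2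
      (hwI.mono_set (Icc_subset_Icc ha.1 hb.2))
  have hHsub : ∀ a ∈ Icc 0 T, ∀ b ∈ Icc 0 T, a ≤ b → ∫ s in a..b, w s = H b - H a := by
    intro a ha b hb hab
    have h1 := intervalIntegral.integral_add_adjacent_intervals
      (hwint 0 ⟨le_rfl, hT.le⟩ a ha ha.1) (hwint a ha b hb hab)
    simp only [hH]
    linarith
  have hHmono : ∀ a ∈ Icc 0 T, ∀ b ∈ Icc 0 T, a ≤ b → H a ≤ H b := by
    intro a ha b hb hab
    have h1 := hHsub a ha b hb hab
    have h2 : 0 ≤ ∫ s in a..b, w s := intervalIntegral.integral_nonneg hab fun t _ => hw0 t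
    linarith
  set η : ℝ → ℝ := fun s => Cst * (T - s) + (Cst + 2) * (H T - H s) with hη
  -- smallness near `T`
  have hηlim : Tendsto η (𝓝[<] T) (𝓝 0) := by
    have h1 : Tendsto (fun s => T - s) (𝓝[<] T) (𝓝 0) := by
      have : Tendsto (fun s => T - s) (𝓝 T) (𝓝 (T - T)) :=
        (continuous_const.sub continuous_id).tendsto T
      rw [sub_self] at this
      exact this.mono_left nhdsWithin_le_nhds
    have h2 : Tendsto H (𝓝[<] T) (𝓝 (H T)) := by
      have h3 := (hHc T ⟨hT.le, le_rfl⟩)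
      have h4 : 𝓝[<] T ≤ 𝓝[Icc 0 T] T := by
        rw [← nhdsWithin_Ioo_eq_nhdsLT hT]
        exact nhdsWithin_mono _ Ioo_subset_Icc_self
      exact h3.mono_left h4
    have h3 : Tendsto (fun s => H T - H s) (𝓝[<] T) (𝓝 0) := by
      have := (tendsto_const_nhds (x := H T)).sub h2
      rwa [sub_self] at this
    have h4 := (h1.const_mul Cst).add (h3.const_mul (Cst + 2))
    rw [mul_zero, mul_zero, add_zero] at h4
    exact h4
  have hsmall : ∀ᶠ s in 𝓝[<] T, (3 / Lf T s + 2 * θ₁) * Real.exp (η s) ≤ 2 * θ' := by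
    have h1 : Tendsto (fun s => 3 / Lf T s) (𝓝[<] T) (𝓝 0) :=
      (tendsto_Lf T).const_div_atTop 3
    have h2 : Tendsto (fun s => (3 / Lf T s + 2 * θ₁) * Real.exp (η s)) (𝓝[<] T)
        (𝓝 ((0 + 2 * θ₁) * Real.exp 0)) :=
      (h1.add_const _).mul ((Real.continuous_exp.tendsto 0).comp hηlim)
    rw [zero_add, Real.exp_zero, mul_one] at h2
    exact (h2.eventually (gt_mem_nhds (show 2 * θ₁ < 2 * θ' by linarith))).mono
      fun s hs => le_of_lt hs
  have hτev : ∀ᶠ s in 𝓝[<] T, τ < s := by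
    have : Ioi τ ∈ 𝓝 T := Ioi_mem_nhds hτ
    exact mem_nhdsWithin_of_mem_nhds this
  obtain ⟨t₁, ht₁, hP⟩ := exists_start hT (hsmall.and hτev) 1
  have hL : ∀ t ∈ Ico t₁ T, 1 ≤ Lf T t := fun t ht => (hP t ht).2
  have hτ1 : τ < t₁ := (hP t₁ ⟨le_rfl, ht₁.2⟩).1.2
  have ht₁I : t₁ ∈ Icc 0 T := ⟨ht₁.1.le, ht₁.2.le⟩
  -- the rate
  set b : ℝ → ℝ := fun t => Cst * (1 + w t) + 2 * w t + κ / ((T - t) * Lf T t) with hb
  have hbcont : ∀ s ∈ Ico t₁ T, ∀ c ∈ Ico t₁ T,
      ContinuousOn (fun t => κ / ((T - t) * Lf T t)) (Icc s c) := by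
    intro s hs c hc
    have hsub : Icc s c ⊆ Ico t₁ T := fun t ht => ⟨hs.1.trans ht.1, ht.2.trans_lt hc.2⟩
    have h1 : ContinuousOn (Lf T) (Icc s c) := fun t ht =>
      (Lf_hasDerivAt (hsub ht).2).continuousAt.continuousWithinAt
    refine continuousOn_const.div ((continuousOn_const.sub continuousOn_id).mul h1) fun t ht => ?_
    have h2 := hL t (hsub ht)
    have h3 : 0 < T - t := sub_pos.2 (hsub ht).2
    have : 0 < (T - t) * Lf T t := by positivity
    exact this.ne'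
  have hbpos : ∀ t ∈ Ico t₁ T, 0 ≤ b t := by
    intro t ht
    have h2 := hL t ht
    have h3 : 0 < T - t := sub_pos.2 ht.2
    have h4 := hw0 t
    simp only [hb]
    positivity
  have hbint : ∀ s ∈ Ico t₁ T, ∀ c ∈ Ico t₁ T, s ≤ c → IntervalIntegrable b volume s c ∧
      ∫ t in s..c, b t = Cst * (c - s) + (Cst + 2) * (H c - H s)
        + κ * (Real.log (Lf T c) - Real.log (Lf T s)) := by
    intro s hs c hc hsc
    have hsI : s ∈ Icc 0 T := ⟨ht₁.1.le.trans hs.1, hs.2.le⟩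
    have hcI : c ∈ Icc 0 T := ⟨ht₁.1.le.trans hc.1, hc.2.le⟩
    have hw1 := hwint s hsI c hcI hsc
    have hk1 : IntervalIntegrable (fun t => κ / ((T - t) * Lf T t)) volume s c := by
      refine ContinuousOn.intervalIntegrable ?_
      rw [uIcc_of_le hsc]
      exact hbcont s hs c hc
    have hk2 : ∫ t in s..c, κ / ((T - t) * Lf T t)
        = κ * Real.log (Lf T c) - κ * Real.log (Lf T s) := by
      refine intervalIntegral.integral_eq_sub_of_hasDerivAt
        (f := fun t => κ * Real.log (Lf T t)) ?_ hk1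
      intro t ht
      rw [uIcc_of_le hsc] at ht
      have htT : t < T := ht.2.trans_lt hc.2
      have h2 := hL t ⟨hs.1.trans ht.1, htT⟩
      have h3 : 0 < T - t := sub_pos.2 htT
      refine (((Lf_hasDerivAt htT).log (by linarith)).const_mul κ).congr_deriv ?_
      field_simp
    have e : b = fun t => (Cst + (Cst + 2) * w t) + κ / ((T - t) * Lf T t) := by
      funext t
      simp only [hb]
      ring
    have hc1 : IntervalIntegrable (fun _ : ℝ => Cst) volume s c := intervalIntegrable_const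
    have hw2 : IntervalIntegrable (fun t => (Cst + 2) * w t) volume s c := hw1.const_mul _
    have hcw : IntervalIntegrable (fun t => Cst + (Cst + 2) * w t) volume s c := hc1.add hw2
    refine ⟨by rw [e]; exact hcw.add hk1, ?_⟩
    rw [e, intervalIntegral.integral_add hcw hk1, intervalIntegral.integral_add hc1 hw2,
      intervalIntegral.integral_const, intervalIntegral.integral_const_mul, hHsub s hsI c hcI hsc,
      hk2, smul_eq_mul]
    ring
  have hpos1 : ∀ y : ℝ, 0 ≤ y → 0 ≤ Real.log (y + 1) := fun y hy => Real.log_nonneg (by linarith)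
  -- the two cases
  have hgrow : ∀ s ∈ Ico t₁ T, ∀ c ∈ Ico t₁ T, s ≤ c →
      (∀ t ∈ Ioc s c, ∀ z, IsMaxPt u t z → (T - t) ^ (-θ₁) < nrm (vort (u t) z)) →
      2 + Real.log (Mx u c + 1) ≤ (2 + Real.log (Mx u s + 1))
        * (Real.exp (η s) * Real.exp (κ * (Real.log (Lf T c) - Real.log (Lf T s)))) := by
    intro s hs c hc hsc hlow
    have hsI : s ∈ Icc 0 T := ⟨ht₁.1.le.trans hs.1, hs.2.le⟩
    have hcI : c ∈ Icc 0 T := ⟨ht₁.1.le.trans hc.1, hc.2.le⟩
    obtain ⟨hbi, hbe⟩ := hbint s hs c hc hsc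
    have h1 := log_growth h hsI.1 hsc hc.2
      ((intervalIntegrable_iff_integrableOn_Icc_of_le hsc).1 hbi)
      (fun t ht => hbpos t ⟨hs.1.trans ht.1.le, ht.2.trans hc.2⟩) (by
        filter_upwards [hyp] with t ht htI
        have htT : t ∈ Ioo 0 T :=
          ⟨hsI.1.trans_lt htI.1, htI.2.trans hc.2⟩
        obtain ⟨x, hx, hx2⟩ := ht ⟨hτ1.trans_le (hs.1.trans htI.1.le), htT.2⟩
        refine ⟨x, hx, ?_⟩
        exact rate_alt h htT hx hθ h01 hκh hκ2 (hw0 t) (hL t ⟨hs.1.trans htI.1.le, htT.2⟩)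
          (hlow t ⟨htI.1, htI.2.le⟩ x hx) hx2)
    refine h1.trans (mul_le_mul_of_nonneg_left ?_ ?_)
    · rw [hbe, ← Real.exp_add]
      refine Real.exp_le_exp.2 ?_
      simp only [hη]
      have h2 : Cst * (c - s) ≤ Cst * (T - s) := by
        have := hc.2.le
        gcongr
      have h3 : (Cst + 2) * (H c - H s) ≤ (Cst + 2) * (H T - H s) := by
        have := hHmono c hcI T ⟨hT.le, le_rfl⟩ hc.2.le
        gcongr
      linarith
    · have := hpos1 _ (Mx_nonneg (u := u) s)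
      linarith
  -- eventually
  set A := (2 + Real.log (Mx u t₁ + 1)) * Real.exp (η t₁) with hA
  have hA0 : 0 ≤ A := by
    have := hpos1 _ (Mx_nonneg (u := u) t₁)
    positivity
  have hθ'0 : 0 < θ' := by linarith
  have hev : ∀ᶠ c in 𝓝[<] T, A * (Lf T c) ^ κ ≤ 2 * θ' * Lf T c := by
    have h1 : Tendsto (fun c => (Lf T c) ^ (1 - κ)) (𝓝[<] T) atTop :=
      (tendsto_rpow_atTop (by linarith)).comp (tendsto_Lf T)
    filter_upwards [h1.eventually (eventually_ge_atTop (A / (2 * θ'))),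
      (tendsto_Lf T).eventually (eventually_gt_atTop 0)] with c hc hc0
    have h2 : A ≤ 2 * θ' * (Lf T c) ^ (1 - κ) := by
      rw [div_le_iff₀ (by positivity)] at hc
      linarith
    have h3 : (Lf T c) ^ (1 - κ) * (Lf T c) ^ κ = Lf T c := by
      rw [← Real.rpow_add hc0]
      simp
    calc A * (Lf T c) ^ κ ≤ 2 * θ' * (Lf T c) ^ (1 - κ) * (Lf T c) ^ κ := by
          gcongr
      _ = 2 * θ' * ((Lf T c) ^ (1 - κ) * (Lf T c) ^ κ) := by ring
      _ = _ := by rw [h3]
  have hmem : Ico t₁ T ∈ 𝓝[<] T := Ico_mem_nhdsLT ht₁.2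
  filter_upwards [hev, hmem] with c hcev hc x
  have hcT := hc.2
  have hLc := hL c hc
  have hLc0 : 0 < Lf T c := by linarith
  -- the last time
  have hnc : ∀ y, ContinuousOn (fun t => nrm (vort (u t) y)) (Icc 0 c) := by
    intro y
    have h1 := nrm_vort_cont h.sol hcT
    have h2 : Continuous fun t : ℝ => ((t, y) : ℝ × V) := by fun_prop
    have h3 := h1.comp (s := Icc 0 c) h2.continuousOn fun t ht => ⟨ht, mem_univ _⟩
    simpa only [Function.comp_def] using h3
  have hRc : ContinuousOn (fun t : ℝ => (T - t) ^ (-θ₁)) (Icc t₁ c) := by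
    refine (continuousOn_const.sub continuousOn_id).rpow_const fun t ht => Or.inl ?_
    have : 0 < T - t := sub_pos.2 (ht.2.trans_lt hcT)
    exact this.ne'
  set S : Set ℝ := {t ∈ Icc t₁ c | ∀ y, nrm (vort (u t) y) ≤ (T - t) ^ (-θ₁)} with hS
  have hSc : IsCompact S := by
    have : IsClosed S := by
      have h1 : S = Icc t₁ c ∩
          ⋂ y, (Icc t₁ c ∩ (fun t => nrm (vort (u t) y) - (T - t) ^ (-θ₁)) ⁻¹' Iic 0) := by
        ext t
        simp only [hS, mem_inter_iff, mem_iInter, mem_preimage, mem_Iic, sub_nonpos]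
        constructor
        · rintro ⟨h1, h2⟩
          exact ⟨h1, fun y => ⟨h1, h2 y⟩⟩
        · rintro ⟨h1, h2⟩
          exact ⟨h1, fun y => (h2 y).2⟩
      rw [h1]
      exact isClosed_Icc.inter (isClosed_iInter fun y =>
        (((hnc y).mono (Icc_subset_Icc_left ht₁.1.le)).sub hRc).preimage_isClosed_of_isClosed
          isClosed_Icc isClosed_Iic)
    exact isCompact_Icc.of_isClosed_subset this fun t ht => ht.1
  have hmain : 2 + Real.log (Mx u c + 1) ≤ 2 * θ' * Lf T c := by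
    by_cases hne : S.Nonempty
    · obtain ⟨hsI, hsK⟩ := hSc.sSup_mem hne
      set s := sSup S with hs
      have hlow : ∀ t ∈ Ioc s c, ∀ z, IsMaxPt u t z → (T - t) ^ (-θ₁) < nrm (vort (u t) z) := by
        intro t ht z hz
        by_contra h1
        push Not at h1
        have : t ∈ S := ⟨⟨hsI.1.trans ht.1.le, ht.2⟩, fun y => (hz y).trans h1⟩
        exact absurd (le_csSup hSc.bddAbove this) (not_le.2 ht.1)
      have hsT : s ∈ Ico t₁ T := ⟨hsI.1, hsI.2.trans_lt hcT⟩
      have hLs := hL s hsT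
      have hLs0 : 0 < Lf T s := by linarith
      have h1 := hgrow s hsT c hc hsI.2 hlow
      have hLsc : Lf T s ≤ Lf T c := Lf_mono hsI.2 hcT
      have h2 : Real.exp (κ * (Real.log (Lf T c) - Real.log (Lf T s))) ≤ Lf T c / Lf T s := by
        have h3 : κ * (Real.log (Lf T c) - Real.log (Lf T s))
            ≤ Real.log (Lf T c) - Real.log (Lf T s) := by
          have : 0 ≤ Real.log (Lf T c) - Real.log (Lf T s) :=
            sub_nonneg.2 (Real.log_le_log hLs0 hLsc)
          nlinarith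
        refine (Real.exp_le_exp.2 h3).trans (le_of_eq ?_)
        rw [Real.exp_sub, Real.exp_log hLc0, Real.exp_log hLs0]
      have hMs : Mx u s ≤ Real.exp (2 * (θ₁ * Lf T s)) := by
        have h3 := Mx_le hsK
        rw [rpow_neg_eq hsT.2, ← Real.exp_nat_mul] at h3
        push_cast at h3
        exact h3
      have hYs : 2 + Real.log (Mx u s + 1) ≤ 3 + 2 * θ₁ * Lf T s := by
        have h3 : Mx u s + 1 ≤ Real.exp (1 + 2 * (θ₁ * Lf T s)) := by
          rw [Real.exp_add]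
          have h4 : (2 : ℝ) ≤ Real.exp 1 := by
            have := Real.add_one_le_exp (1 : ℝ)
            linarith
          have h5 : 1 ≤ Real.exp (2 * (θ₁ * Lf T s)) := Real.one_le_exp (by positivity)
          nlinarith
        have hM0 := Mx_nonneg (u := u) s
        have h4 := Real.log_le_log (by linarith) h3
        rw [Real.log_exp] at h4
        linarith
      calc 2 + Real.log (Mx u c + 1)
          ≤ (2 + Real.log (Mx u s + 1)) * (Real.exp (η s)
            * Real.exp (κ * (Real.log (Lf T c) - Real.log (Lf T s)))) := h1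
        _ ≤ (3 + 2 * θ₁ * Lf T s) * (Real.exp (η s) * (Lf T c / Lf T s)) := by
            have h5 := hpos1 _ (Mx_nonneg (u := u) s)
            have h6 : 0 ≤ 3 + 2 * θ₁ * Lf T s := by positivity
            gcongr
        _ = ((3 / Lf T s + 2 * θ₁) * Real.exp (η s)) * Lf T c := by
            field_simp
        _ ≤ 2 * θ' * Lf T c := by
            have := (hP s hsT).1.1
            gcongr
    · have hlow : ∀ t ∈ Ioc t₁ c, ∀ z, IsMaxPt u t z → (T - t) ^ (-θ₁) < nrm (vort (u t) z) := by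
        intro t ht z hz
        by_contra h1
        push Not at h1
        exact hne ⟨t, ⟨ht.1.le, ht.2⟩, fun y => (hz y).trans h1⟩
      have h1 := hgrow t₁ ⟨le_rfl, ht₁.2⟩ c hc hc.1 hlow
      have hLt := hL t₁ ⟨le_rfl, ht₁.2⟩
      have h2 : Real.exp (κ * (Real.log (Lf T c) - Real.log (Lf T t₁))) ≤ (Lf T c) ^ κ := by
        rw [Real.rpow_def_of_pos hLc0]
        refine Real.exp_le_exp.2 ?_
        have := Real.log_nonneg hLt
        nlinarith
      calc 2 + Real.log (Mx u c + 1)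
          ≤ (2 + Real.log (Mx u t₁ + 1)) * (Real.exp (η t₁)
            * Real.exp (κ * (Real.log (Lf T c) - Real.log (Lf T t₁)))) := h1
        _ ≤ (2 + Real.log (Mx u t₁ + 1)) * (Real.exp (η t₁) * (Lf T c) ^ κ) := by
            have h5 := hpos1 _ (Mx_nonneg (u := u) t₁)
            have h6 : 0 ≤ 2 + Real.log (Mx u t₁ + 1) := by linarith
            gcongr
        _ = A * (Lf T c) ^ κ := by rw [hA]; ring
        _ ≤ _ := hcev
  have hMc0 := Mx_nonneg (u := u) c
  have h3 : Mx u c ≤ Real.exp (2 * (θ' * Lf T c)) := by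
    have h4 : Real.log (Mx u c + 1) ≤ 2 * (θ' * Lf T c) := by linarith
    have h5 := Real.exp_le_exp.2 h4
    rw [Real.exp_log (by linarith)] at h5
    linarith
  have h4 : nrm (vort (u c) x) ^ 2 ≤ Real.exp (θ' * Lf T c) ^ 2 := by
    rw [← Wq_eq, ← Real.exp_nat_mul]
    push_cast
    exact (Wq_le h.sol ⟨ht₁.1.le.trans hc.1, hcT⟩ x).trans h3
  rw [rpow_neg_eq hcT]
  exact (le_abs_self _).trans (abs_le_of_sq_le_sq h4 (Real.exp_pos _).le)

theorem main_bkm (hT : 0 < T) (h : IsC2Solution T u p) {θ' : ℝ} (hθ0 : 0 ≤ θ') (hθ' : θ' < 1)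
    (hm : ∀ᶠ t in 𝓝[<] T, ∀ x, nrm (vort (u t) x) ≤ (T - t) ^ (-θ')) : BKMFinite T u := by
  obtain ⟨t₀, ht₀, hP⟩ := exists_start hT hm 1
  have hL : ∀ t ∈ Ico t₀ T, 0 < Lf T t := fun t ht => by linarith [(hP t ht).2]
  set a := 1 - θ' with ha
  have ha0 : 0 < a := by linarith
  refine bkm_of_rate h.sol ht₀ (γ := 2) (by norm_num) hL (C := 4 / a ^ 2) fun t ht x => ?_
  have h1 := (hP t ht).1 x
  have hTt : 0 < T - t := sub_pos.2 ht.2
  have hLt := hL t ht
  refine h1.trans ?_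
  rw [rpow_neg_eq ht.2]
  have e1 : 1 / (T - t) = Real.exp (Lf T t) := by
    unfold Lf
    rw [Real.exp_neg, Real.exp_log hTt, one_div]
  rw [e1, Real.rpow_neg hLt.le, Real.rpow_two]
  have h2 : a * Lf T t / 2 ≤ Real.exp (a * Lf T t / 2) := by
    have := Real.add_one_le_exp (a * Lf T t / 2)
    linarith
  have h3 : (a * Lf T t / 2) ^ 2 ≤ Real.exp (a * Lf T t) := by
    have h4 : (a * Lf T t / 2) ^ 2 ≤ Real.exp (a * Lf T t / 2) ^ 2 := by gcongr
    refine h4.trans (le_of_eq ?_)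
    rw [← Real.exp_nat_mul]
    congr 1
    push_cast
    ring
  have h4 : Real.exp (Lf T t) = Real.exp (θ' * Lf T t) * Real.exp (a * Lf T t) := by
    rw [← Real.exp_add]
    congr 1
    rw [ha]
    ring
  rw [h4]
  have h5 : 4 / a ^ 2 * (Real.exp (θ' * Lf T t) * Real.exp (a * Lf T t) * (Lf T t ^ 2)⁻¹)
      = Real.exp (θ' * Lf T t) * (Real.exp (a * Lf T t) / (a * Lf T t / 2) ^ 2) := by
    field_simp
    ring
  rw [h5]
  have h6 : 1 ≤ Real.exp (a * Lf T t) / (a * Lf T t / 2) ^ 2 := by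
    rw [one_le_div (by positivity)]
    exact h3
  have h7 := Real.exp_pos (θ' * Lf T t)
  nlinarith

end Pool.Agent.Y297.EulerLL
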