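import Pool.Agent.Y297.Model2

/-!
# Orbits of the model map through the non-holomorphic region come close to `1`
-/

set_option autoImplicit false
set_option linter.all false

open Set Metric Filter Topology
open scoped ContDiff ComplexConjugate

noncomputable section

namespace Pool.Agent.Y297

theorem rot_near {lam : ℂ} {q : ℕ} (hq : 0 < q) (h : IsPrimitiveRoot lam q) {u : ℂ} (hu : ‖u‖ = 1) :
    ∃ j < q, ‖lam ^ j * u - 1‖ ≤ Real.pi / q := by
  have hq0 : (0 : ℝ) < q := by exact_mod_cast hq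
  have hqc : (q : ℂ) ≠ 0 := by exact_mod_cast hq.ne'
  have hpi := Real.pi_pos
  haveI : NeZero q := ⟨hq.ne'⟩
  set θ : ℝ := u.arg with hθ
  have hue : u = Complex.exp (θ * Complex.I) := by
    have := Complex.norm_mul_exp_arg_mul_I u
    rw [hu, Complex.ofReal_one, one_mul] at this
    exact this.symm
  set x : ℝ := θ * q / (2 * Real.pi) with hx
  set m : ℤ := round x with hm
  have hxm : |x - m| ≤ 1 / 2 := abs_sub_round x
  set z : ℂ := Complex.exp (-(2 * Real.pi * m / q * Complex.I)) with hz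
  have hzq : z ^ q = 1 := by
    rw [hz, ← Complex.exp_nat_mul]
    have : (q : ℂ) * (-(2 * Real.pi * m / q * Complex.I)) = ((-m : ℤ) : ℂ) * (2 * Real.pi * Complex.I) := by
      push_cast; field_simp
    rw [this, Complex.exp_int_mul_two_pi_mul_I]
  obtain ⟨j, hj, hjz⟩ := h.eq_pow_of_pow_eq_one hzq
  refine ⟨j, hj, ?_⟩
  rw [hjz, hz, hue, ← Complex.exp_add]
  have h1 : -(2 * Real.pi * m / q * Complex.I) + θ * Complex.I =
      Complex.I * ((θ - 2 * Real.pi * m / q : ℝ) : ℂ) := by push_cast; ring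
  rw [h1]
  refine (Real.norm_exp_I_mul_ofReal_sub_one_le).trans ?_
  have h2 : θ - 2 * Real.pi * m / q = (x - m) * (2 * Real.pi / q) := by
    rw [hx]; field_simp
  rw [h2, Real.norm_eq_abs, abs_mul, abs_of_pos (by positivity : 0 < 2 * Real.pi / q)]
  calc |x - m| * (2 * Real.pi / q) ≤ 1 / 2 * (2 * Real.pi / q) :=
        mul_le_mul_of_nonneg_right hxm (by positivity)
    _ = Real.pi / q := by ring

namespace Mod

variable (M : Mod)

theorem norm_le_s3_of {om t : ℝ} {w : ℂ} {N : ℕ} (hw : ‖(M.F om t)^[N] w‖ ≤ M.s3) :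
    ∀ i ≤ N, ‖(M.F om t)^[i] w‖ ≤ M.s3 := by
  intro i hi
  by_contra hne
  push Not at hne
  have : ∀ j, i ≤ j → M.s3 < ‖(M.F om t)^[j] w‖ := by
    intro j hj
    induction j, hj using Nat.le_induction with
    | base => exact hne
    | succ j hj ih =>
      rw [Function.iterate_succ_apply', M.F_out om t ih.le, norm_mul, M.lam_norm, one_mul]
      exact ih
  exact absurd (this N hi) (not_lt.2 hw)

theorem exit1 {om t η δ : ℝ} (hη : ∀ w : ℂ, ‖w‖ ≤ 1 → ‖M.F om t w - M.lam * w‖ ≤ η)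
    (hδ : M.q * η + (1 - M.s2) + Real.pi / M.q < δ) {w : ℂ}
    (hw : M.s2 ≤ ‖(M.F om t)^[M.q] w‖) (hw' : ‖(M.F om t)^[M.q] w‖ ≤ M.s3) :
    ∃ i < M.q, ‖(M.F om t)^[i] w - 1‖ < δ := by
  have hle := M.norm_le_s3_of hw'
  set f : ℕ → ℂ := fun i => (M.F om t)^[i] w with hf
  have hfs : ∀ i, f (i + 1) = M.F om t (f i) := fun i => Function.iterate_succ_apply' _ _ _
  have hη0 : 0 ≤ η := (norm_nonneg _).trans (hη 0 (by simp))
  have hln : ∀ j : ℕ, ‖M.lam ^ j‖ = 1 := fun j => by rw [norm_pow, M.lam_norm, one_pow]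
  have hkey : ∀ m ≤ M.q, ‖f M.q - M.lam ^ m * f (M.q - m)‖ ≤ m * η := by
    intro m
    induction m with
    | zero => intro _; simp
    | succ m ih =>
      intro hm
      have h1 := ih (by omega)
      have h2 : M.q - m = (M.q - (m + 1)) + 1 := by omega
      have h3 : ‖f (M.q - m) - M.lam * f (M.q - (m + 1))‖ ≤ η := by
        rw [h2, hfs]
        exact hη _ ((hle _ (by omega)).trans M.hs3.le)
      calc ‖f M.q - M.lam ^ (m + 1) * f (M.q - (m + 1))‖
          = ‖(f M.q - M.lam ^ m * f (M.q - m)) + M.lam ^ m * (f (M.q - m) - M.lam * f (M.q - (m + 1)))‖ := by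
            congr 1; ring
        _ ≤ ‖f M.q - M.lam ^ m * f (M.q - m)‖ + ‖M.lam ^ m * (f (M.q - m) - M.lam * f (M.q - (m + 1)))‖ :=
            norm_add_le _ _
        _ ≤ m * η + η := by
            rw [norm_mul, hln, one_mul]
            exact add_le_add h1 h3
        _ = ((m + 1 : ℕ) : ℝ) * η := by push_cast; ring
  have hwq0 : f M.q ≠ 0 := by
    intro h0
    have : ‖f M.q‖ = 0 := by rw [h0, norm_zero]
    have := M.hs2
    linarith
  have hwp : 0 < ‖f M.q‖ := norm_pos_iff.2 hwq0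
  set u : ℂ := f M.q / ‖f M.q‖ with hu
  have hu1 : ‖u‖ = 1 := by
    rw [hu, norm_div, Complex.norm_real, norm_norm, div_self hwp.ne']
  obtain ⟨j, hj, hju⟩ := rot_near M.hq M.hlam hu1
  refine ⟨j, hj, ?_⟩
  have h1 := hkey (M.q - j) (by omega)
  have h2 : M.q - (M.q - j) = j := by omega
  rw [h2] at h1
  have h3 : ‖f j - M.lam ^ j * f M.q‖ ≤ M.q * η := by
    have e : M.lam ^ j * M.lam ^ (M.q - j) = 1 := by
      rw [← pow_add, Nat.add_sub_cancel' hj.le, M.lam_pow]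
    have e2 : f j - M.lam ^ j * f M.q = -(M.lam ^ j * (f M.q - M.lam ^ (M.q - j) * f j)) := by
      linear_combination (-f j) * e
    rw [e2, norm_neg, norm_mul, hln, one_mul]
    refine h1.trans ?_
    apply mul_le_mul_of_nonneg_right _ hη0
    exact_mod_cast Nat.sub_le _ _
  have h4 : ‖M.lam ^ j * f M.q - M.lam ^ j * u‖ ≤ 1 - M.s2 := by
    rw [← mul_sub, norm_mul, hln, one_mul]
    have e : f M.q - u = ((‖f M.q‖ - 1 : ℝ) : ℂ) * u := by
      rw [hu]
      have : ((‖f M.q‖ : ℝ) : ℂ) ≠ 0 := by exact_mod_cast hwp.ne'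
      push_cast
      field_simp
    rw [e, norm_mul, hu1, mul_one, Complex.norm_real, Real.norm_eq_abs, abs_le]
    have : ‖f M.q‖ ≤ M.s3 := hw'
    have := M.hs3
    constructor
    · have : M.s2 ≤ ‖f M.q‖ := hw
      linarith
    · have : M.s2 < 1 := M.hs2'
      linarith
  calc ‖f j - 1‖ = ‖(f j - M.lam ^ j * f M.q) + (M.lam ^ j * f M.q - M.lam ^ j * u) + (M.lam ^ j * u - 1)‖ := by
        congr 1; ring
    _ ≤ ‖f j - M.lam ^ j * f M.q‖ + ‖M.lam ^ j * f M.q - M.lam ^ j * u‖ + ‖M.lam ^ j * u - 1‖ := norm_add₃_le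
    _ < δ := by linarith

theorem g_real {ρ : ℝ} (h1 : M.ra ≤ ρ) (h2 : ρ ≤ M.rb) : ‖M.g ρ - 1‖ ≤ 1 - M.s1 := by
  have hq' : (M.q : ℝ) ≠ 0 := by exact_mod_cast M.hq.ne'
  have hs2p := M.hs2p
  have hAρ : 1 < M.A - ρ := by linarith [M.hrb]
  set x : ℝ := ((M.A - ρ)⁻¹) ^ ((1 : ℝ) / M.q) with hx
  have hx0 : 0 < x := Real.rpow_pos_of_pos (by positivity) _
  have hxq : x ^ M.q = (M.A - ρ)⁻¹ := by
    rw [hx, one_div, Real.rpow_inv_natCast_pow (by positivity) M.hq.ne']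
  have hg : M.g ρ = x := by
    rw [g, ← rt_inv_pow M.hq hx0, hxq, inv_inv]
    push_cast
    rfl
  have hx1 : x ≤ 1 := by
    by_contra hne
    push Not at hne
    have := one_lt_pow₀ hne M.hq.ne'
    rw [hxq] at this
    have h3 : (M.A - ρ)⁻¹ < 1 := inv_lt_one_of_one_lt₀ hAρ
    linarith
  have hxs : M.s1 ≤ x := by
    by_contra hne
    push Not at hne
    have h3 : x ^ M.q < M.s1 ^ M.q := pow_lt_pow_left₀ hne hx0.le M.hq.ne'
    rw [hxq] at h3
    have h4 : (M.s1 ^ M.q)⁻¹ < M.A - ρ := by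
      rw [inv_lt_comm₀ (pow_pos M.hs1 _) (by linarith)]
      exact h3
    linarith [M.hra]
  rw [hg]
  have : ((x : ℂ) - 1) = ((x - 1 : ℝ) : ℂ) := by push_cast; ring
  rw [this, Complex.norm_real, Real.norm_eq_abs, abs_le]
  constructor <;> linarith [M.hs1]

theorem exit2 {δ : ℝ} (hδ : (1 - M.s1) + Real.pi / M.q < δ) :
    ∃ r > 0, ∀ om, 0 < om → om < r → M.Ok om → ∃ N, ∀ t, 0 ≤ t → t ≤ 1 → ∀ w : ℂ,
      M.ra * ‖w‖ ^ M.q ≤ ‖1 + M.A * w ^ M.q‖ → ‖1 + M.A * w ^ M.q‖ ≤ M.rb * ‖w‖ ^ M.q →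
      ∃ i ≤ N, ‖(M.F om t)^[i] w - 1‖ < δ := by
  have hq0 : (0 : ℝ) < M.q := by exact_mod_cast M.hq
  have hpi := Real.pi_pos
  have hA0 := M.hA0
  set η : ℝ := δ - ((1 - M.s1) + Real.pi / M.q) with hη
  have hη0 : 0 < η := by linarith
  have huc : UniformContinuousOn M.g (closedBall 0 M.rb) := by
    apply (isCompact_closedBall (0 : ℂ) M.rb).uniformContinuousOn_of_continuous
    intro W hW
    rw [mem_closedBall_zero_iff] at hW
    exact (M.g_cont (hW.trans_lt M.rbA)).continuousWithinAt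
  rw [Metric.uniformContinuousOn_iff] at huc
  obtain ⟨γ, hγ, hγ2⟩ := huc η hη0
  refine ⟨γ / (2 * M.q * M.A), by positivity, ?_⟩
  intro om hom homr hok
  rw [lt_div_iff₀ (by positivity)] at homr
  set J : ℕ := ⌈2 * Real.pi / (M.q * om)⌉₊ with hJ
  refine ⟨M.q + J * M.q, ?_⟩
  intro t ht0 ht1 w hw1 hw2
  obtain ⟨ζ, W, hz, hW, rfl⟩ := M.param M.rbA hw2
  have hWA : ‖W‖ < M.A := hW.trans_lt M.rbA
  have hWra : M.ra ≤ ‖W‖ := by
    rw [M.zg_reg hz hWA] at hw1
    exact le_of_mul_le_mul_right hw1 (M.zg_pos hz)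
  have hzn : ‖ζ‖ = 1 := by
    have h1 : ‖ζ‖ ^ M.q = 1 := by rw [← norm_pow, hz, norm_neg, norm_one]
    exact (pow_eq_one_iff_of_nonneg (norm_nonneg _) M.hq.ne').1 h1
  obtain ⟨φ, hφ0, hφ1, hφ2, -⟩ := M.iter_g hok hom.le ht0 ht1 hz hW
  obtain ⟨i0, hi0, hi0z⟩ := rot_near M.hq M.hlam hzn
  have hqstep : ∀ a m : ℕ, m * om ≤ φ (a + m) - φ a ∧ φ (a + m) - φ a ≤ m * (2 * om) := by
    intro a m
    induction m with
    | zero => simp
    | succ m ih =>
      have := hφ1 (a + m)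
      have e : a + (m + 1) = a + m + 1 := by ring
      rw [e]
      push_cast
      constructor <;> linarith [ih.1, ih.2, this.1, this.2]
  set x : ℝ := (W.arg - φ i0) / (2 * Real.pi) with hx
  set T : ℝ := W.arg - 2 * Real.pi * ⌊x⌋ with hT
  have hT0 : 0 ≤ T - φ i0 ∧ T - φ i0 < 2 * Real.pi := by
    have h1 : T - φ i0 = (x - ⌊x⌋) * (2 * Real.pi) := by
      rw [hT, hx]; field_simp; ring
    rw [h1]
    have h2 := Int.floor_le x
    have h3 := Int.lt_floor_add_one x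
    constructor
    · apply mul_nonneg <;> linarith
    · nlinarith
  set a : ℕ → ℝ := fun j => T - φ (i0 + j * M.q) with ha
  have ha0 : a 0 = T - φ i0 := by simp [ha]
  have has : ∀ j, M.q * om ≤ a j - a (j + 1) ∧ a j - a (j + 1) ≤ M.q * (2 * om) := by
    intro j
    have h1 := hqstep (i0 + j * M.q) M.q
    have e : i0 + (j + 1) * M.q = i0 + j * M.q + M.q := by ring
    simp only [ha, e]
    constructor <;> linarith [h1.1, h1.2]
  have hadec : ∀ j : ℕ, a j ≤ a 0 - j * (M.q * om) := by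
    intro j
    induction j with
    | zero => simp
    | succ j ih =>
      have := (has j).1
      push_cast
      linarith
  have hex : ∃ j, a j ≤ M.q * (2 * om) := by
    refine ⟨J, (hadec J).trans ?_⟩
    have h1 : 2 * Real.pi / (M.q * om) ≤ J := Nat.le_ceil _
    rw [div_le_iff₀ (by positivity)] at h1
    have : 0 < M.q * (2 * om) := by positivity
    rw [ha0]
    linarith [hT0.2]
  classical
  set j := Nat.find hex with hj
  have hj1 : a j ≤ M.q * (2 * om) := Nat.find_spec hex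
  have hjJ : j ≤ J := by
    apply Nat.find_min' hex
    refine (hadec J).trans ?_
    have h1 : 2 * Real.pi / (M.q * om) ≤ J := Nat.le_ceil _
    rw [div_le_iff₀ (by positivity)] at h1
    have : 0 < M.q * (2 * om) := by positivity
    rw [ha0]
    linarith [hT0.2]
  have hj0 : 0 ≤ a j := by
    rcases Nat.eq_zero_or_pos j with h0 | h0
    · rw [h0, ha0]; exact hT0.1
    · obtain ⟨j', hj'⟩ : ∃ j', j = j' + 1 := ⟨j - 1, by omega⟩
      have h1 : ¬ a j' ≤ M.q * (2 * om) := Nat.find_min hex (by omega)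
      have h2 := (has j').2
      rw [hj']
      push Not at h1
      linarith
  refine ⟨i0 + j * M.q, by nlinarith, ?_⟩
  rw [hφ2]
  set Wi : ℂ := Complex.exp (-(φ (i0 + j * M.q) * Complex.I)) * W with hWi
  have hWin : ‖Wi‖ = ‖W‖ := by
    rw [hWi, norm_mul, Complex.norm_exp]; simp
  have hWie : Wi = ‖W‖ * Complex.exp (Complex.I * (a j : ℝ)) := by
    have h1 : W = ‖W‖ * Complex.exp (W.arg * Complex.I) := (Complex.norm_mul_exp_arg_mul_I W).symm
    rw [hWi]
    conv_lhs => rw [h1]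
    rw [mul_left_comm]
    congr 1
    have h2 : Complex.I * (a j : ℝ) = (-(φ (i0 + j * M.q) * Complex.I) + W.arg * Complex.I) +
        ((-⌊x⌋ : ℤ) : ℂ) * (2 * Real.pi * Complex.I) := by
      simp only [ha, hT]
      push_cast
      ring
    rw [h2, Complex.exp_add, Complex.exp_int_mul_two_pi_mul_I, mul_one, Complex.exp_add]
  have hWid : ‖Wi - ‖W‖‖ < γ := by
    have h1 : Wi - ‖W‖ = ‖W‖ * (Complex.exp (Complex.I * (a j : ℝ)) - 1) := by rw [hWie]; ring
    rw [h1, norm_mul, Complex.norm_real, norm_norm]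
    have h2 : ‖Complex.exp (Complex.I * (a j : ℝ)) - 1‖ ≤ ‖a j‖ := Real.norm_exp_I_mul_ofReal_sub_one_le
    rw [Real.norm_of_nonneg hj0] at h2
    calc ‖W‖ * ‖Complex.exp (Complex.I * (a j : ℝ)) - 1‖ ≤ M.A * (M.q * (2 * om)) := by
          apply mul_le_mul hWA.le (h2.trans hj1) (norm_nonneg _) hA0.le
      _ = om * (2 * M.q * M.A) := by ring
      _ < γ := homr
  have hgd : ‖M.g Wi - M.g ‖W‖‖ < η := by
    have h1 : Wi ∈ closedBall (0 : ℂ) M.rb := by rw [mem_closedBall_zero_iff, hWin]; exact hW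
    have h2 : ((‖W‖ : ℝ) : ℂ) ∈ closedBall (0 : ℂ) M.rb := by
      rw [mem_closedBall_zero_iff, Complex.norm_real, norm_norm]; exact hW
    have := hγ2 _ h1 _ h2 (by rw [dist_eq_norm]; exact hWid)
    rwa [dist_eq_norm] at this
  have hlam : M.lam ^ (i0 + j * M.q) = M.lam ^ i0 := by
    rw [pow_add, mul_comm j, pow_mul, M.lam_pow, one_pow, mul_one]
  rw [hlam]
  have hlz : ‖M.lam ^ i0 * ζ‖ = 1 := by rw [norm_mul, norm_pow, M.lam_norm, one_pow, hzn, one_mul]
  have h4 := M.g_real hWra hW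
  calc ‖M.lam ^ i0 * ζ * M.g Wi - 1‖
      = ‖M.lam ^ i0 * ζ * (M.g Wi - M.g ‖W‖) + M.lam ^ i0 * ζ * (M.g ‖W‖ - 1) + (M.lam ^ i0 * ζ - 1)‖ := by
        congr 1; ring
    _ ≤ ‖M.lam ^ i0 * ζ * (M.g Wi - M.g ‖W‖)‖ + ‖M.lam ^ i0 * ζ * (M.g ‖W‖ - 1)‖ + ‖M.lam ^ i0 * ζ - 1‖ :=
        norm_add₃_le
    _ = ‖M.g Wi - M.g ‖W‖‖ + ‖M.g ‖W‖ - 1‖ + ‖M.lam ^ i0 * ζ - 1‖ := by
        rw [norm_mul (M.lam ^ i0 * ζ) (M.g Wi - M.g ‖W‖), norm_mul (M.lam ^ i0 * ζ) (M.g ‖W‖ - 1), hlz,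
          one_mul, one_mul]
    _ < δ := by
        have := hi0z
        rw [hη] at hgd
        linarith

end Mod

end Pool.Agent.Y297
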