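import Mathlib

/-!
# Rotation numbers of topologically linearisable periodic points form a countable set
-/

set_option autoImplicit false
set_option linter.all false

open Set Metric Filter Topology MeasureTheory

noncomputable section

namespace Pool.Agent.Y297

/-- `g ^ q` is topologically a rotation by `θ` near `z` -/
def RotAt (g : ℂ → ℂ) (q : ℕ) (z : ℂ) (θ : ℝ) : Prop :=
  ∃ η : ℂ → ℂ, ContinuousOn η (closedBall 0 1) ∧ InjOn η (closedBall 0 1) ∧
    (∀ r > 0, η '' (ball 0 r ∩ closedBall 0 1) ∈ 𝓝 (η 0)) ∧ η 0 = z ∧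
    ∀ u ∈ closedBall (0 : ℂ) 1, g^[q] (η u) = η (Complex.exp ((2 * Real.pi * θ : ℝ) * Complex.I) * u)

theorem exp_ne_one_of_irr {θ : ℝ} (h : Irrational θ) : Complex.exp ((2 * Real.pi * θ : ℝ) * Complex.I) ≠ 1 := by
  intro h1
  rw [Complex.exp_eq_one_iff] at h1
  obtain ⟨n, hn⟩ := h1
  have h2 : (θ : ℂ) = n := by
    have hpi : (Real.pi : ℂ) ≠ 0 := by exact_mod_cast Real.pi_ne_zero
    have hI := Complex.I_ne_zero
    push_cast at hn
    field_simp at hn
    exact hn
  have h3 : θ = n := by exact_mod_cast h2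
  exact h ⟨n, by rw [h3]; simp⟩

theorem rot_iso {g : ℂ → ℂ} {q : ℕ} {z : ℂ} {θ : ℝ} (hθ : Irrational θ) (h : RotAt g q z θ) :
    g^[q] z = z ∧ ∃ N ∈ 𝓝 z, ∀ z' ∈ N, g^[q] z' = z' → z' = z := by
  obtain ⟨η, hc, hi, ho, hz, hr⟩ := h
  have h0 : (0 : ℂ) ∈ closedBall (0 : ℂ) 1 := by simp
  constructor
  · have := hr 0 h0
    rw [mul_zero, hz] at this
    exact this
  · refine ⟨η '' (ball 0 1 ∩ closedBall 0 1), by rw [← hz]; exact ho 1 one_pos, ?_⟩
    rintro _ ⟨u, ⟨-, hu⟩, rfl⟩ hfix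
    rw [hr u hu] at hfix
    have hu' : Complex.exp ((2 * Real.pi * θ : ℝ) * Complex.I) * u ∈ closedBall (0 : ℂ) 1 := by
      rw [mem_closedBall_zero_iff] at hu ⊢
      rw [norm_mul, Complex.norm_exp_ofReal_mul_I, one_mul]; exact hu
    have h1 := hi hu' hu hfix
    have h2 : (Complex.exp ((2 * Real.pi * θ : ℝ) * Complex.I) - 1) * u = 0 := by linear_combination h1
    rcases mul_eq_zero.1 h2 with h3 | h3
    · exact absurd (sub_eq_zero.1 h3) (exp_ne_one_of_irr hθ)
    · rw [h3, hz]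

theorem iso_count (S : Set ℂ) : {z | z ∈ S ∧ ∃ N ∈ 𝓝 z, ∀ z' ∈ N, z' ∈ S → z' = z}.Countable := by
  set T := {z | z ∈ S ∧ ∃ N ∈ 𝓝 z, ∀ z' ∈ N, z' ∈ S → z' = z} with hT
  have hd : DiscreteTopology T := by
    rw [discreteTopology_iff_isOpen_singleton]
    rintro ⟨z, hz⟩
    obtain ⟨hzS, N, hN, hN2⟩ := hz
    rw [isOpen_iff_mem_nhds]
    intro y hy
    rw [mem_singleton_iff] at hy
    rw [hy, nhds_subtype_eq_comap]
    refine ⟨N, hN, ?_⟩
    intro x hx
    rw [mem_preimage] at hx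
    rw [mem_singleton_iff]
    apply Subtype.ext
    exact hN2 x hx x.2.1
  have : Countable T := TopologicalSpace.separableSpace_iff_countable.1 inferInstance
  exact this

theorem rot_rel {g : ℂ → ℂ} {q : ℕ} {z : ℂ} {θ₀ θ : ℝ} (h0 : RotAt g q z θ₀) (h : RotAt g q z θ) :
    ∃ m : ℤ, Complex.exp ((2 * Real.pi * θ₀ : ℝ) * Complex.I) =
      Complex.exp ((2 * Real.pi * (m * θ) : ℝ) * Complex.I) := by
  obtain ⟨η0, hc0, hi0, ho0, hz0, hr0⟩ := h0
  obtain ⟨η, hc, hi, ho, hz, hr⟩ := h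
  haveI : Fact ((0:ℝ) < 1) := ⟨one_pos⟩
  -- a small radius
  obtain ⟨r, hr0', hr1, hrs⟩ : ∃ r : ℝ, 0 < r ∧ r ≤ 1 ∧ ∀ u : ℂ, ‖u‖ ≤ r →
      ∃ v ∈ closedBall (0 : ℂ) 1, η0 v = η u := by
    have h1 : η0 '' (ball 0 1 ∩ closedBall 0 1) ∈ 𝓝 (η 0) := by
      rw [hz, ← hz0]; exact ho0 1 one_pos
    have h2 := hc.continuousWithinAt (show (0 : ℂ) ∈ closedBall (0 : ℂ) 1 by simp) h1
    rw [mem_map, mem_nhdsWithin_iff] at h2
    obtain ⟨ε, hε, h3⟩ := h2
    refine ⟨min (ε / 2) 1, by positivity, min_le_right _ _, ?_⟩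
    intro u hu
    have h4 : u ∈ ball (0 : ℂ) ε ∩ closedBall 0 1 := by
      constructor
      · rw [mem_ball_zero_iff]
        have := hu.trans (min_le_left _ _)
        linarith
      · rw [mem_closedBall_zero_iff]
        exact hu.trans (min_le_right _ _)
    obtain ⟨v, ⟨-, hv⟩, hv2⟩ := h3 h4
    exact ⟨v, hv, hv2⟩
  -- the circle valued parameter
  set cc : AddCircle (1:ℝ) → ℂ := fun x => (AddCircle.toCircle x : ℂ) with hcc
  have hccn : ∀ x, ‖cc x‖ = 1 := fun x => Circle.norm_coe _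
  have hccc : Continuous cc := continuous_subtype_val.comp AddCircle.continuous_toCircle
  have hex : ∀ x : AddCircle (1:ℝ), ∃ v : closedBall (0 : ℂ) 1, η0 v = η (r * cc x) := by
    intro x
    obtain ⟨v, hv, hv2⟩ := hrs (r * cc x) (by
      rw [norm_mul, hccn, mul_one, Complex.norm_real, Real.norm_of_nonneg hr0'.le])
    exact ⟨⟨v, hv⟩, hv2⟩
  choose Φ hΦ using hex
  have hmem : ∀ x, (r * cc x : ℂ) ∈ closedBall (0 : ℂ) 1 := by
    intro x
    rw [mem_closedBall_zero_iff, norm_mul, hccn, mul_one, Complex.norm_real, Real.norm_of_nonneg hr0'.le]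
    exact hr1
  have hemb : IsEmbedding (fun v : closedBall (0 : ℂ) 1 => η0 v) := by
    haveI : CompactSpace (closedBall (0 : ℂ) 1) := isCompact_iff_compactSpace.1 (isCompact_closedBall _ _)
    have h1 : Continuous (fun v : closedBall (0 : ℂ) 1 => η0 v) := continuousOn_iff_continuous_restrict.1 hc0
    have h2 : Function.Injective (fun v : closedBall (0 : ℂ) 1 => η0 v) := fun a b hab =>
      Subtype.ext (hi0 a.2 b.2 hab)
    exact (h1.isClosedEmbedding h2).isEmbedding
  have hΦc : Continuous Φ := by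
    rw [hemb.continuous_iff]
    have h1 : (fun v : closedBall (0 : ℂ) 1 => η0 v) ∘ Φ = fun x => η (r * cc x) := by
      funext x; exact hΦ x
    rw [h1]
    exact hc.comp_continuous (continuous_const.mul hccc) hmem
  set f : C(AddCircle (1:ℝ), ℂ) := ⟨fun x => (Φ x : ℂ), continuous_subtype_val.comp hΦc⟩ with hf
  have hf0 : ∀ x, f x ≠ 0 := by
    intro x hx
    have h1 : (Φ x : ℂ) = 0 := hx
    have h2 := hΦ x
    rw [h1, hz0, ← hz] at h2
    have h3 := hi (show (0 : ℂ) ∈ closedBall (0 : ℂ) 1 by simp) (hmem x) h2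
    have h4 : ‖(r * cc x : ℂ)‖ = r := by
      rw [norm_mul, hccn, mul_one, Complex.norm_real, Real.norm_of_nonneg hr0'.le]
    rw [← h3, norm_zero] at h4
    linarith
  set e0 : ℂ := Complex.exp ((2 * Real.pi * θ₀ : ℝ) * Complex.I) with he0
  have he0n : ‖e0‖ = 1 := Complex.norm_exp_ofReal_mul_I _
  have heq : ∀ x, f (x + (θ : AddCircle (1:ℝ))) = e0 * f x := by
    intro x
    have h1 : cc (x + (θ : AddCircle (1:ℝ))) = Complex.exp ((2 * Real.pi * θ : ℝ) * Complex.I) * cc x := by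
      rw [hcc]
      simp only
      rw [AddCircle.toCircle_add, AddCircle.toCircle_apply_mk, Circle.coe_mul, Circle.coe_exp, mul_comm]
      congr 2
      push_cast
      ring
    have h2 : e0 * f x ∈ closedBall (0 : ℂ) 1 := by
      have := (Φ x).2
      rw [mem_closedBall_zero_iff] at this ⊢
      rw [norm_mul, he0n, one_mul]; exact this
    apply hi0 (Φ _).2 h2
    show η0 (Φ (x + (θ : AddCircle (1:ℝ)))) = η0 (e0 * Φ x)
    rw [hΦ, h1, ← hr0 _ (Φ x).2, hΦ, hr _ (hmem x)]
    congr 1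
    ring
  by_contra hne
  push Not at hne
  have hco : ∀ m : ℤ, fourierCoeff f m = 0 := by
    intro m
    have h1 : e0 * fourierCoeff f m = Complex.exp ((2 * Real.pi * (m * θ) : ℝ) * Complex.I) * fourierCoeff f m := by
      have h2 : fourierCoeff f m = ∫ t, fourier (-m) t • f t ∂AddCircle.haarAddCircle := rfl
      have h3 : e0 * fourierCoeff f m = ∫ t, fourier (-m) t • f (t + (θ : AddCircle (1:ℝ))) ∂AddCircle.haarAddCircle := by
        rw [h2, ← integral_const_mul]
        congr 1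
        funext t
        rw [heq]
        simp only [smul_eq_mul]
        ring
      have h4 : ∫ t, fourier (-m) t • f (t + (θ : AddCircle (1:ℝ))) ∂AddCircle.haarAddCircle =
          ∫ t, fourier (-m) (t - (θ : AddCircle (1:ℝ))) • f t ∂AddCircle.haarAddCircle := by
        rw [← integral_add_right_eq_self (fun t => fourier (-m) (t - (θ : AddCircle (1:ℝ))) • f t)
          (θ : AddCircle (1:ℝ))]
        congr 1
        funext t
        rw [add_sub_cancel_right]
      rw [h3, h4, h2, ← integral_const_mul]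
      congr 1
      funext t
      have h5 : (fourier (-m) (t - (θ : AddCircle (1:ℝ))) : ℂ) =
          Complex.exp ((2 * Real.pi * (m * θ) : ℝ) * Complex.I) * fourier (-m) t := by
        rw [fourier_apply, fourier_apply, smul_sub, sub_eq_add_neg, AddCircle.toCircle_add, Circle.coe_mul, mul_comm]
        congr 1
        have h6 : -((-m) • (θ : AddCircle (1:ℝ))) = ((m * θ : ℝ) : AddCircle (1:ℝ)) := by
          rw [neg_smul, neg_neg]
          rw [← zsmul_eq_mul]
          rfl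
        rw [h6, AddCircle.toCircle_apply_mk, Circle.coe_exp]
        congr 1
        push_cast
        ring
      rw [h5]
      simp only [smul_eq_mul]
      ring
    have h7 : (e0 - Complex.exp ((2 * Real.pi * (m * θ) : ℝ) * Complex.I)) * fourierCoeff f m = 0 := by
      linear_combination h1
    rcases mul_eq_zero.1 h7 with h8 | h8
    · exact absurd (sub_eq_zero.1 h8) (hne m)
    · exact h8
  have hsum : Summable (fourierCoeff f) := by
    have : (fourierCoeff f : ℤ → ℂ) = fun _ => 0 := by funext m; exact hco m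
    rw [this]; exact summable_zero
  have hs := hasSum_fourier_series_of_summable hsum
  have hz' : f = 0 := by
    have h9 : (fun i => fourierCoeff f i • fourier i) = fun _ : ℤ => (0 : C(AddCircle (1:ℝ), ℂ)) := by
      funext i; rw [hco i, zero_smul]
    rw [h9] at hs
    exact hs.unique hasSum_zero
  exact hf0 0 (by rw [hz']; rfl)

theorem rot_count (g : ℂ → ℂ) : {θ : ℝ | Irrational θ ∧ ∃ q z, RotAt g q z θ}.Countable := by
  have h1 : {θ : ℝ | Irrational θ ∧ ∃ q z, RotAt g q z θ} ⊆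
      ⋃ q : ℕ, ⋃ z ∈ {z | z ∈ {z | g^[q] z = z} ∧ ∃ N ∈ 𝓝 z, ∀ z' ∈ N, z' ∈ {z | g^[q] z = z} → z' = z},
        {θ : ℝ | Irrational θ ∧ RotAt g q z θ} := by
    rintro θ ⟨hθ, q, z, h⟩
    obtain ⟨h2, N, hN, h3⟩ := rot_iso hθ h
    rw [mem_iUnion]
    refine ⟨q, ?_⟩
    rw [mem_iUnion₂]
    exact ⟨z, ⟨h2, N, hN, h3⟩, hθ, h⟩
  refine Countable.mono h1 ?_
  apply countable_iUnion
  intro q
  apply (iso_count _).biUnion
  intro z _
  rcases Set.eq_empty_or_nonempty {θ : ℝ | Irrational θ ∧ RotAt g q z θ} with he | ⟨θ₀, hθ₀, h0⟩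
  · rw [he]; exact countable_empty
  · have h2 : {θ : ℝ | Irrational θ ∧ RotAt g q z θ} ⊆ range (fun x : ℤ × ℤ => (θ₀ - x.2) / x.1) := by
      rintro θ ⟨hθ, h⟩
      obtain ⟨m, hm⟩ := rot_rel h0 h
      rw [Complex.exp_eq_exp_iff_exists_int] at hm
      obtain ⟨k, hk⟩ := hm
      have h3 : θ₀ = m * θ + k := by
        have hpi : (Real.pi : ℂ) ≠ 0 := by exact_mod_cast Real.pi_ne_zero
        have hI := Complex.I_ne_zero
        have h4 : (2 * Real.pi * Complex.I) * (θ₀ : ℂ) = (2 * Real.pi * Complex.I) * (m * θ + k) := by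
          push_cast at hk
          linear_combination hk
        have h5 : (2 * Real.pi * Complex.I : ℂ) ≠ 0 := by
          apply mul_ne_zero (mul_ne_zero two_ne_zero hpi) hI
        have h6 := mul_left_cancel₀ h5 h4
        exact_mod_cast h6
      have hm0 : (m : ℝ) ≠ 0 := by
        intro h4
        rw [h4, zero_mul, zero_add] at h3
        exact hθ₀ ⟨k, by rw [h3]; simp⟩
      refine ⟨(m, k), ?_⟩
      simp only
      rw [h3]
      field_simp
      ring
    exact (countable_range _).mono h2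

end Pool.Agent.Y297
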