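import Pool.Agent.Y297.Germ
import Pool.Agent.Y297.Top

/-!
# The family of germs
-/

set_option autoImplicit false
set_option linter.all false

open Set Metric Filter Topology
open scoped ContDiff ComplexConjugate Manifold

noncomputable section

namespace Pool.Agent.Y297

/-- the conjugated map -/
def fb (d : ℕ → Stg) (b : ℕ → ℝ) (h : ℂ ≃ₜ ℂ) (y : ℂ) : ℂ := h (FF d b (h.symm y))

theorem fb_iter (d : ℕ → Stg) (b : ℕ → ℝ) (h : ℂ ≃ₜ ℂ) (i : ℕ) (y : ℂ) :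
    (fb d b h)^[i] y = h ((FF d b)^[i] (h.symm y)) := by
  induction i with
  | zero => simp
  | succ i ih =>
    rw [Function.iterate_succ_apply', Function.iterate_succ_apply', ih, fb, h.symm_apply_apply]

/-- the rotation number of the small cycle -/
def th (d : ℕ → Stg) (n : ℕ) (t : ℝ) : ℝ := -((d n).q * (1 + t) / (d n).Q)

namespace SeqD

variable {d : ℕ → Stg} (S : SeqD d) {b : ℕ → ℝ} (hb : ∀ n, 0 ≤ b n ∧ b n ≤ (d n).kap)

include S hb

theorem package {α : ℝ} (hα : Tendsto (fun n => ((d n).p : ℝ) / (d n).q) atTop (𝓝 α)) :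
    ∃ h : ℂ ≃ₜ ℂ, h 0 = 0 ∧ (∀ x : ℂ, ‖x‖ < 1 / 2 → DifferentiableAt ℂ (fb d b h) (h x)) ∧
      HasDerivAt (fb d b h) (Complex.exp (2 * Real.pi * Complex.I * α)) 0 := by
  have hcore : ∀ n, (0 : ℂ) ∈ Es (d n).ψ := fun n => (S.inj n).zero_mem
  exact germ (S.be_wn hb) (S.FF_zero hb) (S.FF_cont hb) (fun x hx => S.FF_belt hb hx)
    (S.FF_deriv_zero hb hα) (S.be_core hb hcore)

theorem disc {h : ℂ ≃ₜ ℂ} (h0 : h 0 = 0) {O : Set ℂ} (hO : O ∈ 𝓝 (0 : ℂ)) :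
    ∃ n, ∃ H : ℂ → ℂ, ContinuousOn H (closedBall 0 1) ∧ InjOn H (closedBall 0 1) ∧
      (∀ r > 0, H '' (ball 0 r ∩ closedBall 0 1) ∈ 𝓝 (H 0)) ∧ H 0 ≠ 0 ∧
      (∀ u ∈ closedBall (0 : ℂ) 1, ∀ i, (fb d b h)^[i] (H u) ∈ O) ∧
      ∀ u ∈ closedBall (0 : ℂ) 1, (fb d b h)^[(d n).q] (H u) =
        H (Complex.exp ((2 * Real.pi * th d n (b n) : ℝ) * Complex.I) * u) := by
  have h1 : h ⁻¹' O ∈ 𝓝 (0 : ℂ) := by
    apply h.continuous.continuousAt
    rw [h0]; exact hO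
  obtain ⟨ρ, hρ, hρ2⟩ := Metric.mem_nhds_iff.1 h1
  obtain ⟨n, hn⟩ := exists_nat_one_div_lt hρ
  obtain ⟨η, hc, hi, ho, hne, hm, hr, hs⟩ := (S.good n).cyc (b n) (hb n).1 (hb n).2
  have hψ := S.inj n
  refine ⟨n, fun u => h ((d n).ψ (η u)), ?_, ?_, ?_, ?_, ?_, ?_⟩
  · apply h.continuous.comp_continuousOn
    exact hψ.diff.continuousOn.comp hc (fun u hu => (hm u hu).1)
  · intro u hu v hv he
    have h2 := hψ.inj (hm u hu).1 (hm v hv).1 (h.injective he)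
    exact hi hu hv h2
  · intro r hr
    have h2 := ho r hr
    have h3 : (d n).ψ '' (η '' (ball 0 r ∩ closedBall 0 1)) ∈ 𝓝 ((d n).ψ (η 0)) := by
      rw [← hψ.map_nhds (hm 0 (by simp)).1]
      exact image_mem_map h2
    have h4 : h '' ((d n).ψ '' (η '' (ball 0 r ∩ closedBall 0 1))) ∈ 𝓝 (h ((d n).ψ (η 0))) := by
      rw [← h.map_nhds_eq]
      exact image_mem_map h3
    rw [image_image, image_image] at h4
    exact h4
  · intro h2
    have h3 : (d n).ψ (η 0) = 0 := h.injective (h2.trans h0.symm)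
    have h4 : η 0 = 0 := hψ.inj (hm 0 (by simp)).1 (by simp) (by rw [h3, hψ.zero])
    exact hne h4
  · intro u hu i
    rw [fb_iter, h.symm_apply_apply, (S.FF_iter hb (hm u hu).1 (hm u hu).2 i).1]
    apply hρ2
    rw [mem_ball_zero_iff]
    exact (hs u hu i).trans_lt hn
  · intro u hu
    rw [fb_iter, h.symm_apply_apply, (S.FF_iter hb (hm u hu).1 (hm u hu).2 _).1, hr u hu]
    have : -((2 * Real.pi * ((d n).q * (1 + b n) / (d n).Q) : ℝ) * Complex.I) =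
        ((2 * Real.pi * th d n (b n) : ℝ) * Complex.I : ℂ) := by
      rw [th]; push_cast; ring
    rw [this]

theorem not_lin {h : ℂ ≃ₜ ℂ} (h0 : h 0 = 0) {α : ℝ} (hirr : Irrational α)
    (hd : HasDerivAt (fb d b h) (Complex.exp (2 * Real.pi * Complex.I * α)) 0) :
    ¬ ∃ ψ : ℂ → ℂ, AnalyticAt ℂ ψ 0 ∧ ψ 0 = 0 ∧ deriv ψ 0 ≠ 0 ∧
        ∀ᶠ z in nhds (0 : ℂ), ψ (fb d b h z) = deriv (fb d b h) 0 * ψ z := by
  rintro ⟨ψ, hψ, hψ0, hψ', hev⟩
  have h1 : ∀ᶠ z in 𝓝[≠] (0 : ℂ), ψ z ≠ 0 := by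
    have := (hψ.differentiableAt.hasDerivAt).eventually_ne (c := 0) hψ'
    exact this
  rw [eventually_nhdsWithin_iff] at h1
  obtain ⟨n, H, -, -, -, hH0, hO, hrot⟩ := S.disc hb h0 (hev.and h1)
  have hz0 : (0 : ℂ) ∈ closedBall (0 : ℂ) 1 := by simp
  set lam := Complex.exp (2 * Real.pi * Complex.I * α) with hlam
  have hit : ∀ i, ψ ((fb d b h)^[i] (H 0)) = lam ^ i * ψ (H 0) := by
    intro i
    induction i with
    | zero => simp
    | succ i ih =>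
      rw [Function.iterate_succ_apply', (hO 0 hz0 i).1, hd.deriv, ih, pow_succ]
      ring
  have h2 := hit (d n).q
  rw [hrot 0 hz0, mul_zero] at h2
  have h3 : ψ (H 0) ≠ 0 := (hO 0 hz0 0).2 hH0
  have h4 : lam ^ (d n).q = 1 := by
    have : (lam ^ (d n).q - 1) * ψ (H 0) = 0 := by linear_combination -h2
    rcases mul_eq_zero.1 this with h5 | h5
    · exact sub_eq_zero.1 h5
    · exact absurd h5 h3
  have hq := S.qpos n
  have h5 : Irrational ((d n).q * α) := by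
    have := hirr.natCast_mul hq.ne'
    exact this
  apply exp_ne_one_of_irr h5
  rw [← h4, hlam, ← Complex.exp_nat_mul]
  congr 1
  push_cast
  ring

end SeqD

/-- transport of a rotation disc by a local conjugacy -/
theorem rot_transport {f g : ℂ → ℂ} {V W : Set ℂ} (hV : V ∈ 𝓝 (0 : ℂ)) (hW : W ∈ 𝓝 (0 : ℂ)) (e : V ≃ₜ W)
    (he0 : ∀ x : V, (x : ℂ) = 0 → ((e x : W) : ℂ) = 0) {ε : ℝ} (hε : 0 < ε)
    (hc : ∀ x y : V, ‖(x : ℂ)‖ < ε → (y : ℂ) = f (x : ℂ) → ((e y : W) : ℂ) = g ((e x : W) : ℂ)) :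
    ∃ O ∈ 𝓝 (0 : ℂ), ∀ (H : ℂ → ℂ) (q : ℕ) (θ : ℝ), ContinuousOn H (closedBall 0 1) → InjOn H (closedBall 0 1) →
      (∀ r > 0, H '' (ball 0 r ∩ closedBall 0 1) ∈ 𝓝 (H 0)) →
      (∀ u ∈ closedBall (0 : ℂ) 1, ∀ i, f^[i] (H u) ∈ O) →
      (∀ u ∈ closedBall (0 : ℂ) 1, f^[q] (H u) = H (Complex.exp ((2 * Real.pi * θ : ℝ) * Complex.I) * u)) →
      ∃ z, RotAt g q z θ := by
  have h0V : (0 : ℂ) ∈ V := mem_of_mem_nhds hV
  have h1 : {x : V | ((e x : W) : ℂ) ∈ interior W} ∈ 𝓝 (⟨0, h0V⟩ : V) := by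
    have hcont : Continuous (fun x : V => ((e x : W) : ℂ)) := continuous_subtype_val.comp e.continuous
    apply hcont.continuousAt
    have : ((e ⟨0, h0V⟩ : W) : ℂ) = 0 := he0 ⟨0, h0V⟩ rfl
    show interior W ∈ 𝓝 ((e ⟨0, h0V⟩ : W) : ℂ)
    rw [this]
    exact interior_mem_nhds.2 hW
  rw [nhds_subtype_eq_comap, mem_comap] at h1
  obtain ⟨O2, hO2, hO2'⟩ := h1
  refine ⟨V ∩ O2 ∩ ball 0 ε, inter_mem (inter_mem hV hO2) (ball_mem_nhds _ hε), ?_⟩
  intro H q θ hHc hHi hHo hO hrot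
  have hz0 : (0 : ℂ) ∈ closedBall (0 : ℂ) 1 := by simp
  have hHV : ∀ u ∈ closedBall (0 : ℂ) 1, H u ∈ V := fun u hu => (hO u hu 0).1.1
  classical
  set η : ℂ → ℂ := fun u => if hu : H u ∈ V then ((e ⟨H u, hu⟩ : W) : ℂ) else 0 with hη
  have hηe : ∀ u (hu : u ∈ closedBall (0 : ℂ) 1), η u = ((e ⟨H u, hHV u hu⟩ : W) : ℂ) := by
    intro u hu
    rw [hη]
    simp only
    rw [dif_pos (hHV u hu)]
  refine ⟨η 0, η, ?_, ?_, ?_, rfl, ?_⟩
  · rw [continuousOn_iff_continuous_restrict]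
    have h2 : (closedBall (0 : ℂ) 1).domRestrict η = fun u : closedBall (0 : ℂ) 1 =>
        ((e ⟨H u, hHV u u.2⟩ : W) : ℂ) := by
      funext u
      exact hηe u u.2
    rw [h2]
    apply continuous_subtype_val.comp
    apply e.continuous.comp
    exact (continuousOn_iff_continuous_restrict.1 hHc).subtype_mk _
  · intro u hu v hv huv
    rw [hηe u hu, hηe v hv] at huv
    have h2 := e.injective (Subtype.ext huv)
    have h3 : H u = H v := congrArg Subtype.val h2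
    exact hHi hu hv h3
  · intro r hr
    set A := H '' (ball 0 r ∩ closedBall 0 1) with hA
    have hA1 : A ∈ 𝓝 (H 0) := hHo r hr
    set x0 : V := ⟨H 0, hHV 0 hz0⟩ with hx0
    have h2 : (Subtype.val ⁻¹' A : Set V) ∈ 𝓝 x0 := continuous_subtype_val.continuousAt hA1
    have h3 : e '' (Subtype.val ⁻¹' A : Set V) ∈ 𝓝 (e x0) := by
      rw [← e.map_nhds_eq]
      exact image_mem_map h2
    rw [nhds_subtype_eq_comap, mem_comap] at h3
    obtain ⟨B, hB, hB2⟩ := h3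
    have h4 : W ∈ 𝓝 ((e x0 : W) : ℂ) := by
      have : ((e x0 : W) : ℂ) ∈ interior W := hO2' (hO 0 hz0 0).1.2
      exact mem_interior_iff_mem_nhds.1 this
    rw [hηe 0 hz0]
    filter_upwards [hB, h4] with y hyB hyW
    obtain ⟨x, hxA, hx⟩ := hB2 (show (⟨y, hyW⟩ : W) ∈ Subtype.val ⁻¹' B from hyB)
    obtain ⟨u, hu, hux⟩ := hxA
    refine ⟨u, hu, ?_⟩
    rw [hηe u hu.2]
    have h5 : (⟨H u, hHV u hu.2⟩ : V) = x := Subtype.ext hux
    rw [h5, hx]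
  · intro u hu
    have hit : ∀ i, g^[i] (η u) = ((e ⟨f^[i] (H u), (hO u hu i).1.1⟩ : W) : ℂ) := by
      intro i
      induction i with
      | zero => exact hηe u hu
      | succ i ih =>
        rw [Function.iterate_succ_apply', ih]
        symm
        apply hc ⟨f^[i] (H u), (hO u hu i).1.1⟩
        · exact mem_ball_zero_iff.1 (hO u hu i).2
        · exact Function.iterate_succ_apply' _ _ _
    rw [hit q]
    have hu' : Complex.exp ((2 * Real.pi * θ : ℝ) * Complex.I) * u ∈ closedBall (0 : ℂ) 1 := by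
      rw [mem_closedBall_zero_iff] at hu ⊢
      rw [norm_mul, Complex.norm_exp_ofReal_mul_I, one_mul]; exact hu
    rw [hηe _ hu']
    congr 3
    exact hrot u hu

end Pool.Agent.Y297
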