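import Pool.Agent.Y297.Seq2

/-!
# Conjugating to a holomorphic germ
-/

set_option autoImplicit false
set_option linter.all false

open Set Metric Filter Topology
open scoped ContDiff ComplexConjugate Manifold

noncomputable section

namespace Pool.Agent.Y297

theorem homeo_of {H : ℂ → ℂ} (hH : ∀ x y, ‖(H x - x) - (H y - y)‖ ≤ 1 / 2 * ‖x - y‖) :
    ∃ h : ℂ ≃ₜ ℂ, ∀ x, h x = H x := by
  have h1 : ApproximatesLinearOn H ((ContinuousLinearEquiv.refl ℝ ℂ : ℂ ≃L[ℝ] ℂ) : ℂ →L[ℝ] ℂ) univ (1 / 2) := by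
    intro x _ y _
    have := hH x y
    have e : H x - H y - ((ContinuousLinearEquiv.refl ℝ ℂ : ℂ ≃L[ℝ] ℂ) : ℂ →L[ℝ] ℂ) (x - y) =
        (H x - x) - (H y - y) := by
      simp; ring
    rw [e]
    simpa using this
  have h2 : Subsingleton ℂ ∨ (1 / 2 : NNReal) <
      ‖((ContinuousLinearEquiv.refl ℝ ℂ).symm : ℂ →L[ℝ] ℂ)‖₊⁻¹ := by
    right
    have : ((ContinuousLinearEquiv.refl ℝ ℂ).symm : ℂ →L[ℝ] ℂ) = ContinuousLinearMap.id ℝ ℂ := rfl
    rw [this, ContinuousLinearMap.nnnorm_id]
    rw [← NNReal.coe_lt_coe]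
    norm_num
  exact ⟨h1.toHomeomorph H h2, fun x => rfl⟩

theorem germ {F β : ℂ → ℂ} (hW : Wn (1 / 8) β) (F0 : F 0 = 0) (Fc : Continuous F)
    (hb : ∀ x : ℂ, ‖x‖ < 1 / 2 → ∃ a a' : ℂ, HasFDerivAt F (lin a a') x ∧
      β x * (a + β (F x) * conj a') = a' + β (F x) * conj a)
    {lam : ℂ} (h0 : HasDerivAt F lam 0) (hβ0 : β 0 = 0) :
    ∃ h : ℂ ≃ₜ ℂ, h 0 = 0 ∧ (∀ x : ℂ, ‖x‖ < 1 / 2 → DifferentiableAt ℂ (fun y => h (F (h.symm y))) (h x)) ∧
      HasDerivAt (fun y => h (F (h.symm y))) lam 0 := by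
  obtain ⟨H, A, H0, HL, hA, hd⟩ := belt hW
  obtain ⟨h, hh⟩ := homeo_of HL
  have hinv : ∀ y y', ‖h.symm y - h.symm y'‖ ≤ 2 * ‖y - y'‖ := by
    intro y y'
    have h1 := HL (h.symm y) (h.symm y')
    rw [← hh, ← hh, h.apply_symm_apply, h.apply_symm_apply] at h1
    have e : (y - h.symm y) - (y' - h.symm y') = (y - y') - (h.symm y - h.symm y') := by ring
    rw [e] at h1
    have h2 := norm_sub_norm_le (h.symm y - h.symm y') (y - y')
    rw [norm_sub_rev] at h1
    linarith
  have hdL : ∀ x, HasFDerivAt H (lin (A x) (A x * β x)) x := by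
    intro x
    obtain ⟨L, hL1, hL2⟩ := hd x
    have : L = lin (A x) (A x * β x) := by
      ext v
      rw [hL2, lin_apply]; ring
    rwa [this] at hL1
  have hmain : ∀ x a a', HasFDerivAt F (lin a a') x → β x * (a + β (F x) * conj a') = a' + β (F x) * conj a →
      HasDerivAt (fun y => h (F (h.symm y))) (A (F x) * (a + β (F x) * conj a') / A x) (h x) := by
    intro x a a' h1 h2
    set C := A (F x) * (a + β (F x) * conj a') / A x with hC
    have hAx := hA x
    have e1 : HasFDerivAt (fun x' => H (F x') - C * H x')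
        ((lin (A (F x)) (A (F x) * β (F x))).comp (lin a a') - (lin C 0).comp (lin (A x) (A x * β x))) x := by
      apply HasFDerivAt.sub
      · exact (hdL (F x)).comp x h1
      · have e2 : HasFDerivAt (fun z : ℂ => C * z) (lin C 0) (H x) := by
          have : HasDerivAt (fun z : ℂ => C * z) (C * 1) (H x) := (hasDerivAt_id (H x)).const_mul C
          rw [mul_one] at this
          exact hasFDerivAt_of_deriv this
        exact e2.comp x (hdL x)
    have e3 : (lin (A (F x)) (A (F x) * β (F x))).comp (lin a a') - (lin C 0).comp (lin (A x) (A x * β x)) = 0 := by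
      ext v
      simp only [ContinuousLinearMap.sub_apply, ContinuousLinearMap.comp_apply, lin_apply, zero_mul, add_zero,
        ContinuousLinearMap.zero_apply, map_add, map_mul, Complex.conj_conj]
      rw [hC]
      field_simp
      linear_combination (-(A (F x) * conj v)) * h2
    rw [e3] at e1
    rw [hasFDerivAt_iff_isLittleO] at e1
    simp only [ContinuousLinearMap.zero_apply, sub_zero] at e1
    rw [hasDerivAt_iff_isLittleO]
    have e4 : Tendsto h.symm (𝓝 (h x)) (𝓝 x) := by
      have := h.symm.continuous.tendsto (h x)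
      rwa [h.symm_apply_apply] at this
    have e5 := e1.comp_tendsto e4
    have e6 : ((fun x' => x' - x) ∘ h.symm) =O[𝓝 (h x)] fun y => y - h x := by
      apply Asymptotics.IsBigO.of_bound 2
      refine Eventually.of_forall fun y => ?_
      have := hinv y (h x)
      rw [h.symm_apply_apply] at this
      exact this
    have e7 := e5.trans_isBigO e6
    refine e7.congr_left fun y => ?_
    simp only [Function.comp, smul_eq_mul]
    rw [h.symm_apply_apply, hh, hh, hh]
    have : H (h.symm y) = y := by rw [← hh, h.apply_symm_apply]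
    rw [this]
    ring
  refine ⟨h, by rw [hh, H0], ?_, ?_⟩
  · intro x hx
    obtain ⟨a, a', h1, h2⟩ := hb x hx
    exact (hmain x a a' h1 h2).differentiableAt
  · obtain ⟨a, a', h1, h2⟩ := hb 0 (by simp)
    have h3 := hmain 0 a a' h1 h2
    have h4 : lin a a' = lin lam 0 := h1.unique (hasFDerivAt_of_deriv h0)
    obtain ⟨h5, h6⟩ := lin_ab h4
    have h7 : h 0 = 0 := by rw [hh, H0]
    have h8 : A (F 0) * (a + β (F 0) * conj a') / A 0 = lam := by
      rw [F0, hβ0, h5]
      have := hA 0
      field_simp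
      ring
    rwa [h7, h8] at h3

end Pool.Agent.Y297
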