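import Pool.Agent.Y297.Exit

/-!
# Injective holomorphic maps of the unit disc; smooth separating functions
-/

set_option autoImplicit false
set_option linter.all false

open Set Metric Filter Topology
open scoped ContDiff ComplexConjugate Manifold

noncomputable section

namespace Pool.Agent.Y297

theorem urys {s t : Set ℂ} (hs : IsClosed s) (ht : IsClosed t) (hd : Disjoint s t) :
    ∃ f : ℂ → ℝ, ContDiff ℝ ∞ f ∧ (∀ x ∈ s, f x = 0) ∧ (∀ x ∈ t, f x = 1) ∧ ∀ x, 0 ≤ f x ∧ f x ≤ 1 := by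
  obtain ⟨f, h1, h2, h3, h4⟩ := exists_contMDiff_zero_iff_one_iff_of_isClosed (n := ⊤) 𝓘(ℝ, ℂ) hs ht hd
  refine ⟨f, contMDiff_iff_contDiff.1 h1, fun x hx => (h3 x).1 hx, fun x hx => (h4 x).1 hx, fun x => ?_⟩
  have := h2 (mem_range_self x)
  exact ⟨this.1, this.2⟩

/-- injective holomorphic self-maps of the unit disc fixing zero -/
structure Inj (ψ : ℂ → ℂ) : Prop where
  diff : DifferentiableOn ℂ ψ (ball 0 1)
  inj : InjOn ψ (ball 0 1)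
  der : ∀ w ∈ ball (0 : ℂ) 1, deriv ψ w ≠ 0
  maps : ∀ w ∈ ball (0 : ℂ) 1, ψ w ∈ ball (0 : ℂ) 1
  zero : ψ 0 = 0

/-- the inverse -/
def ph (ψ : ℂ → ℂ) : ℂ → ℂ := Function.invFunOn ψ (ball 0 1)

/-- the image -/
def Es (ψ : ℂ → ℂ) : Set ℂ := ψ '' ball 0 1

theorem ph_psi {ψ : ℂ → ℂ} (h : Inj ψ) {w : ℂ} (hw : w ∈ ball (0 : ℂ) 1) : ph ψ (ψ w) = w :=
  h.inj.leftInvOn_invFunOn hw

theorem ph_mem {ψ : ℂ → ℂ} {z : ℂ} (hz : z ∈ Es ψ) : ph ψ z ∈ ball (0 : ℂ) 1 :=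
  Function.invFunOn_mem hz

theorem psi_ph {ψ : ℂ → ℂ} {z : ℂ} (hz : z ∈ Es ψ) : ψ (ph ψ z) = z :=
  Function.invFunOn_eq hz

theorem mem_Es {ψ : ℂ → ℂ} {w : ℂ} (hw : w ∈ ball (0 : ℂ) 1) : ψ w ∈ Es ψ := ⟨w, hw, rfl⟩

namespace Inj

variable {ψ : ℂ → ℂ} (h : Inj ψ)

include h

theorem analytic {w : ℂ} (hw : w ∈ ball (0 : ℂ) 1) : AnalyticAt ℂ ψ w :=
  h.diff.analyticAt (isOpen_ball.mem_nhds hw)

theorem map_nhds {w : ℂ} (hw : w ∈ ball (0 : ℂ) 1) : map ψ (𝓝 w) = 𝓝 (ψ w) :=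
  (h.analytic hw).hasStrictDerivAt.map_nhds_eq (h.der w hw)

theorem open_image {s : Set ℂ} (hs : IsOpen s) (hs1 : s ⊆ ball 0 1) : IsOpen (ψ '' s) := by
  rw [isOpen_iff_mem_nhds]
  rintro _ ⟨w, hw, rfl⟩
  rw [← h.map_nhds (hs1 hw)]
  exact image_mem_map (hs.mem_nhds hw)

theorem Es_open : IsOpen (Es ψ) := h.open_image isOpen_ball subset_rfl

theorem ph_cont {w : ℂ} (hw : w ∈ ball (0 : ℂ) 1) : Tendsto (ph ψ) (𝓝 (ψ w)) (𝓝 w) := by
  rw [← h.map_nhds hw, tendsto_map'_iff]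
  apply tendsto_id.congr'
  filter_upwards [isOpen_ball.mem_nhds hw] with z hz
  exact (ph_psi h hz).symm

theorem ph_deriv {w : ℂ} (hw : w ∈ ball (0 : ℂ) 1) : HasDerivAt (ph ψ) (deriv ψ w)⁻¹ (ψ w) := by
  have h1 : ContinuousAt (ph ψ) (ψ w) := by
    unfold ContinuousAt
    rw [ph_psi h hw]
    exact h.ph_cont hw
  apply HasDerivAt.of_local_left_inverse h1 _ (h.der w hw)
  · filter_upwards [h.Es_open.mem_nhds (mem_Es hw)] with z hz
    exact psi_ph hz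
  · rw [ph_psi h hw]
    exact (h.analytic hw).differentiableAt.hasDerivAt

theorem ph_diff : DifferentiableOn ℂ (ph ψ) (Es ψ) := by
  rintro _ ⟨w, hw, rfl⟩
  exact (h.ph_deriv hw).differentiableAt.differentiableWithinAt

theorem ph_cda {n : WithTop ℕ∞} {z : ℂ} (hz : z ∈ Es ψ) : ContDiffAt ℝ n (ph ψ) z :=
  ((h.ph_diff.analyticAt (h.Es_open.mem_nhds hz)).contDiffAt (n := n)).restrict_scalars ℝ

theorem psi_cda {n : WithTop ℕ∞} {w : ℂ} (hw : w ∈ ball (0 : ℂ) 1) : ContDiffAt ℝ n ψ w :=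
  ((h.analytic hw).contDiffAt (n := n)).restrict_scalars ℝ

theorem dpsi_cda {n : WithTop ℕ∞} {w : ℂ} (hw : w ∈ ball (0 : ℂ) 1) : ContDiffAt ℝ n (deriv ψ) w :=
  (((h.analytic hw).deriv).contDiffAt (n := n)).restrict_scalars ℝ

theorem compact_C {s : ℝ} (hs : s < 1) : IsCompact (ψ '' closedBall 0 s) := by
  apply (isCompact_closedBall (0 : ℂ) s).image_of_continuousOn
  exact h.diff.continuousOn.mono (closedBall_subset_ball hs)

theorem C_sub {s : ℝ} (hs : s < 1) : ψ '' closedBall 0 s ⊆ Es ψ :=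
  image_mono (closedBall_subset_ball hs)

theorem zero_mem : (0 : ℂ) ∈ Es ψ := ⟨0, by simp, h.zero⟩

theorem Es_sub : Es ψ ⊆ ball 0 1 := by
  rintro _ ⟨w, hw, rfl⟩
  exact h.maps w hw

end Inj

theorem not_mem_C {ψ : ℂ → ℂ} (h : Inj ψ) {s : ℝ} (hs : s < 1) {w : ℂ} (hw : w ∈ ball (0 : ℂ) 1)
    (hn : ψ w ∉ ψ '' closedBall 0 s) : s < ‖w‖ := by
  by_contra hne
  push Not at hne
  exact hn ⟨w, by rwa [mem_closedBall_zero_iff], rfl⟩

/-! ### transport of parametrised functions to the plane -/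

/-- the displacement -/
def Gm (ψ : ℂ → ℂ) (lam : ℂ) (F : ℂ → ℂ) (z : ℂ) : ℂ :=
  open Classical in if z ∈ Es ψ then ψ (F (ph ψ z)) - ψ (lam * ph ψ z) else 0

/-- the transported Beltrami coefficient -/
def Bt (ψ : ℂ → ℂ) (k : ℂ → ℝ) (F : ℂ → ℂ) (N : ℕ) (z : ℂ) : ℂ :=
  open Classical in if z ∈ Es ψ then bh k F N (ph ψ z) * (deriv ψ (ph ψ z) / conj (deriv ψ (ph ψ z))) else 0

theorem Gm_in {ψ : ℂ → ℂ} (h : Inj ψ) {lam : ℂ} {F : ℂ → ℂ} {w : ℂ} (hw : w ∈ ball (0 : ℂ) 1) :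
    Gm ψ lam F (ψ w) = ψ (F w) - ψ (lam * w) := by
  rw [Gm, if_pos (mem_Es hw), ph_psi h hw]

theorem Bt_in {ψ : ℂ → ℂ} (h : Inj ψ) {k : ℂ → ℝ} {F : ℂ → ℂ} {N : ℕ} {w : ℂ} (hw : w ∈ ball (0 : ℂ) 1) :
    Bt ψ k F N (ψ w) = bh k F N w * (deriv ψ w / conj (deriv ψ w)) := by
  rw [Bt, if_pos (mem_Es hw), ph_psi h hw]

section par

variable {ψ : ℂ → ℂ} (h : Inj ψ) {lam : ℂ} {F : ℝ → ℂ → ℂ} {s : ℝ} (hs : s < 1) {p₀ : ℝ} {n : ℕ}
  (hl : ‖lam‖ = 1) (hout : ∀ p w, s ≤ ‖w‖ → F p w = lam * w)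

include h hs hl hout

theorem Gm_off (p : ℝ) (z : ℂ) (hz : z ∉ ψ '' closedBall 0 s) : Gm ψ lam (F p) z = 0 := by
  by_cases hE : z ∈ Es ψ
  · obtain ⟨w, hw, rfl⟩ := hE
    have := not_mem_C h hs hw hz
    rw [Gm_in h hw, hout p w this.le, sub_self]
  · rw [Gm, if_neg hE]

theorem wab_out' (p : ℝ) (w : ℂ) (hw : w ∉ closedBall (0 : ℂ) s) : wa (F p) w = lam ∧ wb (F p) w = 0 := by
  rw [mem_closedBall_zero_iff, not_le] at hw
  have h1 : ∀ᶠ z : ℂ in 𝓝 w, s < ‖z‖ := continuous_norm.continuousAt.eventually_const_lt hw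
  have h2 : F p =ᶠ[𝓝 w] fun z => lam * z := by
    filter_upwards [h1] with z hz
    exact hout p z hz.le
  have h3 : HasDerivAt (fun z : ℂ => lam * z) (lam * 1) w := (hasDerivAt_id w).const_mul lam
  rw [mul_one] at h3
  exact wab_of (hasFDerivAt_of_deriv (h3.congr_of_eventuallyEq h2))

theorem F_out' (p : ℝ) (w : ℂ) (hw : w ∉ closedBall (0 : ℂ) s) : F p w ∉ closedBall (0 : ℂ) s := by
  rw [mem_closedBall_zero_iff, not_le] at hw ⊢
  rw [hout p w hw.le, norm_mul, hl, one_mul]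
  exact hw

theorem bh_off' (k : ℂ → ℝ) (p : ℝ) (N : ℕ) (w : ℂ) (hw : w ∉ closedBall (0 : ℂ) s) : bh k (F p) N w = 0 :=
  bh_off (fun w hw => (wab_out' h hs hl hout p w hw).2) (fun w hw => F_out' h hs hl hout p w hw) N w hw

theorem dn_off' (k : ℂ → ℝ) (p : ℝ) (N : ℕ) (w : ℂ) (hw : w ∉ closedBall (0 : ℂ) s) : dn k (F p) N w = lam := by
  rw [dn_off (fun w hw => (wab_out' h hs hl hout p w hw).2) (fun w hw => F_out' h hs hl hout p w hw) N w hw]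
  exact (wab_out' h hs hl hout p w hw).1

theorem Bt_off (k : ℂ → ℝ) (N : ℕ) (p : ℝ) (z : ℂ) (hz : z ∉ ψ '' closedBall 0 s) : Bt ψ k (F p) N z = 0 := by
  by_cases hE : z ∈ Es ψ
  · obtain ⟨w, hw, rfl⟩ := hE
    have := not_mem_C h hs hw hz
    rw [Bt_in h hw, bh_off' h hs hl hout k p N w (by rw [mem_closedBall_zero_iff]; exact not_le.2 this), zero_mul]
  · rw [Bt, if_neg hE]

theorem Gm_cda (hball : ∀ w : ℂ, ‖w‖ < 1 → ‖F p₀ w‖ < 1)
    (hF : ∀ w, ContDiffAt ℝ n (Function.uncurry F) (p₀, w)) (z : ℂ) :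
    ContDiffAt ℝ n (Function.uncurry fun p => Gm ψ lam (F p)) (p₀, z) := by
  by_cases hE : z ∈ Es ψ
  · have hev : (Function.uncurry fun p => Gm ψ lam (F p)) =ᶠ[𝓝 (p₀, z)]
        fun x : ℝ × ℂ => ψ (Function.uncurry F (x.1, ph ψ x.2)) - ψ (lam * ph ψ x.2) := by
      have : ∀ᶠ x : ℝ × ℂ in 𝓝 (p₀, z), x.2 ∈ Es ψ :=
        continuous_snd.continuousAt.preimage_mem_nhds (h.Es_open.mem_nhds hE)
      filter_upwards [this] with x hx
      simp only [Function.uncurry, Gm, if_pos hx]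
    refine ContDiffAt.congr_of_eventuallyEq ?_ hev
    obtain ⟨w, hw, rfl⟩ := hE
    have hwn : ‖w‖ < 1 := by simpa using hw
    have e1 : ContDiffAt ℝ n (fun x : ℝ × ℂ => ph ψ x.2) (p₀, ψ w) :=
      ContDiffAt.comp (g := ph ψ) (p₀, ψ w) (h.ph_cda (mem_Es hw)) contDiffAt_snd
    have e2 : ContDiffAt ℝ n (fun x : ℝ × ℂ => ((x.1, ph ψ x.2) : ℝ × ℂ)) (p₀, ψ w) :=
      contDiffAt_fst.prodMk e1
    have e3 : ContDiffAt ℝ n (fun x : ℝ × ℂ => Function.uncurry F (x.1, ph ψ x.2)) (p₀, ψ w) := by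
      refine ContDiffAt.comp (g := Function.uncurry F) (p₀, ψ w) ?_ e2
      exact hF _
    refine ContDiffAt.sub ?_ ?_
    · refine ContDiffAt.comp (g := ψ) (p₀, ψ w) ?_ e3
      apply h.psi_cda
      simp only [Function.uncurry]
      rw [ph_psi h hw, mem_ball_zero_iff]
      exact hball w hwn
    · refine ContDiffAt.comp (g := ψ) (p₀, ψ w) ?_ (contDiffAt_const.mul e1)
      apply h.psi_cda
      simp only
      rw [ph_psi h hw, mem_ball_zero_iff, norm_mul, hl, one_mul]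
      exact hwn
  · have hz : z ∉ ψ '' closedBall 0 s := fun hz => hE (h.C_sub hs hz)
    have hev : (Function.uncurry fun p => Gm ψ lam (F p)) =ᶠ[𝓝 (p₀, z)] fun _ => 0 := by
      have : ∀ᶠ x : ℝ × ℂ in 𝓝 (p₀, z), x.2 ∈ (ψ '' closedBall 0 s)ᶜ :=
        continuous_snd.continuousAt.preimage_mem_nhds ((h.compact_C hs).isClosed.isOpen_compl.mem_nhds hz)
      filter_upwards [this] with x hx
      exact Gm_off h hs hl hout x.1 x.2 hx
    exact contDiffAt_const.congr_of_eventuallyEq hev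

theorem Bt_cda (k : ℂ → ℝ) (N : ℕ)
    (hF : ∀ w, ContDiffAt ℝ n (Function.uncurry fun p => bh k (F p) N) (p₀, w)) (z : ℂ) :
    ContDiffAt ℝ n (Function.uncurry fun p => Bt ψ k (F p) N) (p₀, z) := by
  by_cases hE : z ∈ Es ψ
  · have hev : (Function.uncurry fun p => Bt ψ k (F p) N) =ᶠ[𝓝 (p₀, z)]
        fun x : ℝ × ℂ => (Function.uncurry fun p => bh k (F p) N) (x.1, ph ψ x.2) *
          (deriv ψ (ph ψ x.2) * (conj (deriv ψ (ph ψ x.2)))⁻¹) := by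
      have : ∀ᶠ x : ℝ × ℂ in 𝓝 (p₀, z), x.2 ∈ Es ψ :=
        continuous_snd.continuousAt.preimage_mem_nhds (h.Es_open.mem_nhds hE)
      filter_upwards [this] with x hx
      simp only [Function.uncurry, Bt, if_pos hx, div_eq_mul_inv]
    refine ContDiffAt.congr_of_eventuallyEq ?_ hev
    obtain ⟨w, hw, rfl⟩ := hE
    have e1 : ContDiffAt ℝ n (fun x : ℝ × ℂ => ph ψ x.2) (p₀, ψ w) :=
      ContDiffAt.comp (g := ph ψ) (p₀, ψ w) (h.ph_cda (mem_Es hw)) contDiffAt_snd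
    have e2 : ContDiffAt ℝ n (fun x : ℝ × ℂ => ((x.1, ph ψ x.2) : ℝ × ℂ)) (p₀, ψ w) :=
      contDiffAt_fst.prodMk e1
    have e3 : ContDiffAt ℝ n (fun x : ℝ × ℂ => (Function.uncurry fun p => bh k (F p) N) (x.1, ph ψ x.2))
        (p₀, ψ w) := by
      refine ContDiffAt.comp (g := Function.uncurry fun p => bh k (F p) N) (p₀, ψ w) ?_ e2
      exact hF _
    have e4 : ContDiffAt ℝ n (fun x : ℝ × ℂ => deriv ψ (ph ψ x.2)) (p₀, ψ w) := by
      refine ContDiffAt.comp (g := deriv ψ) (p₀, ψ w) ?_ e1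
      apply h.dpsi_cda
      rw [ph_psi h hw]
      exact hw
    have e5 : ContDiffAt ℝ n (fun x : ℝ × ℂ => conj (deriv ψ (ph ψ x.2))) (p₀, ψ w) := by
      have h1 : ContDiff ℝ n (fun z : ℂ => conj z) := (Complex.conjCLE : ℂ →L[ℝ] ℂ).contDiff
      exact ContDiffAt.comp (g := fun z : ℂ => conj z) (p₀, ψ w) h1.contDiffAt e4
    have hne : conj (deriv ψ (ph ψ (ψ w))) ≠ 0 := by
      rw [ph_psi h hw]
      intro h0
      exact h.der w hw ((map_eq_zero _).1 h0)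
    exact e3.mul (e4.mul (e5.inv hne))
  · have hz : z ∉ ψ '' closedBall 0 s := fun hz => hE (h.C_sub hs hz)
    have hev : (Function.uncurry fun p => Bt ψ k (F p) N) =ᶠ[𝓝 (p₀, z)] fun _ => 0 := by
      have : ∀ᶠ x : ℝ × ℂ in 𝓝 (p₀, z), x.2 ∈ (ψ '' closedBall 0 s)ᶜ :=
        continuous_snd.continuousAt.preimage_mem_nhds ((h.compact_C hs).isClosed.isOpen_compl.mem_nhds hz)
      filter_upwards [this] with x hx
      exact Bt_off h hs hl hout k N x.1 x.2 hx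
    exact contDiffAt_const.congr_of_eventuallyEq hev

end par

/-- from joint smoothness to smallness of the difference -/
theorem diff_small {C : Set ℂ} (hC : IsCompact C) {p₀ : ℝ} {G : ℝ → ℂ → ℂ}
    (hG : ∀ w, ContDiffAt ℝ (3 : ℕ) (Function.uncurry G) (p₀, w))
    (hs : ∀ p, ∀ w, w ∉ C → G p w = 0) {ε : ℝ} (hε : 0 < ε) :
    ∀ᶠ p in 𝓝 p₀, Wn ε (fun z => G p z - G p₀ z) ∧
      (∀ x y, ‖(G p x - G p₀ x) - (G p y - G p₀ y)‖ ≤ ε * ‖x - y‖) := by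
  apply wn_small hC p₀ (fun p z => G p z - G p₀ z)
  · intro w
    have h1 : ContDiffAt ℝ (3 : ℕ) (fun x : ℝ × ℂ => ((p₀, x.2) : ℝ × ℂ)) (p₀, w) := by fun_prop
    have h2 : ContDiffAt ℝ (3 : ℕ) (fun x : ℝ × ℂ => Function.uncurry G (p₀, x.2)) (p₀, w) :=
      ContDiffAt.comp (g := Function.uncurry G) (f := fun x : ℝ × ℂ => ((p₀, x.2) : ℝ × ℂ)) (p₀, w) (hG w) h1
    exact (hG w).sub h2
  · intro p w hw
    rw [hs p w hw, hs p₀ w hw, sub_self]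
  · intro w
    exact sub_self _
  · exact hε

end Pool.Agent.Y297
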