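import Pool.Agent.Y297.Par2

/-!
# Pulling back Beltrami coefficients
-/

set_option autoImplicit false
set_option linter.all false

open MeasureTheory Set Metric Filter Topology
open scoped ContDiff ComplexConjugate

noncomputable section

namespace Pool.Agent.Y297

/-- the derivative in the direction `z` -/
def wa (F : ℂ → ℂ) (w : ℂ) : ℂ := (fderiv ℝ F w 1 - Complex.I * fderiv ℝ F w Complex.I) / 2

/-- the derivative in the direction `conj z` -/
def wb (F : ℂ → ℂ) (w : ℂ) : ℂ := (fderiv ℝ F w 1 + Complex.I * fderiv ℝ F w Complex.I) / 2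

/-- the real linear map `v ↦ a v + b conj v` -/
def lin (a b : ℂ) : ℂ →L[ℝ] ℂ :=
  ContinuousLinearMap.mul ℝ ℂ a + (ContinuousLinearMap.mul ℝ ℂ b).comp (Complex.conjCLE : ℂ →L[ℝ] ℂ)

@[simp] theorem lin_apply (a b v : ℂ) : lin a b v = a * v + b * conj v := by
  simp [lin]

theorem lin_ab {a b a' b' : ℂ} (h : lin a b = lin a' b') : a = a' ∧ b = b' := by
  have h1 := congrArg (fun L : ℂ →L[ℝ] ℂ => L 1) h
  have h2 := congrArg (fun L : ℂ →L[ℝ] ℂ => L Complex.I) h
  simp only [lin_apply, map_one, mul_one, Complex.conj_I] at h1 h2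
  have h3 : a - b = a' - b' := by
    have : Complex.I * (a - b) = Complex.I * (a' - b') := by linear_combination h2
    exact mul_left_cancel₀ Complex.I_ne_zero this
  constructor
  · linear_combination (h1 + h3) / 2
  · linear_combination (h1 - h3) / 2

theorem fderiv_lin (F : ℂ → ℂ) (w : ℂ) : fderiv ℝ F w = lin (wa F w) (wb F w) := by
  ext v
  have h1 : v = v.re • (1 : ℂ) + v.im • Complex.I := by
    apply Complex.ext <;> simp
  have h2 : fderiv ℝ F w v = v.re • fderiv ℝ F w 1 + v.im • fderiv ℝ F w Complex.I := by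
    conv_lhs => rw [h1]
    rw [map_add, map_smul, map_smul]
  rw [h2, lin_apply, wa, wb]
  have h3 : conj v = v.re - v.im * Complex.I := by
    apply Complex.ext <;> simp
  have h4 : v = v.re + v.im * Complex.I := (Complex.re_add_im v).symm
  rw [h3]
  conv_rhs => rw [h4]
  simp only [Complex.add_re, Complex.ofReal_re, Complex.mul_re, Complex.I_re, Complex.I_im, Complex.ofReal_im,
    Complex.add_im, Complex.mul_im, mul_zero, mul_one, sub_self, add_zero, zero_add, Complex.real_smul]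
  have hI : Complex.I ^ 2 = -1 := Complex.I_sq
  linear_combination ((v.im : ℂ) * fderiv ℝ F w Complex.I) * hI

theorem hasFDerivAt_lin {F : ℂ → ℂ} {w : ℂ} (h : DifferentiableAt ℝ F w) :
    HasFDerivAt F (lin (wa F w) (wb F w)) w := by
  rw [← fderiv_lin]
  exact h.hasFDerivAt

theorem wab_of {F : ℂ → ℂ} {w a b : ℂ} (h : HasFDerivAt F (lin a b) w) : wa F w = a ∧ wb F w = b := by
  have := h.fderiv
  rw [fderiv_lin] at this
  exact lin_ab this

theorem hasFDerivAt_of_deriv {F : ℂ → ℂ} {w a : ℂ} (h : HasDerivAt F a w) : HasFDerivAt F (lin a 0) w := by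
  have h1 : HasFDerivAt F (ContinuousLinearMap.restrictScalars ℝ (ContinuousLinearMap.toSpanSingleton ℂ a)) w :=
    h.hasFDerivAt.restrictScalars ℝ
  have h2 : (ContinuousLinearMap.restrictScalars ℝ (ContinuousLinearMap.toSpanSingleton ℂ a) : ℂ →L[ℝ] ℂ) = lin a 0 := by
    ext v
    simp [mul_comm]
  rwa [h2] at h1

/-- the iterated pullback of the zero Beltrami coefficient -/
def bh (k : ℂ → ℝ) (F : ℂ → ℂ) : ℕ → ℂ → ℂ
  | 0 => fun _ => 0
  | j + 1 => fun w => (k w : ℂ) * (wb F w + bh k F j (F w) * conj (wa F w)) /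
      (wa F w + bh k F j (F w) * conj (wb F w))

/-- the denominator -/
def dn (k : ℂ → ℝ) (F : ℂ → ℂ) (j : ℕ) (w : ℂ) : ℂ := wa F w + bh k F j (F w) * conj (wb F w)

theorem bh_zero (k : ℂ → ℝ) (F : ℂ → ℂ) (w : ℂ) : bh k F 0 w = 0 := rfl

theorem bh_succ (k : ℂ → ℝ) (F : ℂ → ℂ) (j : ℕ) (w : ℂ) : bh k F (j + 1) w =
    (k w : ℂ) * (wb F w + bh k F j (F w) * conj (wa F w)) / dn k F j w := rfl

theorem bh_off {k : ℂ → ℝ} {F : ℂ → ℂ} {C : Set ℂ} (hb : ∀ w, w ∉ C → wb F w = 0)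
    (hF : ∀ w, w ∉ C → F w ∉ C) (j : ℕ) : ∀ w, w ∉ C → bh k F j w = 0 := by
  induction j with
  | zero => intro w _; rfl
  | succ j ih =>
    intro w hw
    rw [bh_succ, hb w hw, ih _ (hF w hw)]
    simp

theorem dn_off {k : ℂ → ℝ} {F : ℂ → ℂ} {C : Set ℂ} (hb : ∀ w, w ∉ C → wb F w = 0)
    (hF : ∀ w, w ∉ C → F w ∉ C) (j : ℕ) : ∀ w, w ∉ C → dn k F j w = wa F w := by
  intro w hw
  rw [dn, bh_off hb hF j _ (hF w hw)]
  simp

theorem bh_diff {k : ℂ → ℝ} {F : ℂ → ℂ} (j : ℕ) : ∀ w, bh k F (j + 1) w ≠ bh k F j w →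
    (∀ i ≤ j, k (F^[i] w) ≠ 0) ∧ wb F (F^[j] w) ≠ 0 := by
  induction j with
  | zero =>
    intro w h
    rw [bh_succ, bh_zero, bh_zero] at h
    constructor
    · intro i hi hk
      have : i = 0 := by omega
      subst this
      simp only [Function.iterate_zero, id] at hk
      apply h
      rw [hk]; simp
    · intro hb
      simp only [Function.iterate_zero, id] at hb
      apply h
      rw [hb]; simp
  | succ j ih =>
    intro w h
    rw [bh_succ k F (j + 1) w, bh_succ k F j w] at h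
    have h1 : bh k F (j + 1) (F w) ≠ bh k F j (F w) := by
      intro h2
      apply h
      rw [dn, dn, h2]
    have h3 := ih (F w) h1
    refine ⟨?_, ?_⟩
    · intro i hi hk
      rcases Nat.eq_zero_or_pos i with h0 | h0
      · subst h0
        simp only [Function.iterate_zero, id] at hk
        apply h
        rw [hk]; simp
      · obtain ⟨i', rfl⟩ : ∃ i', i = i' + 1 := ⟨i - 1, by omega⟩
        rw [Function.iterate_succ_apply] at hk
        exact h3.1 i' (by omega) hk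
    · rw [Function.iterate_succ_apply]
      exact h3.2

theorem bh_stab {k : ℂ → ℝ} {F : ℂ → ℂ} {N : ℕ}
    (h : ∀ w, wb F (F^[N] w) ≠ 0 → ∃ i ≤ N, k (F^[i] w) = 0) (j : ℕ) (hj : N ≤ j) :
    bh k F j = bh k F N := by
  have h1 : bh k F (N + 1) = bh k F N := by
    funext w
    by_contra hne
    obtain ⟨h2, h3⟩ := bh_diff N w hne
    obtain ⟨i, hi, hk⟩ := h w h3
    exact h2 i hi hk
  induction j, hj using Nat.le_induction with
  | base => rfl
  | succ j hj ih =>
    rw [← h1]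
    funext w
    rw [bh_succ, bh_succ, dn, dn, ih]

theorem bh_eq {k : ℂ → ℝ} {F : ℂ → ℂ} {N : ℕ}
    (h : ∀ w, wb F (F^[N] w) ≠ 0 → ∃ i ≤ N, k (F^[i] w) = 0) {w : ℂ} (hk : k w = 1)
    (hd : dn k F N w ≠ 0) :
    bh k F N w * (wa F w + bh k F N (F w) * conj (wb F w)) = wb F w + bh k F N (F w) * conj (wa F w) := by
  have h1 := bh_stab h (N + 1) (by omega)
  have h2 : bh k F N w = bh k F (N + 1) w := by rw [h1]
  rw [h2, bh_succ, hk]
  have h3 : wa F w + bh k F N (F w) * conj (wb F w) = dn k F N w := rfl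
  rw [h3]
  field_simp
  push_cast
  ring

/-! ### smooth dependence on the parameter -/

theorem cda_wa {F : ℝ → ℂ → ℂ} {p₀ : ℝ} {w : ℂ} {n : ℕ}
    (hF : ContDiffAt ℝ (n + 1 : ℕ) (Function.uncurry F) (p₀, w)) :
    ContDiffAt ℝ n (Function.uncurry fun p w => wa (F p) w) (p₀, w) := by
  have h := cda_fderiv hF
  have h1 : ContDiffAt ℝ n (fun x : ℝ × ℂ => fderiv ℝ (F x.1) x.2) (p₀, w) := h
  have h2 := h1.clm_apply (contDiffAt_const (c := (1 : ℂ)))
  have h3 := h1.clm_apply (contDiffAt_const (c := Complex.I))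
  exact (h2.sub (contDiffAt_const.mul h3)).div_const 2

theorem cda_wb {F : ℝ → ℂ → ℂ} {p₀ : ℝ} {w : ℂ} {n : ℕ}
    (hF : ContDiffAt ℝ (n + 1 : ℕ) (Function.uncurry F) (p₀, w)) :
    ContDiffAt ℝ n (Function.uncurry fun p w => wb (F p) w) (p₀, w) := by
  have h := cda_fderiv hF
  have h1 : ContDiffAt ℝ n (fun x : ℝ × ℂ => fderiv ℝ (F x.1) x.2) (p₀, w) := h
  have h2 := h1.clm_apply (contDiffAt_const (c := (1 : ℂ)))
  have h3 := h1.clm_apply (contDiffAt_const (c := Complex.I))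
  exact (h2.add (contDiffAt_const.mul h3)).div_const 2

theorem cda_comp {F G : ℝ → ℂ → ℂ} {p₀ : ℝ} {w : ℂ} {n : ℕ}
    (hF : ContDiffAt ℝ n (Function.uncurry F) (p₀, w))
    (hG : ContDiffAt ℝ n (Function.uncurry G) (p₀, F p₀ w)) :
    ContDiffAt ℝ n (Function.uncurry fun p w => G p (F p w)) (p₀, w) := by
  have h1 : ContDiffAt ℝ n (fun x : ℝ × ℂ => ((x.1, F x.1 x.2) : ℝ × ℂ)) (p₀, w) :=
    contDiffAt_fst.prodMk hF
  exact ContDiffAt.comp (g := Function.uncurry G) (p₀, w) hG h1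

theorem cda_conj {F : ℝ → ℂ → ℂ} {p₀ : ℝ} {w : ℂ} {n : ℕ}
    (hF : ContDiffAt ℝ n (Function.uncurry F) (p₀, w)) :
    ContDiffAt ℝ n (Function.uncurry fun p w => conj (F p w)) (p₀, w) := by
  have h1 : ContDiff ℝ n (fun z : ℂ => conj z) := (Complex.conjCLE : ℂ →L[ℝ] ℂ).contDiff
  exact h1.contDiffAt.comp (p₀, w) hF

theorem rec_smooth {F : ℝ → ℂ → ℂ} {k : ℂ → ℝ} {p₀ : ℝ} {n N : ℕ} (hk : ContDiff ℝ n k)
    (hF : ∀ w, ContDiffAt ℝ (n + 1 : ℕ) (Function.uncurry F) (p₀, w))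
    (hd : ∀ j < N, ∀ w, dn k (F p₀) j w ≠ 0) :
    ∀ j ≤ N, ∀ w, ContDiffAt ℝ n (Function.uncurry fun p => bh k (F p) j) (p₀, w) := by
  intro j
  induction j with
  | zero =>
    intro _ w
    exact contDiffAt_const
  | succ j ih =>
    intro hj w
    have h1 : ContDiffAt ℝ n (Function.uncurry fun p w => bh k (F p) j (F p w)) (p₀, w) :=
      cda_comp (G := fun p => bh k (F p) j) ((hF w).of_le (by norm_cast; omega)) (ih (by omega) _)
    have h2 := cda_wa (hF w)
    have h3 := cda_wb (hF w)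
    have h4 := cda_conj h2
    have h5 := cda_conj h3
    have h6 : ContDiffAt ℝ n (fun x : ℝ × ℂ => (k x.2 : ℂ)) (p₀, w) :=
      (Complex.ofRealCLM.contDiff.comp (hk.comp contDiff_snd)).contDiffAt
    have h7 := (h6.mul (h3.add (h1.mul h4))).mul ((h2.add (h1.mul h5)).inv (hd j (by omega) w))
    refine h7.congr_of_eventuallyEq (Filter.Eventually.of_forall fun x => ?_)
    exact div_eq_mul_inv _ _

theorem dn_smooth {F : ℝ → ℂ → ℂ} {k : ℂ → ℝ} {p₀ : ℝ} {n N : ℕ} (hk : ContDiff ℝ n k)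
    (hF : ∀ w, ContDiffAt ℝ (n + 1 : ℕ) (Function.uncurry F) (p₀, w))
    (hd : ∀ j < N, ∀ w, dn k (F p₀) j w ≠ 0) (w : ℂ) :
    ContDiffAt ℝ n (Function.uncurry fun p w => dn k (F p) N w) (p₀, w) := by
  have h1 : ContDiffAt ℝ n (Function.uncurry fun p w => bh k (F p) N (F p w)) (p₀, w) :=
    cda_comp (G := fun p => bh k (F p) N) ((hF w).of_le (by norm_cast; omega))
      (rec_smooth hk hF hd N le_rfl _)
  have h2 := cda_wa (hF w)
  have h3 := cda_wb (hF w)
  exact h2.add (h1.mul (cda_conj h3))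

theorem nz_event {C : Set ℂ} (hC : IsCompact C) {Q : ℝ → ℂ → ℂ} {p₀ : ℝ}
    (hQ : ∀ w, ContinuousAt (Function.uncurry Q) (p₀, w)) (h0 : ∀ w, Q p₀ w ≠ 0) :
    ∀ᶠ p in 𝓝 p₀, ∀ w ∈ C, Q p w ≠ 0 := by
  apply hC.eventually_forall_of_forall_eventually
  intro w _
  exact (hQ w).eventually_ne (h0 w)

end Pool.Agent.Y297
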