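import Pool.Agent.Y297.Root
import Pool.Agent.Y297.Rec

/-!
# The model map of one stage
-/

set_option autoImplicit false
set_option linter.all false

open Set Metric Filter Topology
open scoped ContDiff ComplexConjugate

noncomputable section

namespace Pool.Agent.Y297

/-- the data of one stage, in the model plane -/
structure Mod where
  q : ℕ
  lam : ℂ
  A : ℝ
  s1 : ℝ
  s2 : ℝ
  s3 : ℝ
  ra : ℝ
  rb : ℝ
  x1 : ℂ → ℝ
  tau : ℂ → ℝ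
  hq : 0 < q
  hlam : IsPrimitiveRoot lam q
  hA : 1 < A
  hs1 : 0 < s1
  hs12 : s1 < s2
  hs23 : s2 < s3
  hs3 : s3 < 1
  hra0 : 0 < ra
  hra : A - (s1 ^ q)⁻¹ < ra
  hrab : ra < rb
  hrb : rb < A - (s2 ^ q)⁻¹
  x1s : ContDiff ℝ ∞ x1
  x1_one : ∀ w : ℂ, ‖w‖ ≤ s2 → x1 w = 1
  x1_zero : ∀ w : ℂ, s3 ≤ ‖w‖ → x1 w = 0
  x1_nn : ∀ w : ℂ, 0 ≤ x1 w
  x1_le : ∀ w : ℂ, x1 w ≤ 1
  taus : ContDiff ℝ ∞ tau
  tau_one : ∀ w : ℂ, ‖1 + A * w ^ q‖ ≤ ra * ‖w‖ ^ q → tau w = 1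
  tau_zero : ∀ w : ℂ, rb * ‖w‖ ^ q ≤ ‖1 + A * w ^ q‖ → tau w = 0
  tau_nn : ∀ w : ℂ, 0 ≤ tau w
  tau_le : ∀ w : ℂ, tau w ≤ 1

namespace Mod

variable (M : Mod)

/-- the outer radius -/
def B : ℝ := M.A + (M.s2 ^ M.q)⁻¹

/-- the multiplier -/
def c (om t : ℝ) (w : ℂ) : ℂ := Complex.exp (-((om * (M.x1 w + t * M.tau w) : ℝ) * Complex.I))

/-- the base of the root -/
def D (om t : ℝ) (w : ℂ) : ℂ := 1 + (M.c om t w - 1) * (1 + M.A * w ^ M.q)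

/-- the model map -/
def F (om t : ℝ) (w : ℂ) : ℂ := M.lam * (w * rt M.q (M.D om t w))

theorem hs2 : 0 < M.s2 := M.hs1.trans M.hs12

theorem hs2' : M.s2 < 1 := M.hs23.trans M.hs3

theorem hA0 : 0 < M.A := one_pos.trans M.hA

theorem hs2p : 1 < (M.s2 ^ M.q)⁻¹ := by
  rw [one_lt_inv₀ (pow_pos M.hs2 _)]
  exact pow_lt_one₀ M.hs2.le M.hs2' M.hq.ne'

theorem hAB : M.A < M.B := by
  unfold B
  linarith [M.hs2p]

theorem rbA : M.rb < M.A := by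
  linarith [M.hs2p, M.hrb]

theorem lam_norm : ‖M.lam‖ = 1 := M.hlam.norm'_eq_one M.hq.ne'

theorem lam_pow : M.lam ^ M.q = 1 := M.hlam.pow_eq_one

theorem lam_ne : M.lam ≠ 0 := by
  intro h
  have := M.lam_norm
  rw [h, norm_zero] at this
  norm_num at this

theorem c_norm (om t : ℝ) (w : ℂ) : ‖M.c om t w‖ = 1 := by
  rw [c, Complex.norm_exp]
  simp

theorem c_ne (om t : ℝ) (w : ℂ) : M.c om t w ≠ 0 := Complex.exp_ne_zero _

theorem c_sub (om t : ℝ) (ht0 : 0 ≤ t) (ht1 : t ≤ 1) (w : ℂ) : ‖M.c om t w - 1‖ ≤ 2 * |om| := by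
  have h : M.c om t w = Complex.exp (Complex.I * ((-(om * (M.x1 w + t * M.tau w)) : ℝ) : ℂ)) := by
    rw [c]; congr 1; push_cast; ring
  rw [h]
  refine (Real.norm_exp_I_mul_ofReal_sub_one_le).trans ?_
  rw [norm_neg, norm_mul, Real.norm_eq_abs, Real.norm_eq_abs]
  have h1 := M.x1_nn w
  have h2 := M.x1_le w
  have h3 := M.tau_nn w
  have h4 := M.tau_le w
  have h5 : |M.x1 w + t * M.tau w| ≤ 2 := by
    rw [abs_of_nonneg (by positivity)]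
    nlinarith
  nlinarith [abs_nonneg om]

theorem one_add_norm {w : ℂ} (hw : ‖w‖ ≤ 1) : ‖1 + M.A * w ^ M.q‖ ≤ 1 + M.A := by
  refine (norm_add_le _ _).trans ?_
  rw [norm_one, norm_mul, Complex.norm_real, Real.norm_of_nonneg M.hA0.le]
  have := pow_le_one' hw M.q
  nlinarith [M.hA0]

theorem D_near (om t : ℝ) (ht0 : 0 ≤ t) (ht1 : t ≤ 1) {w : ℂ} (hw : ‖w‖ ≤ 1) :
    ‖M.D om t w - 1‖ ≤ 2 * |om| * (1 + M.A) := by
  have : M.D om t w - 1 = (M.c om t w - 1) * (1 + M.A * w ^ M.q) := by rw [D]; ring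
  rw [this, norm_mul]
  exact mul_le_mul (M.c_sub om t ht0 ht1 w) (M.one_add_norm hw) (norm_nonneg _) (by positivity)

theorem tau_out {w : ℂ} (hw : M.s2 ≤ ‖w‖) : M.tau w = 0 := by
  apply M.tau_zero
  by_contra hne
  push Not at hne
  have := reg1 M.hA0 M.hs2 M.hrb hne.le
  linarith

theorem rb_lt_of_out {w : ℂ} (hw : M.s2 ≤ ‖w‖) : M.rb * ‖w‖ ^ M.q < ‖1 + M.A * w ^ M.q‖ := by
  by_contra hne
  push Not at hne
  have := reg1 M.hA0 M.hs2 M.hrb hne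
  linarith

theorem c_out (om t : ℝ) {w : ℂ} (hw : M.s3 ≤ ‖w‖) : M.c om t w = 1 := by
  rw [c, M.x1_zero w hw, M.tau_out (M.hs23.le.trans hw)]
  simp

theorem D_out (om t : ℝ) {w : ℂ} (hw : M.s3 ≤ ‖w‖) : M.D om t w = 1 := by
  rw [D, M.c_out om t hw]; ring

theorem F_out (om t : ℝ) {w : ℂ} (hw : M.s3 ≤ ‖w‖) : M.F om t w = M.lam * w := by
  rw [F, M.D_out om t hw, rt_one, mul_one]

theorem F_zero (om t : ℝ) : M.F om t 0 = 0 := by simp [F]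

/-- admissible angles -/
def Ok (om : ℝ) : Prop := 2 * |om| * (1 + M.A) ≤ 1 / 2

theorem D_re {om t : ℝ} (h : M.Ok om) (ht0 : 0 ≤ t) (ht1 : t ≤ 1) (w : ℂ) : 0 < (M.D om t w).re := by
  rcases le_total M.s3 ‖w‖ with hw | hw
  · rw [M.D_out om t hw]; simp
  · apply re_pos_of_near
    have := M.D_near om t ht0 ht1 (hw.trans M.hs3.le)
    unfold Ok at h
    linarith

theorem D_ne {om t : ℝ} (h : M.Ok om) (ht0 : 0 ≤ t) (ht1 : t ≤ 1) (w : ℂ) : M.D om t w ≠ 0 := by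
  intro h0
  have := M.D_re h ht0 ht1 w
  rw [h0] at this
  simp at this

theorem F_pow {om t : ℝ} {w : ℂ} (hD : M.D om t w ≠ 0) : M.F om t w ^ M.q = w ^ M.q / M.D om t w := by
  rw [F, mul_pow, mul_pow, M.lam_pow, rt_pow M.hq hD, one_mul, div_eq_mul_inv]

theorem F_one_add {om t : ℝ} {w : ℂ} (hD : M.D om t w ≠ 0) :
    1 + M.A * M.F om t w ^ M.q = M.c om t w * (1 + M.A * w ^ M.q) / M.D om t w := by
  rw [M.F_pow hD]
  field_simp
  rw [D]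
  ring

theorem F_n1 {om t : ℝ} {w : ℂ} (hD : M.D om t w ≠ 0) :
    ‖1 + M.A * M.F om t w ^ M.q‖ * ‖M.D om t w‖ = ‖1 + M.A * w ^ M.q‖ := by
  have h0 : ‖M.D om t w‖ ≠ 0 := norm_ne_zero_iff.2 hD
  rw [M.F_one_add hD, norm_div, norm_mul, M.c_norm, one_mul]
  field_simp

theorem F_n2 {om t : ℝ} {w : ℂ} (hD : M.D om t w ≠ 0) :
    ‖M.F om t w‖ ^ M.q * ‖M.D om t w‖ = ‖w‖ ^ M.q := by
  have h0 : ‖M.D om t w‖ ≠ 0 := norm_ne_zero_iff.2 hD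
  rw [← norm_pow, M.F_pow hD, norm_div, norm_pow]
  field_simp

theorem reg_lt {om t ρ : ℝ} {w : ℂ} (hD : M.D om t w ≠ 0) :
    ρ * ‖M.F om t w‖ ^ M.q < ‖1 + M.A * M.F om t w ^ M.q‖ ↔ ρ * ‖w‖ ^ M.q < ‖1 + M.A * w ^ M.q‖ := by
  have h0 : 0 < ‖M.D om t w‖ := norm_pos_iff.2 hD
  rw [← M.F_n1 hD, ← M.F_n2 hD, ← mul_assoc, mul_lt_mul_iff_left₀ h0]

theorem reg_le {om t ρ : ℝ} {w : ℂ} (hD : M.D om t w ≠ 0) :
    ρ * ‖M.F om t w‖ ^ M.q ≤ ‖1 + M.A * M.F om t w ^ M.q‖ ↔ ρ * ‖w‖ ^ M.q ≤ ‖1 + M.A * w ^ M.q‖ := by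
  have h0 : 0 < ‖M.D om t w‖ := norm_pos_iff.2 hD
  rw [← M.F_n1 hD, ← M.F_n2 hD, ← mul_assoc, mul_le_mul_iff_left₀ h0]

theorem c_mid {om t : ℝ} {w : ℂ} (h1 : ‖w‖ ≤ M.s2) (h2 : M.rb * ‖w‖ ^ M.q ≤ ‖1 + M.A * w ^ M.q‖) :
    M.c om t w = Complex.exp (-(om * Complex.I)) := by
  rw [c, M.x1_one w h1, M.tau_zero w h2]
  simp

theorem c_t0 {om : ℝ} {w : ℂ} (h1 : ‖w‖ ≤ M.s2) :
    M.c om 0 w = Complex.exp (-(om * Complex.I)) := by
  rw [c, M.x1_one w h1]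
  simp

theorem c_in {om t : ℝ} {w : ℂ} (h2 : ‖1 + M.A * w ^ M.q‖ ≤ M.ra * ‖w‖ ^ M.q) :
    M.c om t w = Complex.exp (-((om * (1 + t) : ℝ) * Complex.I)) := by
  have h1 : ‖w‖ < M.s2 := reg1 M.hA0 M.hs2 (by linarith [M.hrb, M.hrab]) h2
  rw [c, M.x1_one w h1.le, M.tau_one w h2, mul_one]

/-- the map onto the next domain -/
def X (w : ℂ) : ℂ := chi M.q M.A M.B w

theorem X_small {w : ℂ} (hw : ‖w‖ < 1) : ‖M.X w‖ < M.s2 :=
  reg2 M.hA0 M.hs2 rfl (chi_region M.hq M.hA0.le M.hAB hw)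

theorem F_X {om t : ℝ} (h : M.Ok om) (hpi : |om| < Real.pi / 2) (ht0 : 0 ≤ t) (ht1 : t ≤ 1) {w : ℂ} (hw : ‖w‖ < 1) :
    M.F om t (M.X w) = M.X (M.lam * Complex.exp (om * Complex.I / M.q) * w) := by
  have hq' : (M.q : ℂ) ≠ 0 := by exact_mod_cast M.hq.ne'
  have hr := chi_region M.hq M.hA0.le M.hAB hw
  have hM0 : 0 ≤ ‖chi M.q M.A M.B w‖ ^ M.q := by positivity
  have hr2 : M.rb * ‖M.X w‖ ^ M.q ≤ ‖1 + M.A * M.X w ^ M.q‖ := by
    have := M.rbA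
    have := M.hAB
    unfold X
    nlinarith
  have hc : M.c om t (M.X w) = Complex.exp (-(om * Complex.I)) := M.c_mid (M.X_small hw).le hr2
  set u : ℂ := w ^ M.q with hu
  have hu1 : ‖u‖ ≤ 1 := pow_le_one' hw.le _
  have hBA := BA_ne M.hA0.le M.hAB hu1
  have h1 : 1 + M.A * M.X w ^ M.q = M.B / (M.B - M.A * u) := chi_one_add M.hq M.hA0.le M.hAB hw.le
  have hE : ‖Complex.exp (om * Complex.I)‖ = 1 := Complex.norm_exp_ofReal_mul_I om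
  have hE' : Complex.exp (-(om * Complex.I)) * Complex.exp (om * Complex.I) = 1 := by
    rw [← Complex.exp_add]; simp
  have hmul : (M.B - M.A * u) * M.D om t (M.X w) =
      Complex.exp (-(om * Complex.I)) * (M.B - M.A * (Complex.exp (om * Complex.I) * u)) := by
    rw [D, hc, h1]
    field_simp
    linear_combination (M.A * u) * hE'
  have hre1 := re_pos_BA M.hA0.le M.hAB hu1
  have hre2 := M.D_re h ht0 ht1 (M.X w)
  have hre3 : 0 < (Complex.exp (-(om * Complex.I))).re := by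
    have : -((om : ℂ) * Complex.I) = ((-om : ℝ) : ℂ) * Complex.I := by push_cast; ring
    rw [this, Complex.exp_ofReal_mul_I_re, Real.cos_neg]
    apply Real.cos_pos_of_mem_Ioo
    rw [abs_lt] at hpi
    exact ⟨by linarith, by linarith⟩
  have hre4 : 0 < (M.B - M.A * (Complex.exp (om * Complex.I) * u)).re := by
    apply re_pos_BA M.hA0.le M.hAB
    rw [norm_mul, hE, one_mul]
    exact hu1
  have h2 : rt M.q (M.B - M.A * u) * rt M.q (M.D om t (M.X w)) =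
      Complex.exp (om * Complex.I / M.q) * rt M.q (M.B - M.A * (Complex.exp (om * Complex.I) * u)) := by
    rw [← rt_mul M.q hre1 hre2, hmul, rt_mul M.q hre3 hre4, rt_exp M.q (by linarith [Real.pi_pos])]
  have h3 : (M.lam * Complex.exp (om * Complex.I / M.q) * w) ^ M.q = Complex.exp (om * Complex.I) * u := by
    rw [mul_pow, mul_pow, M.lam_pow, one_mul, ← Complex.exp_nat_mul, hu]
    congr 2
    field_simp
  rw [F, X, X, chi, chi, h3, ← hu]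
  have h4 : chi M.q M.A M.B w = M.X w := rfl
  have h5 : w * rt M.q (↑M.B - ↑M.A * u) = M.X w := by rw [X, chi]
  rw [h5]
  calc M.lam * (M.X w * rt M.q (M.D om t (M.X w)))
      = M.lam * (w * (rt M.q (M.B - M.A * u) * rt M.q (M.D om t (M.X w)))) := by
        rw [← h5]; ring
    _ = _ := by rw [h2]; ring

end Mod

end Pool.Agent.Y297
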