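import Pool.Agent.Y297.Model

/-!
# The model map: smoothness, holomorphy, parametrisation of the invariant discs, exits
-/

set_option autoImplicit false
set_option linter.all false

open Set Metric Filter Topology
open scoped ContDiff ComplexConjugate

noncomputable section

namespace Pool.Agent.Y297

namespace Mod

variable (M : Mod)

theorem c_smooth {n : ℕ} : ContDiff ℝ n (fun x : ℝ × ℝ × ℂ => M.c x.1 x.2.1 x.2.2) := by
  have h1 : ContDiff ℝ n M.x1 := M.x1s.of_le (by exact_mod_cast le_top)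
  have h2 : ContDiff ℝ n M.tau := M.taus.of_le (by exact_mod_cast le_top)
  have h3 : ContDiff ℝ n (fun x : ℝ × ℝ × ℂ => x.1 * (M.x1 x.2.2 + x.2.1 * M.tau x.2.2)) := by
    have e1 : ContDiff ℝ n (fun x : ℝ × ℝ × ℂ => M.x1 x.2.2) := h1.comp (contDiff_snd.comp contDiff_snd)
    have e2 : ContDiff ℝ n (fun x : ℝ × ℝ × ℂ => M.tau x.2.2) := h2.comp (contDiff_snd.comp contDiff_snd)
    exact contDiff_fst.mul (e1.add ((contDiff_fst.comp contDiff_snd).mul e2))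
  have h4 : ContDiff ℝ n (fun x : ℝ × ℝ × ℂ => ((x.1 * (M.x1 x.2.2 + x.2.1 * M.tau x.2.2) : ℝ) : ℂ)) :=
    Complex.ofRealCLM.contDiff.comp h3
  exact ((h4.mul contDiff_const).neg).cexp

theorem D_smooth {n : ℕ} : ContDiff ℝ n (fun x : ℝ × ℝ × ℂ => M.D x.1 x.2.1 x.2.2) := by
  unfold D
  have h1 := M.c_smooth (n := n)
  have h2 : ContDiff ℝ n (fun x : ℝ × ℝ × ℂ => (x.2.2 : ℂ)) := contDiff_snd.comp contDiff_snd
  exact contDiff_const.add ((h1.sub contDiff_const).mul (contDiff_const.add (contDiff_const.mul (h2.pow _))))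

theorem F_smooth {n : ℕ} {om t : ℝ} {w : ℂ} (h : 0 < (M.D om t w).re) :
    ContDiffAt ℝ n (fun x : ℝ × ℝ × ℂ => M.F x.1 x.2.1 x.2.2) (om, t, w) := by
  unfold F
  have h2 : ContDiffAt ℝ n (fun x : ℝ × ℝ × ℂ => (x.2.2 : ℂ)) (om, t, w) :=
    (contDiff_snd.comp contDiff_snd).contDiffAt
  have h3 : ContDiffAt ℝ n (fun x : ℝ × ℝ × ℂ => rt M.q (M.D x.1 x.2.1 x.2.2)) (om, t, w) :=
    ContDiffAt.comp (g := rt M.q) (om, t, w) (rt_contDiffAt M.q h) M.D_smooth.contDiffAt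
  exact contDiffAt_const.mul (h2.mul h3)

theorem F_smooth_om {n : ℕ} (w : ℂ) :
    ContDiffAt ℝ n (Function.uncurry fun om w => M.F om 0 w) (0, w) := by
  have h : 0 < (M.D 0 0 w).re := by
    rw [D, c]; simp
  have h1 : ContDiffAt ℝ n (fun x : ℝ × ℂ => ((x.1, 0, x.2) : ℝ × ℝ × ℂ)) (0, w) := by fun_prop
  exact ContDiffAt.comp (g := fun x : ℝ × ℝ × ℂ => M.F x.1 x.2.1 x.2.2)
    (f := fun x : ℝ × ℂ => ((x.1, 0, x.2) : ℝ × ℝ × ℂ)) ((0 : ℝ), w) (M.F_smooth h) h1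

theorem F_smooth_t {n : ℕ} {om t : ℝ} {w : ℂ} (h : 0 < (M.D om t w).re) :
    ContDiffAt ℝ n (Function.uncurry fun t w => M.F om t w) (t, w) := by
  have h1 : ContDiffAt ℝ n (fun x : ℝ × ℂ => ((om, x.1, x.2) : ℝ × ℝ × ℂ)) (t, w) := by fun_prop
  exact ContDiffAt.comp (g := fun x : ℝ × ℝ × ℂ => M.F x.1 x.2.1 x.2.2) (t, w) (M.F_smooth h) h1

theorem F_smooth_w {n : ℕ} {om t : ℝ} {w : ℂ} (h : 0 < (M.D om t w).re) :
    ContDiffAt ℝ n (M.F om t) w := by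
  have h1 : ContDiffAt ℝ n (fun w : ℂ => ((om, t, w) : ℝ × ℝ × ℂ)) w := by fun_prop
  exact ContDiffAt.comp (g := fun x : ℝ × ℝ × ℂ => M.F x.1 x.2.1 x.2.2) w (M.F_smooth h) h1

theorem F_hol {om t : ℝ} {w c0 : ℂ} (h : 0 < (M.D om t w).re) (hc : ∀ᶠ z in 𝓝 w, M.c om t z = c0) :
    wb (M.F om t) w = 0 := by
  have hc0 : M.c om t w = c0 := hc.self_of_nhds
  have h1 : HasDerivAt (fun z : ℂ => 1 + (c0 - 1) * (1 + M.A * z ^ M.q))
      ((c0 - 1) * (M.A * (M.q * w ^ (M.q - 1)))) w :=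
    ((((hasDerivAt_pow M.q w).const_mul (M.A : ℂ)).const_add 1).const_mul (c0 - 1)).const_add 1
  have h2 : 0 < (1 + (c0 - 1) * (1 + M.A * w ^ M.q)).re := by
    rw [← hc0]; exact h
  have h3 := ((hasDerivAt_id w).mul ((rt_deriv M.q h2).comp w h1)).const_mul M.lam
  have h4 : M.F om t =ᶠ[𝓝 w] fun z => M.lam * (id z * (rt M.q ∘ fun z : ℂ => 1 + (c0 - 1) * (1 + M.A * z ^ M.q)) z) := by
    filter_upwards [hc] with z hz
    rw [F, D, hz]
    rfl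
  have h5 := h3.congr_of_eventuallyEq h4
  exact (wab_of (hasFDerivAt_of_deriv h5)).2

theorem F_wab_out (om t : ℝ) {w : ℂ} (hw : M.s3 < ‖w‖) : wa (M.F om t) w = M.lam ∧ wb (M.F om t) w = 0 := by
  have h1 : ∀ᶠ z : ℂ in 𝓝 w, M.s3 < ‖z‖ := continuous_norm.continuousAt.eventually_const_lt hw
  have h2 : M.F om t =ᶠ[𝓝 w] fun z => M.lam * z := by
    filter_upwards [h1] with z hz
    exact M.F_out om t hz.le
  have h3 : HasDerivAt (fun z : ℂ => M.lam * z) (M.lam * 1) w := (hasDerivAt_id w).const_mul M.lam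
  rw [mul_one] at h3
  exact wab_of (hasFDerivAt_of_deriv (h3.congr_of_eventuallyEq h2))

theorem cont_n (M : Mod) : Continuous fun z : ℂ => ‖1 + M.A * z ^ M.q‖ := by fun_prop

theorem cont_m (M : Mod) (ρ : ℝ) : Continuous fun z : ℂ => ρ * ‖z‖ ^ M.q := by fun_prop

theorem wb_loc {om t : ℝ} (h : M.Ok om) (ht0 : 0 ≤ t) (ht1 : t ≤ 1) {w : ℂ} (hw : wb (M.F om t) w ≠ 0) :
    (M.s2 ≤ ‖w‖ ∧ ‖w‖ ≤ M.s3) ∨
      (M.ra * ‖w‖ ^ M.q ≤ ‖1 + M.A * w ^ M.q‖ ∧ ‖1 + M.A * w ^ M.q‖ ≤ M.rb * ‖w‖ ^ M.q) := by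
  by_contra hne
  push Not at hne
  obtain ⟨h1, h2⟩ := hne
  apply hw
  rcases lt_or_ge M.s3 ‖w‖ with hw3 | hw3
  · exact (M.F_wab_out om t hw3).2
  have h3 : ‖w‖ < M.s2 := by
    by_contra hne
    push Not at hne
    exact absurd hw3 (not_le.2 (h1 hne))
  have hev : ∀ᶠ z : ℂ in 𝓝 w, ‖z‖ < M.s2 := continuous_norm.continuousAt.eventually_lt_const h3
  rcases lt_or_ge ‖1 + M.A * w ^ M.q‖ (M.ra * ‖w‖ ^ M.q) with h4 | h4
  · apply M.F_hol (M.D_re h ht0 ht1 w) (c0 := Complex.exp (-((om * (1 + t) : ℝ) * Complex.I)))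
    have h5 : ∀ᶠ z : ℂ in 𝓝 w, ‖1 + M.A * z ^ M.q‖ < M.ra * ‖z‖ ^ M.q :=
      M.cont_n.continuousAt.eventually_lt (M.cont_m M.ra).continuousAt h4
    filter_upwards [h5] with z hz
    exact M.c_in hz.le
  · have h6 := h2 h4
    apply M.F_hol (M.D_re h ht0 ht1 w) (c0 := Complex.exp (-(om * Complex.I)))
    have h5 : ∀ᶠ z : ℂ in 𝓝 w, M.rb * ‖z‖ ^ M.q < ‖1 + M.A * z ^ M.q‖ :=
      (M.cont_m M.rb).continuousAt.eventually_lt M.cont_n.continuousAt h6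
    filter_upwards [h5, hev] with z hz hz2
    exact M.c_mid hz2.le hz.le

theorem wb_loc0 {om : ℝ} (h : M.Ok om) {w : ℂ} (hw : wb (M.F om 0) w ≠ 0) :
    M.s2 ≤ ‖w‖ ∧ ‖w‖ ≤ M.s3 := by
  by_contra hne
  rw [not_and_or] at hne
  push Not at hne
  apply hw
  rcases hne with h1 | h1
  · have hev : ∀ᶠ z : ℂ in 𝓝 w, ‖z‖ < M.s2 := continuous_norm.continuousAt.eventually_lt_const h1
    apply M.F_hol (M.D_re h le_rfl zero_le_one w) (c0 := Complex.exp (-(om * Complex.I)))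
    filter_upwards [hev] with z hz
    exact M.c_t0 hz.le
  · exact (M.F_wab_out om 0 h1).2

/-! ### The discs around the small cycle -/

/-- the parametrisation -/
def g (W : ℂ) : ℂ := rt M.q (M.A - W)

theorem AW_re {W : ℂ} (h : ‖W‖ < M.A) : 0 < ((M.A : ℂ) - W).re := by
  have h1 : W.re ≤ ‖W‖ := Complex.re_le_norm _
  simp only [Complex.sub_re, Complex.ofReal_re]
  linarith

theorem AW_ne {W : ℂ} (h : ‖W‖ < M.A) : (M.A : ℂ) - W ≠ 0 := by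
  intro h0
  have := M.AW_re h
  rw [h0] at this
  simp at this

theorem g_pow {W : ℂ} (h : ‖W‖ < M.A) : M.g W ^ M.q = (M.A - W)⁻¹ := rt_pow M.hq (M.AW_ne h)

theorem g_ne (W : ℂ) : M.g W ≠ 0 := rt_ne _ _

theorem g_cont {W : ℂ} (h : ‖W‖ < M.A) : ContinuousAt M.g W := by
  unfold g
  exact ContinuousAt.comp (g := rt M.q) (rt_cont M.q (M.AW_re h)) (by fun_prop)

theorem zg_pow {ζ W : ℂ} (hz : ζ ^ M.q = -1) (h : ‖W‖ < M.A) : (ζ * M.g W) ^ M.q = -(M.A - W)⁻¹ := by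
  rw [mul_pow, hz, M.g_pow h]; ring

theorem zg_add {ζ W : ℂ} (hz : ζ ^ M.q = -1) (h : ‖W‖ < M.A) :
    1 + M.A * (ζ * M.g W) ^ M.q = -W / (M.A - W) := by
  rw [M.zg_pow hz h]
  have := M.AW_ne h
  field_simp
  ring

theorem zg_reg {ζ W : ℂ} (hz : ζ ^ M.q = -1) (h : ‖W‖ < M.A) :
    ‖1 + M.A * (ζ * M.g W) ^ M.q‖ = ‖W‖ * ‖ζ * M.g W‖ ^ M.q := by
  rw [M.zg_add hz h, ← norm_pow, M.zg_pow hz h, norm_div, norm_neg, norm_neg, norm_inv, div_eq_mul_inv]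

theorem zg_pos {ζ W : ℂ} (hz : ζ ^ M.q = -1) : 0 < ‖ζ * M.g W‖ ^ M.q := by
  have : ζ ≠ 0 := by
    rintro rfl
    rw [zero_pow M.hq.ne'] at hz
    norm_num at hz
  have h1 : ζ * M.g W ≠ 0 := mul_ne_zero this (M.g_ne W)
  have := norm_pos_iff.2 h1
  positivity

theorem param {w : ℂ} {ρ : ℝ} (hρ : ρ < M.A) (h : ‖1 + M.A * w ^ M.q‖ ≤ ρ * ‖w‖ ^ M.q) :
    ∃ ζ W : ℂ, ζ ^ M.q = -1 ∧ ‖W‖ ≤ ρ ∧ w = ζ * M.g W := by
  have hw : w ≠ 0 := by
    rintro rfl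
    rw [norm_zero, zero_pow M.hq.ne', zero_pow M.hq.ne', mul_zero, mul_zero, add_zero, norm_one] at h
    norm_num at h
  have hwq : w ^ M.q ≠ 0 := pow_ne_zero _ hw
  set W : ℂ := (1 + M.A * w ^ M.q) / w ^ M.q with hW
  have hWn : ‖W‖ ≤ ρ := by
    rw [hW, norm_div, norm_pow, div_le_iff₀ (by rw [← norm_pow]; exact norm_pos_iff.2 hwq)]
    exact h
  have hWA : ‖W‖ < M.A := hWn.trans_lt hρ
  have h1 : (M.A : ℂ) - W = -(w ^ M.q)⁻¹ := by
    rw [hW]; field_simp; ring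
  refine ⟨w / M.g W, W, ?_, hWn, ?_⟩
  · rw [div_pow, M.g_pow hWA, h1]
    rw [neg_inv, inv_inv]
    field_simp
  · rw [div_mul_cancel₀ _ (M.g_ne W)]

theorem F_g {om t : ℝ} (h : M.Ok om) (ht0 : 0 ≤ t) (ht1 : t ≤ 1) {ζ W : ℂ} (hz : ζ ^ M.q = -1) (hW : ‖W‖ < M.A) :
    M.F om t (ζ * M.g W) = (M.lam * ζ) * M.g (M.c om t (ζ * M.g W) * W) := by
  set c0 := M.c om t (ζ * M.g W) with hc0
  have h1 : (M.A - W) * M.D om t (ζ * M.g W) = M.A - c0 * W := by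
    rw [D, M.zg_add hz hW, ← hc0]
    have := M.AW_ne hW
    field_simp
    ring
  have h2 : rt M.q (M.A - W) * rt M.q (M.D om t (ζ * M.g W)) = rt M.q (M.A - c0 * W) := by
    rw [← rt_mul M.q (M.AW_re hW) (M.D_re h ht0 ht1 _), h1]
  have h3 : M.F om t (ζ * M.g W) = M.lam * (ζ * (rt M.q (M.A - W) * rt M.q (M.D om t (ζ * M.g W)))) := by
    rw [F]
    have : M.g W = rt M.q (M.A - W) := rfl
    rw [this]
    ring
  rw [h3, h2]
  rw [g]
  ring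

theorem lz_pow {ζ : ℂ} (hz : ζ ^ M.q = -1) (i : ℕ) : (M.lam ^ i * ζ) ^ M.q = -1 := by
  rw [mul_pow, hz, ← pow_mul, mul_comm i, pow_mul, M.lam_pow, one_pow, one_mul]

theorem iter_g {om t : ℝ} (h : M.Ok om) (hom : 0 ≤ om) (ht0 : 0 ≤ t) (ht1 : t ≤ 1) {ζ W : ℂ} (hz : ζ ^ M.q = -1)
    (hW : ‖W‖ ≤ M.rb) : ∃ φ : ℕ → ℝ, φ 0 = 0 ∧ (∀ i, om ≤ φ (i + 1) - φ i ∧ φ (i + 1) - φ i ≤ 2 * om) ∧
      (∀ i, (M.F om t)^[i] (ζ * M.g W) = (M.lam ^ i * ζ) * M.g (Complex.exp (-(φ i * Complex.I)) * W)) ∧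
      (‖W‖ ≤ M.ra → ∀ i, φ i = i * (om * (1 + t))) := by
  set w : ℕ → ℂ := fun i => (M.F om t)^[i] (ζ * M.g W) with hw
  set φ : ℕ → ℝ := fun i => ∑ j ∈ Finset.range i, om * (M.x1 (w j) + t * M.tau (w j)) with hφ
  have hφs : ∀ i, φ (i + 1) = φ i + om * (M.x1 (w i) + t * M.tau (w i)) := fun i => by
    rw [hφ]; exact Finset.sum_range_succ _ _
  have hn : ∀ i, ‖Complex.exp (-(φ i * Complex.I)) * W‖ = ‖W‖ := by
    intro i
    rw [norm_mul, Complex.norm_exp]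
    simp
  have hWA : ‖W‖ < M.A := hW.trans_lt M.rbA
  have hmain : ∀ i, w i = (M.lam ^ i * ζ) * M.g (Complex.exp (-(φ i * Complex.I)) * W) := by
    intro i
    induction i with
    | zero => simp [hw, hφ]
    | succ i ih =>
      have h1 : w (i + 1) = M.F om t (w i) := by
        rw [hw]; exact Function.iterate_succ_apply' _ _ _
      rw [h1, ih, M.F_g h ht0 ht1 (M.lz_pow hz i) (by rw [hn i]; exact hWA), ← ih]
      rw [← mul_assoc, ← pow_succ', ← mul_assoc (M.c om t (w i)), hφs i]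
      congr 3
      rw [c, ← Complex.exp_add]
      congr 1
      push_cast
      ring
  have hreg : ∀ i, ‖1 + M.A * w i ^ M.q‖ = ‖W‖ * ‖w i‖ ^ M.q := by
    intro i
    rw [hmain i, M.zg_reg (M.lz_pow hz i) (by rw [hn i]; exact hWA), hn i]
  have hx1 : ∀ i, M.x1 (w i) = 1 := by
    intro i
    apply M.x1_one
    apply le_of_lt
    apply reg1 M.hA0 M.hs2 M.hrb
    rw [hreg i]
    exact mul_le_mul_of_nonneg_right hW (by positivity)
  refine ⟨φ, by simp [hφ], ?_, hmain, ?_⟩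
  · intro i
    rw [hφs i, hx1 i]
    have h1 := M.tau_nn (w i)
    have h2 := M.tau_le (w i)
    have h3 : 0 ≤ t * M.tau (w i) := by positivity
    have h4 : t * M.tau (w i) ≤ 1 := by nlinarith
    constructor <;> nlinarith
  · intro hra i
    have htau : ∀ j, M.tau (w j) = 1 := by
      intro j
      apply M.tau_one
      rw [hreg j]
      exact mul_le_mul_of_nonneg_right hra (by positivity)
    rw [hφ]
    simp only [hx1, htau, mul_one]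
    rw [Finset.sum_const, Finset.card_range, nsmul_eq_mul]

end Mod

end Pool.Agent.Y297
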