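import Pool.Agent.Y297.Belt

/-!
# Smallness of compactly supported functions depending smoothly on a parameter
-/

set_option autoImplicit false
set_option linter.all false

open MeasureTheory Set Metric Filter Topology
open scoped ContDiff FourierTransform ComplexConjugate InnerProductSpace

noncomputable section

namespace Pool.Agent.Y297

/-- the derivative in the second variable is smooth -/
theorem cda_fderiv {F : Type} [NormedAddCommGroup F] [NormedSpace ℝ F] {G : ℝ → ℂ → F} {p₀ : ℝ} {w : ℂ}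
    {n : ℕ} (hG : ContDiffAt ℝ (n + 1 : ℕ) (Function.uncurry G) (p₀, w)) :
    ContDiffAt ℝ n (Function.uncurry fun p w => fderiv ℝ (G p) w) (p₀, w) := by
  have h1 : ContDiffAt ℝ (n + 1 : ℕ) (Function.uncurry fun (x : ℝ × ℂ) (w' : ℂ) => G x.1 w')
      ((p₀, w), ((p₀, w) : ℝ × ℂ).2) := by
    have h2 : ContDiffAt ℝ (n + 1 : ℕ) (fun y : (ℝ × ℂ) × ℂ => ((y.1.1, y.2) : ℝ × ℂ)) ((p₀, w), w) := by
      fun_prop
    exact hG.comp ((p₀, w), w) h2
  have h3 := ContDiffAt.fderiv (m := (n : WithTop ℕ∞)) (n := ((n + 1 : ℕ) : WithTop ℕ∞)) h1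
    (contDiffAt_snd (𝕜 := ℝ) (p := (p₀, w))) (by norm_cast)
  exact h3

theorem par_small {C : Set ℂ} (hC : IsCompact C) (p₀ : ℝ) : ∀ (j : ℕ) {F : Type} [NormedAddCommGroup F]
    [NormedSpace ℝ F] (G : ℝ → ℂ → F), (∀ w, ContDiffAt ℝ j (Function.uncurry G) (p₀, w)) →
    (∀ p, ∀ w, w ∉ C → G p w = 0) → (∀ w, G p₀ w = 0) → ∀ ε : ℝ, 0 < ε →
    ∀ᶠ p in 𝓝 p₀, ∀ w, ‖iteratedFDeriv ℝ j (G p) w‖ ≤ ε := by
  intro j
  induction j with
  | zero =>
    intro F _ _ G hG hs h0 ε hε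
    have h1 : ∀ᶠ p in 𝓝 p₀, ∀ w ∈ C, ‖G p w‖ ≤ ε := by
      apply hC.eventually_forall_of_forall_eventually
      intro w _
      have h2 : Tendsto (fun z : ℝ × ℂ => ‖G z.1 z.2‖) (𝓝 (p₀, w)) (𝓝 ‖G p₀ w‖) :=
        ((hG w).continuousAt.norm)
      rw [h0 w, norm_zero] at h2
      exact (h2.eventually (gt_mem_nhds hε)).mono fun z hz => hz.le
    filter_upwards [h1] with p hp w
    rw [norm_iteratedFDeriv_zero]
    by_cases hw : w ∈ C
    · exact hp w hw
    · rw [hs p w hw, norm_zero]; exact hε.le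
  | succ j ih =>
    intro F _ _ G hG hs h0 ε hε
    have h1 := ih (fun p w => fderiv ℝ (G p) w) (fun w => cda_fderiv (hG w)) (by
      intro p w hw
      have : G p =ᶠ[𝓝 w] fun _ => (0 : F) := by
        filter_upwards [hC.isClosed.isOpen_compl.mem_nhds hw] with z hz
        exact hs p z hz
      show fderiv ℝ (G p) w = 0
      rw [this.fderiv_eq]
      simp) (by
      intro w
      have : G p₀ = fun _ => (0 : F) := by
        funext z
        exact h0 z
      show fderiv ℝ (G p₀) w = 0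
      rw [this]
      simp) ε hε
    filter_upwards [h1] with p hp w
    rw [← norm_iteratedFDeriv_fderiv]
    exact hp w

theorem par_contDiff {C : Set ℂ} (hC : IsCompact C) (p₀ : ℝ) {n : ℕ} {F : Type} [NormedAddCommGroup F]
    [NormedSpace ℝ F] (G : ℝ → ℂ → F) (hG : ∀ w, ContDiffAt ℝ n (Function.uncurry G) (p₀, w))
    (hs : ∀ p, ∀ w, w ∉ C → G p w = 0) :
    ∀ᶠ p in 𝓝 p₀, ContDiff ℝ n (G p) := by
  have h1 : ∀ᶠ p in 𝓝 p₀, ∀ w ∈ C, ContDiffAt ℝ n (G p) w := by
    apply hC.eventually_forall_of_forall_eventually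
    intro w _
    have h2 := (hG w).eventually (by simp)
    filter_upwards [h2] with z hz
    have h3 : ContDiffAt ℝ n (fun w : ℂ => ((z.1, w) : ℝ × ℂ)) z.2 := by fun_prop
    exact ContDiffAt.comp (g := Function.uncurry G) z.2 hz h3
  filter_upwards [h1] with p hp
  rw [contDiff_iff_contDiffAt]
  intro w
  by_cases hw : w ∈ C
  · exact hp w hw
  · have : G p =ᶠ[𝓝 w] fun _ => (0 : F) := by
      filter_upwards [hC.isClosed.isOpen_compl.mem_nhds hw] with z hz
      exact hs p z hz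
    exact contDiffAt_const.congr_of_eventuallyEq this

theorem iter_supp {C : Set ℂ} (hC : IsCompact C) {F : Type} [NormedAddCommGroup F]
    [NormedSpace ℝ F] (g : ℂ → F) (hs : ∀ w, w ∉ C → g w = 0) (j : ℕ) (w : ℂ) (hw : w ∉ C) :
    iteratedFDeriv ℝ j g w = 0 := by
  have : g =ᶠ[𝓝 w] fun _ => (0 : F) := by
    filter_upwards [hC.isClosed.isOpen_compl.mem_nhds hw] with z hz
    exact hs z hz
  rw [(this.iteratedFDeriv ℝ j).eq_of_nhds]
  simp

theorem int_bd {C : Set ℂ} (hC : IsCompact C) {g : ℂ → ℝ} (hg : Continuous g) (h0 : ∀ w, 0 ≤ g w)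
    (hs : ∀ w, w ∉ C → g w = 0) {ε : ℝ} (hε : ∀ w, g w ≤ ε) :
    Integrable g ∧ ∫ w, g w ≤ volume.real C * ε := by
  have hcs : HasCompactSupport g := HasCompactSupport.intro hC (fun w hw => hs w hw)
  refine ⟨hg.integrable_of_hasCompactSupport hcs, ?_⟩
  have h1 : ∫ w, g w = ∫ w in C, g w := by
    rw [setIntegral_eq_integral_of_forall_compl_eq_zero]
    intro w hw
    exact hs w hw
  rw [h1]
  have h2 : ∫ w in C, g w ≤ ∫ w in C, ε := by
    apply setIntegral_mono_on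
    · exact (hg.integrable_of_hasCompactSupport hcs).integrableOn
    · exact integrableOn_const hC.measure_lt_top.ne
    · exact hC.measurableSet
    · intro w _
      exact hε w
  refine h2.trans ?_
  rw [setIntegral_const]
  simp

theorem wn_of_bd {C : Set ℂ} (hC : IsCompact C) : ∃ K : ℝ, 0 < K ∧ ∀ (g : ℂ → ℂ) (ε : ℝ),
    ContDiff ℝ 3 g → (∀ w, w ∉ C → g w = 0) → (∀ j ≤ 3, ∀ w, ‖iteratedFDeriv ℝ j g w‖ ≤ ε) →
    Wn (K * ε) g := by
  have hfr : (Module.finrank ℝ ℂ : ℝ) < 3 := by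
    rw [Complex.finrank_real_complex]; norm_num
  have hJ := integrable_one_add_norm (E := ℂ) (μ := volume) (r := 3) hfr
  set J : ℝ := ∫ ξ : ℂ, (1 + ‖ξ‖) ^ (-(3 : ℝ)) with hJdef
  have hJ0 : 0 ≤ J := integral_nonneg fun ξ => by positivity
  set V : ℝ := volume.real C with hV
  have hV0 : 0 ≤ V := measureReal_nonneg
  refine ⟨V + 4 * (33 * V) * J + 4 * (33 * V) + 1, by positivity, ?_⟩
  intro g ε hg hs hbd
  have hε0 : 0 ≤ ε := (norm_nonneg _).trans (hbd 0 (by norm_num) 0)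
  have hi : ∀ j ≤ 3, Integrable (fun v => ‖iteratedFDeriv ℝ j g v‖) ∧
      ∫ v, ‖iteratedFDeriv ℝ j g v‖ ≤ V * ε := by
    intro j hj
    apply int_bd hC
    · exact (hg.continuous_iteratedFDeriv (by exact_mod_cast hj)).norm
    · intro w; exact norm_nonneg _
    · intro w hw
      rw [iter_supp hC g hs j w hw, norm_zero]
    · exact hbd j hj
  have hgi : Integrable g := by
    have h1 : HasCompactSupport g := HasCompactSupport.intro hC (fun w hw => hs w hw)
    exact hg.continuous.integrable_of_hasCompactSupport h1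
  have hgn : ∫ v, ‖g v‖ ≤ V * ε := by
    have := (hi 0 (by norm_num)).2
    simpa only [norm_iteratedFDeriv_zero] using this
  have hb0 : ∀ ξ, ‖𝓕 g ξ‖ ≤ V * ε := by
    intro ξ
    refine le_trans ?_ hgn
    exact VectorFourier.norm_fourierIntegral_le_integral_norm _ _ (innerₗ ℂ) g ξ
  have hb3 : ∀ ξ, ‖ξ‖ ^ 3 * ‖𝓕 g ξ‖ ≤ 32 * V * ε := by
    intro ξ
    have h1 := Real.pow_mul_norm_iteratedFDeriv_fourier_le (f := g) (K := 0) (N := 3) (by exact_mod_cast hg)
      (by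
        intro k n hk hn
        have hk0 : k = 0 := by exact_mod_cast (le_antisymm hk (by positivity))
        subst hk0
        simp only [pow_zero, one_mul]
        exact (hi n (by exact_mod_cast hn)).1) (k := 0) (n := 3) (by norm_num) (by norm_num) ξ
    rw [norm_iteratedFDeriv_zero] at h1
    refine h1.trans ?_
    have h2 : ∑ p ∈ Finset.range (0 + 1) ×ˢ Finset.range (3 + 1), ∫ (v : ℂ), ‖v‖ ^ p.1 *
        ‖iteratedFDeriv ℝ p.2 g v‖ ≤ ∑ p ∈ Finset.range (0 + 1) ×ˢ Finset.range (3 + 1), V * ε := by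
      apply Finset.sum_le_sum
      intro p hp
      rw [Finset.mem_product, Finset.mem_range, Finset.mem_range] at hp
      have hp1 : p.1 = 0 := by omega
      rw [hp1]
      simp only [pow_zero, one_mul]
      exact (hi p.2 (by omega)).2
    have h3 : ∑ p ∈ Finset.range (0 + 1) ×ˢ Finset.range (3 + 1), V * ε = 4 * (V * ε) := by
      rw [Finset.sum_const, Finset.card_product]
      simp
    rw [h3] at h2
    calc (2 * Real.pi) ^ 0 * (2 * ((0:ℕ):ℝ) + 2) ^ 3 * ∑ p ∈ Finset.range (0 + 1) ×ˢ Finset.range (3 + 1),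
          ∫ (v : ℂ), ‖v‖ ^ p.1 * ‖iteratedFDeriv ℝ p.2 g v‖
        ≤ (2 * Real.pi) ^ 0 * (2 * ((0:ℕ):ℝ) + 2) ^ 3 * (4 * (V * ε)) :=
          mul_le_mul_of_nonneg_left h2 (by positivity)
      _ = 32 * V * ε := by push_cast; ring
  have hb : ∀ ξ, ‖𝓕 g ξ‖ ≤ 4 * (33 * V) * ε * (1 + ‖ξ‖) ^ (-(3 : ℝ)) := by
    intro ξ
    have h1 : (1 + ‖ξ‖) ^ (-(3 : ℝ)) = ((1 + ‖ξ‖) ^ 3)⁻¹ := by
      rw [Real.rpow_neg (by positivity)]
      norm_cast
    rw [h1, ← div_eq_mul_inv, le_div_iff₀ (by positivity)]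
    have h2 : (1 + ‖ξ‖) ^ 3 ≤ 4 * (1 + ‖ξ‖ ^ 3) := by
      have := norm_nonneg ξ
      nlinarith [mul_nonneg this this, sq_nonneg (‖ξ‖ - 1), mul_nonneg this (sq_nonneg (‖ξ‖ - 1))]
    calc ‖𝓕 g ξ‖ * (1 + ‖ξ‖) ^ 3 ≤ ‖𝓕 g ξ‖ * (4 * (1 + ‖ξ‖ ^ 3)) :=
          mul_le_mul_of_nonneg_left h2 (norm_nonneg _)
      _ = 4 * (‖𝓕 g ξ‖ + ‖ξ‖ ^ 3 * ‖𝓕 g ξ‖) := by ring
      _ ≤ 4 * (V * ε + 32 * V * ε) := by
          have := hb0 ξ
          have := hb3 ξ
          linarith
      _ = 4 * (33 * V) * ε := by ring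
  have hcont : Continuous (𝓕 g) := by
    have := VectorFourier.fourierIntegral_continuous Real.continuous_fourierChar
      (by exact continuous_inner) hgi (μ := volume) (L := innerₗ ℂ)
    exact this
  have hint : Integrable (𝓕 g) := by
    refine (hJ.const_mul (4 * (33 * V) * ε)).mono' hcont.aestronglyMeasurable ?_
    exact Filter.Eventually.of_forall hb
  refine ⟨𝓕 g, hcont, ?_, hint, ?_, ?_⟩
  · intro ξ
    refine (hb0 ξ).trans ?_
    apply mul_le_mul_of_nonneg_right _ hε0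
    have : 0 ≤ 4 * (33 * V) * J := by positivity
    have : 0 ≤ 4 * (33 * V) := by positivity
    linarith
  · calc ∫ ξ, ‖𝓕 g ξ‖ ≤ ∫ ξ, 4 * (33 * V) * ε * (1 + ‖ξ‖) ^ (-(3 : ℝ)) :=
          integral_mono hint.norm (hJ.const_mul _) hb
      _ = 4 * (33 * V) * ε * J := integral_const_mul _ _
      _ = (4 * (33 * V) * J) * ε := by ring
      _ ≤ _ := by
          apply mul_le_mul_of_nonneg_right _ hε0
          have : 0 ≤ 4 * (33 * V) := by positivity
          linarith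
  · exact (Continuous.fourierInv_fourier_eq hg.continuous hgi hint).symm

end Pool.Agent.Y297
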