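import Pool.Agent.Y297.Par

/-!
# Smallness in the Wiener norm
-/

set_option autoImplicit false
set_option linter.all false

open MeasureTheory Set Metric Filter Topology
open scoped ContDiff FourierTransform ComplexConjugate InnerProductSpace

noncomputable section

namespace Pool.Agent.Y297

theorem wn_small {C : Set ℂ} (hC : IsCompact C) (p₀ : ℝ) (G : ℝ → ℂ → ℂ)
    (hG : ∀ w, ContDiffAt ℝ (3 : ℕ) (Function.uncurry G) (p₀, w))
    (hs : ∀ p, ∀ w, w ∉ C → G p w = 0) (h0 : ∀ w, G p₀ w = 0) (ε : ℝ) (hε : 0 < ε) :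
    ∀ᶠ p in 𝓝 p₀, Wn ε (G p) ∧ (∀ x y, ‖G p x - G p y‖ ≤ ε * ‖x - y‖) := by
  obtain ⟨K, hK, hKK⟩ := wn_of_bd hC
  have h1 : ∀ j ≤ 3, ∀ᶠ p in 𝓝 p₀, ∀ w, ‖iteratedFDeriv ℝ j (G p) w‖ ≤ ε / K := by
    intro j hj
    exact par_small hC p₀ j G (fun w => (hG w).of_le (by exact_mod_cast hj)) hs h0 _ (by positivity)
  have h2 : ∀ᶠ p in 𝓝 p₀, ∀ w, ‖iteratedFDeriv ℝ 1 (G p) w‖ ≤ ε :=
    par_small hC p₀ 1 G (fun w => (hG w).of_le (by norm_num)) hs h0 _ hε
  have h3 := par_contDiff hC p₀ G hG hs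
  filter_upwards [h1 0 (by norm_num), h1 1 (by norm_num), h1 2 (by norm_num), h1 3 (by norm_num), h2, h3]
    with p a0 a1 a2 a3 b1 cd
  constructor
  · have h4 := hKK (G p) (ε / K) cd (hs p) (by
      intro j hj w
      interval_cases j
      · exact a0 w
      · exact a1 w
      · exact a2 w
      · exact a3 w)
    have e : K * (ε / K) = ε := by field_simp
    rwa [e] at h4
  · intro x y
    have hd : Differentiable ℝ (G p) := cd.differentiable (by norm_num)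
    refine Convex.norm_image_sub_le_of_norm_fderiv_le (𝕜 := ℝ) (s := univ) (fun z _ => hd z) ?_ convex_univ
      (mem_univ y) (mem_univ x)
    intro z _
    have := b1 z
    rwa [norm_iteratedFDeriv_one] at this

theorem Wn.mono {ε ε' : ℝ} {g : ℂ → ℂ} (h : Wn ε g) (hle : ε ≤ ε') : Wn ε' g := by
  obtain ⟨b, h1, h2, h3, h4, h5⟩ := h
  exact ⟨b, h1, fun ξ => (h2 ξ).trans hle, h3, h4.trans hle, h5⟩

theorem Wn.add {ε ε' : ℝ} {g g' : ℂ → ℂ} (h : Wn ε g) (h' : Wn ε' g') : Wn (ε + ε') (fun z => g z + g' z) := by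
  obtain ⟨b, h1, h2, h3, h4, h5⟩ := h
  obtain ⟨b', h1', h2', h3', h4', h5'⟩ := h'
  refine ⟨fun ξ => b ξ + b' ξ, h1.add h1', fun ξ => (norm_add_le _ _).trans (add_le_add (h2 ξ) (h2' ξ)),
    h3.add h3', ?_, ?_⟩
  · calc ∫ ξ, ‖b ξ + b' ξ‖ ≤ ∫ ξ, (‖b ξ‖ + ‖b' ξ‖) :=
          integral_mono (h3.add h3').norm (h3.norm.add h3'.norm) (fun ξ => norm_add_le _ _)
      _ = (∫ ξ, ‖b ξ‖) + ∫ ξ, ‖b' ξ‖ := integral_add h3.norm h3'.norm
      _ ≤ ε + ε' := add_le_add h4 h4'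
  · funext z
    rw [h5, h5', fi_eq, fi_eq, fi_eq, ← integral_add (Exi h3 z) (Exi h3' z)]
    congr 1
    funext ξ
    ring

theorem Wn.tsum {ε : ℕ → ℝ} {g : ℕ → ℂ → ℂ} (h : ∀ n, Wn (ε n) (g n)) (hε : Summable ε) {E : ℝ}
    (hE : ∑' n, ε n ≤ E) : Wn E (fun z => ∑' n, g n z) := by
  choose b h1 h2 h3 h4 h5 using h
  have hsb : ∀ ξ, Summable fun n => b n ξ := fun ξ => Summable.of_norm_bounded hε (fun n => h2 n ξ)
  have hc : Continuous fun ξ => ∑' n, b n ξ := continuous_tsum h1 hε h2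
  have hsi : Summable fun n => ∫ ξ, ‖b n ξ‖ :=
    Summable.of_nonneg_of_le (fun n => integral_nonneg fun _ => norm_nonneg _) h4 hε
  have hint : Integrable fun ξ => ∑' n, b n ξ := by
    have hle : ∀ ξ, ‖∑' n, b n ξ‖ₑ ≤ ∑' n, ‖b n ξ‖ₑ := fun ξ => enorm_tsum_le_tsum_enorm
    refine ⟨hc.aestronglyMeasurable, ?_⟩
    unfold HasFiniteIntegral
    refine (lintegral_mono hle).trans_lt ?_
    rw [lintegral_tsum (fun n => (h1 n).measurable.enorm.aemeasurable)]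
    have e : ∀ n, ∫⁻ ξ, ‖b n ξ‖ₑ = ENNReal.ofReal (∫ ξ, ‖b n ξ‖) := fun n => by
      rw [ofReal_integral_norm_eq_lintegral_enorm (h3 n)]
    simp only [e]
    rw [← ENNReal.ofReal_tsum_of_nonneg (fun n => integral_nonneg fun _ => norm_nonneg _) hsi]
    exact ENNReal.ofReal_lt_top
  have hE0 : ∀ ξ, ‖∑' n, b n ξ‖ ≤ E := by
    intro ξ
    have hs1 : Summable fun n => ‖b n ξ‖ := Summable.of_nonneg_of_le (fun n => norm_nonneg _) (fun n => h2 n ξ) hε
    refine (norm_tsum_le_tsum_norm hs1).trans (le_trans ?_ hE)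
    exact hs1.tsum_le_tsum (fun n => h2 n ξ) hε
  refine ⟨fun ξ => ∑' n, b n ξ, hc, hE0, hint, ?_, ?_⟩
  · have hnn : ∀ ξ, Summable fun n => ‖b n ξ‖ := fun ξ =>
      Summable.of_nonneg_of_le (fun n => norm_nonneg _) (fun n => h2 n ξ) hε
    have hcn : Continuous fun ξ => ∑' n, ‖b n ξ‖ :=
      continuous_tsum (fun n => (h1 n).norm) hε (fun n ξ => by rw [norm_norm]; exact h2 n ξ)
    have hs3 : Summable fun n => ∫ ξ, ‖‖b n ξ‖‖ := by simpa only [norm_norm] using hsi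
    have h6 := hasSum_integral_of_summable_integral_norm (F := fun n ξ => ‖b n ξ‖) (μ := volume)
      (fun n => (h3 n).norm) hs3
    have hin : Integrable fun ξ => ∑' n, ‖b n ξ‖ := by
      refine ⟨hcn.aestronglyMeasurable, ?_⟩
      unfold HasFiniteIntegral
      have hle : ∀ ξ, ‖∑' n, ‖b n ξ‖‖ₑ ≤ ∑' n, ‖b n ξ‖ₑ := fun ξ => by
        refine enorm_tsum_le_tsum_enorm.trans ?_
        apply ENNReal.tsum_le_tsum
        intro n
        rw [enorm_norm]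
      refine (lintegral_mono hle).trans_lt ?_
      rw [lintegral_tsum (fun n => (h1 n).measurable.enorm.aemeasurable)]
      have e : ∀ n, ∫⁻ ξ, ‖b n ξ‖ₑ = ENNReal.ofReal (∫ ξ, ‖b n ξ‖) := fun n => by
        rw [ofReal_integral_norm_eq_lintegral_enorm (h3 n)]
      simp only [e]
      rw [← ENNReal.ofReal_tsum_of_nonneg (fun n => integral_nonneg fun _ => norm_nonneg _) hsi]
      exact ENNReal.ofReal_lt_top
    calc ∫ ξ, ‖∑' n, b n ξ‖ ≤ ∫ ξ, ∑' n, ‖b n ξ‖ :=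
          integral_mono hint.norm hin (fun ξ => norm_tsum_le_tsum_norm (hnn ξ))
      _ = ∑' n, ∫ ξ, ‖b n ξ‖ := h6.tsum_eq.symm
      _ ≤ ∑' n, ε n := hsi.tsum_le_tsum h4 hε
      _ ≤ E := hE
  · funext z
    rw [fi_eq]
    have hs3 : Summable fun n => ∫ ξ, ‖Ex ξ z * b n ξ‖ := by
      simpa only [norm_mul, Ex_norm, one_mul] using hsi
    have h6 := hasSum_integral_of_summable_integral_norm (F := fun n ξ => Ex ξ z * b n ξ) (μ := volume)
      (fun n => Exi (h3 n) z) hs3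
    have h7 : ∀ n, g n z = ∫ ξ, Ex ξ z * b n ξ := fun n => by rw [h5 n, fi_eq]
    simp only [h7]
    rw [h6.tsum_eq]
    congr 1
    funext ξ
    rw [tsum_mul_left]

end Pool.Agent.Y297
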