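import Mathlib

/-!
# The root `z ^ (-1/q)` and the map `chi`
-/

set_option autoImplicit false
set_option linter.all false

open Set Metric Filter Topology
open scoped ContDiff ComplexConjugate

noncomputable section

namespace Pool.Agent.Y297

/-- `z ^ (-1/q)` -/
def rt (q : ℕ) (z : ℂ) : ℂ := Complex.exp (-(Complex.log z) / q)

theorem rt_ne (q : ℕ) (z : ℂ) : rt q z ≠ 0 := Complex.exp_ne_zero _

theorem rt_pow {q : ℕ} (hq : 0 < q) {z : ℂ} (hz : z ≠ 0) : rt q z ^ q = z⁻¹ := by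
  have hq' : (q : ℂ) ≠ 0 := by exact_mod_cast hq.ne'
  rw [rt, ← Complex.exp_nat_mul]
  have : (q : ℂ) * (-(Complex.log z) / q) = -(Complex.log z) := by field_simp
  rw [this, Complex.exp_neg, Complex.exp_log hz]

theorem rt_one (q : ℕ) : rt q 1 = 1 := by
  rw [rt, Complex.log_one]; simp

theorem rt_norm_pow {q : ℕ} (hq : 0 < q) {z : ℂ} (hz : z ≠ 0) : ‖rt q z‖ ^ q = ‖z‖⁻¹ := by
  rw [← norm_pow, rt_pow hq hz, norm_inv]

theorem rt_mul (q : ℕ) {x y : ℂ} (hx : 0 < x.re) (hy : 0 < y.re) : rt q (x * y) = rt q x * rt q y := by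
  have hx0 : x ≠ 0 := by rintro rfl; simp at hx
  have hy0 : y ≠ 0 := by rintro rfl; simp at hy
  have h1 : |x.arg| < Real.pi / 2 := Complex.abs_arg_lt_pi_div_two_iff.2 (Or.inl hx)
  have h2 : |y.arg| < Real.pi / 2 := Complex.abs_arg_lt_pi_div_two_iff.2 (Or.inl hy)
  rw [abs_lt] at h1 h2
  have h3 : Complex.log (x * y) = Complex.log x + Complex.log y := by
    rw [Complex.log_mul_eq_add_log_iff hx0 hy0]
    constructor <;> linarith [Real.pi_pos]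
  rw [rt, rt, rt, h3, ← Complex.exp_add]
  congr 1
  ring

theorem rt_deriv (q : ℕ) {z : ℂ} (hz : 0 < z.re) :
    HasDerivAt (rt q) (rt q z * (-(z⁻¹) / q)) z := by
  have h1 : HasDerivAt Complex.log z⁻¹ z := Complex.hasDerivAt_log (Or.inl hz)
  exact (h1.neg.div_const (q : ℂ)).cexp

theorem rt_contDiffAt (q : ℕ) {z : ℂ} (hz : 0 < z.re) {n : WithTop ℕ∞} : ContDiffAt ℝ n (rt q) z := by
  have h1 : ContDiffAt ℂ n Complex.log z := Complex.contDiffAt_log (Or.inl hz)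
  have h2 : ContDiffAt ℂ n (rt q) z := (h1.neg.div_const (q : ℂ)).cexp
  exact h2.restrict_scalars ℝ

theorem rt_cont (q : ℕ) {z : ℂ} (hz : 0 < z.re) : ContinuousAt (rt q) z :=
  (rt_deriv q hz).continuousAt

theorem rt_exp (q : ℕ) {om : ℝ} (h : |om| < Real.pi) :
    rt q (Complex.exp (-(om * Complex.I))) = Complex.exp (om * Complex.I / q) := by
  rw [abs_lt] at h
  rw [rt, Complex.log_exp]
  · congr 1; ring
  · simp; linarith
  · simp; linarith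

theorem rt_inv_pow {q : ℕ} (hq : 0 < q) {s : ℝ} (hs : 0 < s) : rt q (((s ^ q)⁻¹ : ℝ) : ℂ) = s := by
  have hq' : (q : ℝ) ≠ 0 := by exact_mod_cast hq.ne'
  rw [rt, ← Complex.ofReal_log (by positivity)]
  have h1 : -((Real.log ((s ^ q)⁻¹) : ℝ) : ℂ) / (q : ℂ) = ((Real.log s : ℝ) : ℂ) := by
    rw [Real.log_inv, Real.log_pow]
    push_cast
    have : (q : ℂ) ≠ 0 := by exact_mod_cast hq.ne'
    field_simp
  rw [h1, ← Complex.ofReal_exp, Real.exp_log hs]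

theorem re_pos_of_near {D : ℂ} (h : ‖D - 1‖ < 1) : 0 < D.re := by
  have h1 : |(D - 1).re| ≤ ‖D - 1‖ := Complex.abs_re_le_norm _
  rw [abs_le] at h1
  simp only [Complex.sub_re, Complex.one_re] at h1
  linarith

theorem re_pos_BA {A B : ℝ} (hA : 0 ≤ A) (hAB : A < B) {u : ℂ} (hu : ‖u‖ ≤ 1) : 0 < ((B : ℂ) - A * u).re := by
  have h1 : (A * u).re ≤ ‖(A : ℂ) * u‖ := Complex.re_le_norm _
  rw [norm_mul, Complex.norm_real, Real.norm_of_nonneg hA] at h1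
  have h2 : A * ‖u‖ ≤ A := by nlinarith
  simp only [Complex.sub_re, Complex.ofReal_re]
  linarith

/-- the map onto the invariant region around zero -/
def chi (q : ℕ) (A B : ℝ) (w : ℂ) : ℂ := w * rt q (B - A * w ^ q)

section chi

variable {q : ℕ} {A B : ℝ}

theorem chi_zero (q : ℕ) (A B : ℝ) : chi q A B 0 = 0 := by simp [chi]

theorem pow_le_one' {w : ℂ} (hw : ‖w‖ ≤ 1) (q : ℕ) : ‖w ^ q‖ ≤ 1 := by
  rw [norm_pow]; exact pow_le_one₀ (norm_nonneg _) hw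

theorem BA_ne (hA : 0 ≤ A) (hAB : A < B) {u : ℂ} (hu : ‖u‖ ≤ 1) : (B : ℂ) - A * u ≠ 0 := by
  intro h
  have := re_pos_BA hA hAB hu
  rw [h] at this
  simp at this

theorem chi_pow (hq : 0 < q) (hA : 0 ≤ A) (hAB : A < B) {w : ℂ} (hw : ‖w‖ ≤ 1) :
    chi q A B w ^ q = w ^ q / (B - A * w ^ q) := by
  rw [chi, mul_pow, rt_pow hq (BA_ne hA hAB (pow_le_one' hw q)), div_eq_mul_inv]

theorem chi_one_add (hq : 0 < q) (hA : 0 ≤ A) (hAB : A < B) {w : ℂ} (hw : ‖w‖ ≤ 1) :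
    1 + A * chi q A B w ^ q = B / (B - A * w ^ q) := by
  rw [chi_pow hq hA hAB hw]
  have := BA_ne hA hAB (pow_le_one' hw q)
  field_simp
  ring

theorem chi_region (hq : 0 < q) (hA : 0 ≤ A) (hAB : A < B) {w : ℂ} (hw : ‖w‖ < 1) :
    B * ‖chi q A B w‖ ^ q < ‖1 + A * chi q A B w ^ q‖ := by
  have h0 := BA_ne hA hAB (pow_le_one' hw.le q)
  have h1 : 0 < ‖(B : ℂ) - A * w ^ q‖ := norm_pos_iff.2 h0
  rw [chi_one_add hq hA hAB hw.le, ← norm_pow, chi_pow hq hA hAB hw.le, norm_div, norm_div,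
    Complex.norm_real, Real.norm_of_nonneg (by linarith : 0 ≤ B), ← mul_div_assoc,
    div_lt_div_iff_of_pos_right h1]
  have h2 : ‖w ^ q‖ < 1 := by rw [norm_pow]; exact pow_lt_one₀ (norm_nonneg _) hw hq.ne'
  nlinarith

theorem chi_surj (hq : 0 < q) (hA : 0 < A) (hAB : A < B) {w : ℂ} (hw : B * ‖w‖ ^ q < ‖1 + A * w ^ q‖) :
    ∃ w', ‖w'‖ < 1 ∧ chi q A B w' = w := by
  have hB : 0 < B := by linarith
  have h0 : (1 : ℂ) + A * w ^ q ≠ 0 := by
    intro h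
    rw [h, norm_zero] at hw
    have : 0 ≤ B * ‖w‖ ^ q := by positivity
    linarith
  have h00 : 0 < ‖(1 : ℂ) + A * w ^ q‖ := norm_pos_iff.2 h0
  set u : ℂ := B * w ^ q / (1 + A * w ^ q) with hu
  have hu1 : ‖u‖ < 1 := by
    rw [hu, norm_div, norm_mul, Complex.norm_real, Real.norm_of_nonneg hB.le, norm_pow, div_lt_one h00]
    exact hw
  have h1 : (B : ℂ) - A * u = B / (1 + A * w ^ q) := by
    rw [hu]; field_simp; ring
  have h2 := BA_ne hA.le hAB hu1.le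
  refine ⟨w / rt q (B - A * u), ?_, ?_⟩
  · have h3 : (w / rt q (B - A * u)) ^ q = u := by
      rw [div_pow, rt_pow hq h2, div_inv_eq_mul, h1, hu]
      ring
    have h4 : ‖w / rt q (B - A * u)‖ ^ q < 1 := by rw [← norm_pow, h3]; exact hu1
    by_contra hne
    push Not at hne
    have := one_le_pow₀ hne (n := q)
    linarith
  · have h3 : (w / rt q (B - A * u)) ^ q = u := by
      rw [div_pow, rt_pow hq h2, div_inv_eq_mul, h1, hu]
      ring
    rw [chi, h3, div_mul_cancel₀ _ (rt_ne q _)]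

theorem chi_inj (hq : 0 < q) (hA : 0 ≤ A) (hAB : A < B) {w w' : ℂ} (hw : ‖w‖ ≤ 1) (hw' : ‖w'‖ ≤ 1)
    (h : chi q A B w = chi q A B w') : w = w' := by
  have hB : (B : ℂ) ≠ 0 := by exact_mod_cast (by linarith : B ≠ 0)
  have h1 : (B : ℂ) / (B - A * w ^ q) = B / (B - A * w' ^ q) := by
    rw [← chi_one_add hq hA hAB hw, ← chi_one_add hq hA hAB hw', h]
  have h2 : (B : ℂ) - A * w ^ q = B - A * w' ^ q := by
    have e1 := BA_ne hA hAB (pow_le_one' hw q)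
    have e2 := BA_ne hA hAB (pow_le_one' hw' q)
    rw [div_eq_div_iff e1 e2] at h1
    exact (mul_left_cancel₀ hB h1).symm
  rw [chi, chi, h2] at h
  exact mul_right_cancel₀ (rt_ne q _) h

theorem chi_deriv (hq : 0 < q) (hA : 0 ≤ A) (hAB : A < B) {w : ℂ} (hw : ‖w‖ ≤ 1) :
    ∃ d : ℂ, d ≠ 0 ∧ HasDerivAt (chi q A B) d w := by
  have h0 := BA_ne hA hAB (pow_le_one' hw q)
  have hre := re_pos_BA hA hAB (pow_le_one' hw q)
  have hB : (B : ℂ) ≠ 0 := by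
    have : B ≠ 0 := by linarith
    exact_mod_cast this
  have h1 : HasDerivAt (fun w : ℂ => (B : ℂ) - A * w ^ q) (-(A * (q * w ^ (q - 1)))) w := by
    have := ((hasDerivAt_pow q w).const_mul (A : ℂ)).const_sub (B : ℂ)
    exact this
  have h2 := (hasDerivAt_id w).mul ((rt_deriv q hre).comp w h1)
  refine ⟨_, ?_, h2⟩
  have hq' : (q : ℂ) ≠ 0 := by exact_mod_cast hq.ne'
  have e : (1 : ℂ) * ((rt q ∘ fun w : ℂ => (B : ℂ) - A * w ^ q) w) +
      id w * (rt q (B - A * w ^ q) * (-((B - A * w ^ q : ℂ))⁻¹ / q) * -(A * (q * w ^ (q - 1)))) =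
      rt q (B - A * w ^ q) * (B / (B - A * w ^ q)) := by
    have h3 : w * w ^ (q - 1) = w ^ q := by
      rw [← pow_succ', Nat.sub_add_cancel hq]
    simp only [Function.comp, id]
    have h4 : w * (rt q (B - A * w ^ q) * (-((B - A * w ^ q : ℂ))⁻¹ / q) * -(A * (q * w ^ (q - 1)))) =
        rt q (B - A * w ^ q) * (A * (w * w ^ (q - 1)) / (B - A * w ^ q)) := by
      field_simp
    rw [h4, h3]
    field_simp
    ring
  rw [e]
  exact mul_ne_zero (rt_ne q _) (div_ne_zero hB h0)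

end chi

theorem reg1 {q : ℕ} {A ρ s : ℝ} (hA : 0 < A) (hs : 0 < s) (hρ : ρ < A - (s ^ q)⁻¹) {w : ℂ}
    (hw : ‖1 + A * w ^ q‖ ≤ ρ * ‖w‖ ^ q) : ‖w‖ < s := by
  have h1 : A * ‖w‖ ^ q - 1 ≤ ‖1 + A * w ^ q‖ := by
    have h2 := norm_sub_norm_le ((A : ℂ) * w ^ q) (-1)
    rw [norm_neg, norm_one, norm_mul, Complex.norm_real, Real.norm_of_nonneg hA.le, norm_pow] at h2
    have : (A : ℂ) * w ^ q - -1 = 1 + A * w ^ q := by ring
    rwa [this] at h2
  have hsp : 0 < s ^ q := by positivity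
  have h3 : (s ^ q)⁻¹ * ‖w‖ ^ q ≤ 1 := by
    have h4 : 0 ≤ ‖w‖ ^ q := by positivity
    nlinarith
  by_contra hne
  push Not at hne
  have h5 : s ^ q ≤ ‖w‖ ^ q := pow_le_pow_left₀ hs.le hne q
  have h6 : 0 < ‖w‖ ^ q := lt_of_lt_of_le hsp h5
  have h7 : (s ^ q)⁻¹ * ‖w‖ ^ q < (A - ρ) * ‖w‖ ^ q := mul_lt_mul_of_pos_right (by linarith) h6
  have h8 : 1 ≤ (s ^ q)⁻¹ * ‖w‖ ^ q := by
    rw [← inv_mul_cancel₀ hsp.ne']
    exact mul_le_mul_of_nonneg_left h5 (by positivity)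
  nlinarith

theorem reg2 {q : ℕ} {A B s : ℝ} (hA : 0 < A) (hs : 0 < s) (hB : B = A + (s ^ q)⁻¹) {w : ℂ}
    (hw : B * ‖w‖ ^ q < ‖1 + A * w ^ q‖) : ‖w‖ < s := by
  have h1 : ‖1 + A * w ^ q‖ ≤ 1 + A * ‖w‖ ^ q := by
    refine (norm_add_le _ _).trans ?_
    rw [norm_one, norm_mul, Complex.norm_real, Real.norm_of_nonneg hA.le, norm_pow]
  have hsp : 0 < s ^ q := by positivity
  have h3 : (s ^ q)⁻¹ * ‖w‖ ^ q < 1 := by rw [hB] at hw; nlinarith
  by_contra hne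
  push Not at hne
  have h5 : s ^ q ≤ ‖w‖ ^ q := pow_le_pow_left₀ hs.le hne q
  have h8 : 1 ≤ (s ^ q)⁻¹ * ‖w‖ ^ q := by
    rw [← inv_mul_cancel₀ hsp.ne']
    exact mul_le_mul_of_nonneg_left h5 (by positivity)
  linarith

end Pool.Agent.Y297
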