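import Pool.Agent.Y297.StageD

/-!
# The infinite construction
-/

set_option autoImplicit false
set_option linter.all false

open Set Metric Filter Topology
open scoped ContDiff ComplexConjugate Manifold

noncomputable section

namespace Pool.Agent.Y297

theorem init_pre : PreG 32 1 id := by
  refine ⟨by norm_num, by norm_num, ⟨?_, ?_, ?_, ?_, rfl⟩, 1 / 4, by norm_num, ?_, ?_⟩
  · exact differentiableOn_id
  · exact injOn_id _
  · intro w _
    simp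
  · intro w hw; exact hw
  · have := Real.pi_lt_d2
    rw [div_lt_iff₀ (by norm_num)]
    norm_num
    linarith
  · intro w _ hw2
    have h1 : ‖(1 : ℂ)‖ - ‖w - 1‖ ≤ ‖(1 : ℂ) + (w - 1)‖ := by
      have := norm_sub_norm_le (1 : ℂ) (-(w - 1))
      rwa [norm_neg, sub_neg_eq_add] at this
    rw [norm_one] at h1
    have : (1 : ℂ) + (w - 1) = w := by ring
    rw [this] at h1
    simp only [id]
    linarith

theorem eps_pos (n : ℕ) : (0 : ℝ) < (1 / 2) ^ (n + 4) := by positivity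

/-- the states -/
def seqS : ℕ → {s : ℕ × ℕ × (ℂ → ℂ) // PreG s.1 s.2.1 s.2.2}
  | 0 => ⟨(32, 1, id), init_pre⟩
  | n + 1 =>
    ⟨((stage n (eps_pos n) (seqS n).2).choose.q * (stage n (eps_pos n) (seqS n).2).choose.Q,
      (stage n (eps_pos n) (seqS n).2).choose.p * (stage n (eps_pos n) (seqS n).2).choose.Q + 1,
      (stage n (eps_pos n) (seqS n).2).choose.ψ ∘ (stage n (eps_pos n) (seqS n).2).choose.X),
     (stage n (eps_pos n) (seqS n).2).choose_spec.2.2.2.pre'⟩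

/-- the stages -/
def sd (n : ℕ) : Stg := (stage n (eps_pos n) (seqS n).2).choose

theorem sd_spec (n : ℕ) : (sd n).q = (seqS n).1.1 ∧ (sd n).p = (seqS n).1.2.1 ∧ (sd n).ψ = (seqS n).1.2.2 ∧
    GoodS n ((1 / 2) ^ (n + 4)) (sd n) := (stage n (eps_pos n) (seqS n).2).choose_spec

/-- a coherent sequence of stages -/
structure SeqD (d : ℕ → Stg) : Prop where
  good : ∀ n, GoodS n ((1 / 2) ^ (n + 4)) (d n)
  ψ0 : (d 0).ψ = id
  qs : ∀ n, (d (n + 1)).q = (d n).q * (d n).Q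
  ps : ∀ n, (d (n + 1)).p = (d n).p * (d n).Q + 1
  ψs : ∀ n, (d (n + 1)).ψ = (d n).ψ ∘ (d n).X

theorem seqD_exists : ∃ d, SeqD d := by
  refine ⟨sd, fun n => (sd_spec n).2.2.2, (sd_spec 0).2.2.1, fun n => ?_, fun n => ?_, fun n => ?_⟩
  · exact (sd_spec (n + 1)).1
  · exact (sd_spec (n + 1)).2.1
  · exact (sd_spec (n + 1)).2.2.1

namespace SeqD

variable {d : ℕ → Stg} (S : SeqD d)

include S

theorem inj (n : ℕ) : Inj (d n).ψ := (S.good n).pre.inj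

theorem Es_succ (n : ℕ) : Es (d (n + 1)).ψ = (d n).ψ '' ((d n).X '' ball 0 1) := by
  rw [Es, S.ψs n, image_comp]

theorem Es_succ_sub_C (n : ℕ) : Es (d (n + 1)).ψ ⊆ (d n).ψ '' closedBall 0 (d n).s := by
  rw [S.Es_succ n]
  apply image_mono
  rintro _ ⟨w, hw, rfl⟩
  rw [mem_closedBall_zero_iff]
  exact ((S.good n).X_maps w hw).2

theorem Es_succ_sub (n : ℕ) : Es (d (n + 1)).ψ ⊆ Es (d n).ψ :=
  (S.Es_succ_sub_C n).trans ((S.inj n).C_sub (S.good n).hs)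

theorem Es_anti {m n : ℕ} (h : m ≤ n) : Es (d n).ψ ⊆ Es (d m).ψ := by
  induction n, h using Nat.le_induction with
  | base => exact subset_rfl
  | succ n _ ih => exact (S.Es_succ_sub n).trans ih

theorem Gam_off' (n : ℕ) (t : ℝ) {z : ℂ} (hz : z ∉ Es (d n).ψ) : (d n).Gam t z = 0 :=
  (S.good n).Gam_off t z fun h => hz ((S.inj n).C_sub (S.good n).hs h)

theorem Gam_zero (n : ℕ) (t : ℝ) : (d n).Gam t 0 = 0 := by
  have h := (S.good n).F_eq t 0 (by simp)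
  rw [(S.good n).F_zero, (S.inj n).zero, mul_zero, (S.inj n).zero, zero_add] at h
  exact h

theorem Gam_bd {b : ℕ → ℝ} (hb : ∀ n, 0 ≤ b n ∧ b n ≤ (d n).kap) (n : ℕ) (z : ℂ) :
    ‖(d n).Gam (b n) z‖ ≤ (1 / 2) ^ (n + 4) * ‖z‖ := by
  have := (S.good n).Gam_lip (b n) (hb n).1 (hb n).2 z 0
  rwa [S.Gam_zero, sub_zero, sub_zero] at this

theorem not_mem_succ {n : ℕ} {w : ℂ} (hw : w ∈ ball (0 : ℂ) 1) (hwX : w ∉ (d n).X '' ball 0 1) :
    (d n).ψ w ∉ Es (d (n + 1)).ψ := by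
  rw [S.Es_succ n]
  rintro ⟨_, ⟨w', hw', rfl⟩, he⟩
  have := (S.inj n).inj ((S.good n).X_maps w' hw').1 hw he
  exact hwX ⟨w', hw', this⟩

theorem exists_w {n : ℕ} {z : ℂ} (hz : z ∈ Es (d n).ψ) (hz' : z ∉ Es (d (n + 1)).ψ) :
    ∃ w ∈ ball (0 : ℂ) 1, w ∉ (d n).X '' ball 0 1 ∧ (d n).ψ w = z := by
  obtain ⟨w, hw, rfl⟩ := hz
  refine ⟨w, hw, ?_, rfl⟩
  intro h
  apply hz'
  rw [S.Es_succ n]
  exact ⟨w, h, rfl⟩

end SeqD

/-- the partial sums -/
def Gn (d : ℕ → Stg) (b : ℕ → ℝ) (n : ℕ) (z : ℂ) : ℂ :=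
  lm (d 0).q (d 0).p * z + ∑ k ∈ Finset.range n, (d k).Gam (b k) z

/-- the limit map -/
def FF (d : ℕ → Stg) (b : ℕ → ℝ) (z : ℂ) : ℂ := lm (d 0).q (d 0).p * z + ∑' k, (d k).Gam (b k) z

/-- the Beltrami coefficient -/
def be (d : ℕ → Stg) (b : ℕ → ℝ) (z : ℂ) : ℂ := ∑' k, (d k).bet (b k) z

theorem summ_eps : Summable fun n : ℕ => (1 / 2 : ℝ) ^ (n + 4) := by
  have h : Summable fun n : ℕ => (1 / 2 : ℝ) ^ n := summable_geometric_of_lt_one (by norm_num) (by norm_num)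
  exact (summable_nat_add_iff 4).2 h

theorem tsum_eps : ∑' n : ℕ, (1 / 2 : ℝ) ^ (n + 4) = 1 / 8 := by
  have h1 : ∀ n : ℕ, (1 / 2 : ℝ) ^ (n + 4) = (1 / 2) ^ n * (1 / 16) := by
    intro n; rw [pow_add]; norm_num
  simp only [h1]
  rw [tsum_mul_right, tsum_geometric_of_lt_one (by norm_num) (by norm_num)]
  norm_num

theorem tsum_eps_tail (n : ℕ) : ∑' k : ℕ, (1 / 2 : ℝ) ^ (k + n + 4) = (1 / 2) ^ n * (1 / 8) := by
  have h1 : ∀ k : ℕ, (1 / 2 : ℝ) ^ (k + n + 4) = (1 / 2) ^ n * (1 / 2) ^ (k + 4) := by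
    intro k; ring
  simp only [h1]
  rw [tsum_mul_left, tsum_eps]

namespace SeqD

variable {d : ℕ → Stg} (S : SeqD d) {b : ℕ → ℝ} (hb : ∀ n, 0 ≤ b n ∧ b n ≤ (d n).kap)

include S

theorem tel (n : ℕ) : ∀ w ∈ ball (0 : ℂ) 1, (∀ n, 0 ≤ b n ∧ b n ≤ (d n).kap) →
    Gn d b n ((d n).ψ w) = (d n).ψ (lm (d n).q (d n).p * w) := by
  induction n with
  | zero =>
    intro w _ _
    rw [Gn, S.ψ0]
    simp
  | succ n ih =>
    intro w hw hb
    have h1 := ih ((d n).X w) ((S.good n).X_maps w hw).1 hb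
    have h2 : (d (n + 1)).ψ w = (d n).ψ ((d n).X w) := by rw [S.ψs n]; rfl
    have h3 : Gn d b (n + 1) ((d n).ψ ((d n).X w)) =
        Gn d b n ((d n).ψ ((d n).X w)) + (d n).Gam (b n) ((d n).ψ ((d n).X w)) := by
      rw [Gn, Gn, Finset.sum_range_succ]; ring
    rw [h2, h3, h1, (S.good n).F_eq (b n) _ ((S.good n).X_maps w hw).1,
      (S.good n).F_X (b n) (hb n).1 (hb n).2 w hw, S.ψs n, S.qs n, S.ps n]
    rfl

include hb

theorem Gam_summ (z : ℂ) : Summable fun k => (d k).Gam (b k) z :=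
  Summable.of_norm_bounded (summ_eps.mul_right ‖z‖) fun n => S.Gam_bd hb n z

theorem FF_sub_Gn (n : ℕ) (z : ℂ) : FF d b z - Gn d b n z = ∑' k, (d (k + n)).Gam (b (k + n)) z := by
  rw [FF, Gn, ← (S.Gam_summ hb z).sum_add_tsum_nat_add n]
  ring

theorem FF_lip (n : ℕ) (x y : ℂ) :
    ‖(FF d b x - Gn d b n x) - (FF d b y - Gn d b n y)‖ ≤ (1 / 2) ^ n * (1 / 8) * ‖x - y‖ := by
  rw [S.FF_sub_Gn hb, S.FF_sub_Gn hb]
  have hs1 : ∀ z, Summable fun k => (d (k + n)).Gam (b (k + n)) z := fun z =>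
    (summable_nat_add_iff n).2 (S.Gam_summ hb z)
  rw [← (hs1 x).tsum_sub (hs1 y)]
  have hs2 : Summable fun k : ℕ => (1 / 2 : ℝ) ^ (k + n + 4) * ‖x - y‖ :=
    ((summable_nat_add_iff n).2 summ_eps).mul_right _
  refine (tsum_of_norm_bounded hs2.hasSum fun k => ?_).trans ?_
  · exact (S.good (k + n)).Gam_lip _ (hb _).1 (hb _).2 x y
  · rw [tsum_mul_right, tsum_eps_tail]

theorem FF_zero : FF d b 0 = 0 := by
  rw [FF]
  simp [S.Gam_zero]

theorem FF_inj : Function.Injective (FF d b) := by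
  intro x y h
  have h1 := S.FF_lip hb 0 x y
  have h2 : (FF d b x - Gn d b 0 x) - (FF d b y - Gn d b 0 y) = -(lm (d 0).q (d 0).p * (x - y)) := by
    rw [h, Gn, Gn]; simp; ring
  rw [h2, norm_neg, norm_mul, lm_norm, one_mul] at h1
  have h3 : ‖x - y‖ = 0 := by
    have := norm_nonneg (x - y)
    norm_num at h1
    linarith
  exact sub_eq_zero.1 (norm_eq_zero.1 h3)

theorem FF_cont : Continuous (FF d b) := by
  have h1 : ∀ x y, ‖FF d b x - FF d b y‖ ≤ 2 * ‖x - y‖ := by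
    intro x y
    have h1 := S.FF_lip hb 0 x y
    have h2 : (FF d b x - Gn d b 0 x) - (FF d b y - Gn d b 0 y) =
        (FF d b x - FF d b y) - lm (d 0).q (d 0).p * (x - y) := by
      rw [Gn, Gn]; simp; ring
    rw [h2] at h1
    have h3 : ‖FF d b x - FF d b y‖ ≤ ‖(FF d b x - FF d b y) - lm (d 0).q (d 0).p * (x - y)‖ +
        ‖lm (d 0).q (d 0).p * (x - y)‖ := by
      have := norm_add_le ((FF d b x - FF d b y) - lm (d 0).q (d 0).p * (x - y)) (lm (d 0).q (d 0).p * (x - y))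
      rwa [sub_add_cancel] at this
    rw [norm_mul, lm_norm, one_mul] at h3
    norm_num at h1
    have := norm_nonneg (x - y)
    linarith
  have h2 : LipschitzWith 2 (FF d b) := LipschitzWith.of_dist_le_mul fun x y => by
    rw [dist_eq_norm, dist_eq_norm]; exact h1 x y
  exact h2.continuous

/-- off the next domain only finitely many corrections matter, locally -/
theorem FF_eq_Gn {n : ℕ} {z : ℂ} (hz : z ∉ Es (d (n + 1)).ψ) : FF d b =ᶠ[𝓝 z] Gn d b (n + 1) := by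
  have hcl : IsClosed ((d (n + 1)).ψ '' closedBall 0 (d (n + 1)).s) :=
    ((S.inj (n + 1)).compact_C (S.good (n + 1)).hs).isClosed
  have hz' : z ∈ ((d (n + 1)).ψ '' closedBall 0 (d (n + 1)).s)ᶜ := fun h =>
    hz ((S.inj (n + 1)).C_sub (S.good (n + 1)).hs h)
  filter_upwards [hcl.isOpen_compl.mem_nhds hz'] with y hy
  have h1 := S.FF_sub_Gn hb (n + 1) y
  have h2 : ∀ k, (d (k + (n + 1))).Gam (b (k + (n + 1))) y = 0 := by
    intro k
    rcases Nat.eq_zero_or_pos k with hk | hk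
    · subst hk
      rw [zero_add]
      exact (S.good (n + 1)).Gam_off _ _ hy
    · apply S.Gam_off'
      intro h3
      apply hy
      exact S.Es_succ_sub_C (n + 1) (S.Es_anti (by omega) h3)
  simp only [h2, tsum_zero] at h1
  exact sub_eq_zero.1 h1

theorem FF_on {n : ℕ} {w : ℂ} (hw : w ∈ ball (0 : ℂ) 1) (hwX : w ∉ (d n).X '' ball 0 1) :
    FF d b ((d n).ψ w) = (d n).ψ ((d n).Fw (b n) w) := by
  rw [(S.FF_eq_Gn hb (S.not_mem_succ hw hwX)).eq_of_nhds]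
  have h3 : Gn d b (n + 1) ((d n).ψ w) = Gn d b n ((d n).ψ w) + (d n).Gam (b n) ((d n).ψ w) := by
    rw [Gn, Gn, Finset.sum_range_succ]; ring
  rw [h3, S.tel n w hw hb, (S.good n).F_eq _ _ hw]

theorem FF_iter {n : ℕ} {w : ℂ} (hw : w ∈ ball (0 : ℂ) 1) (hwX : w ∉ (d n).X '' ball 0 1) (i : ℕ) :
    (FF d b)^[i] ((d n).ψ w) = (d n).ψ (((d n).Fw (b n))^[i] w) ∧ ((d n).Fw (b n))^[i] w ∈ ball (0 : ℂ) 1 ∧
      ((d n).Fw (b n))^[i] w ∉ (d n).X '' ball 0 1 := by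
  induction i with
  | zero => exact ⟨rfl, hw, hwX⟩
  | succ i ih =>
    rw [Function.iterate_succ_apply', Function.iterate_succ_apply', ih.1, S.FF_on hb ih.2.1 ih.2.2]
    exact ⟨rfl, (S.good n).F_ball _ (hb n).1 (hb n).2 _ ih.2.1, (S.good n).F_X' _ (hb n).1 (hb n).2 _ ih.2.2⟩

theorem Gn_mem {n : ℕ} {z : ℂ} (hz : z ∈ Es (d n).ψ) : Gn d b n z ∈ Es (d n).ψ := by
  obtain ⟨w, hw, rfl⟩ := hz
  rw [S.tel n w hw hb]
  refine ⟨_, ?_, rfl⟩
  rw [mem_ball_zero_iff] at hw ⊢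
  rw [norm_mul, lm_norm, one_mul]; exact hw

theorem Gn_tendsto (z : ℂ) : Tendsto (fun n => Gn d b n z) atTop (𝓝 (FF d b z)) :=
  ((S.Gam_summ hb z).hasSum.tendsto_sum_nat).const_add _

theorem FF_core {z : ℂ} (hz : ∀ n, z ∈ Es (d n).ψ) (n : ℕ) : FF d b z ∈ Es (d n).ψ := by
  have hcl : IsClosed ((d n).ψ '' closedBall 0 (d n).s) := ((S.inj n).compact_C (S.good n).hs).isClosed
  apply (S.inj n).C_sub (S.good n).hs
  apply hcl.mem_of_tendsto (S.Gn_tendsto hb z)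
  filter_upwards [eventually_ge_atTop (n + 1)] with m hm
  exact S.Es_succ_sub_C n (S.Es_anti hm (S.Gn_mem hb (hz m)))

theorem FF_core_iter {z : ℂ} (hz : ∀ n, z ∈ Es (d n).ψ) (i : ℕ) : ∀ n, (FF d b)^[i] z ∈ Es (d n).ψ := by
  induction i with
  | zero => exact hz
  | succ i ih =>
    rw [Function.iterate_succ_apply']
    exact S.FF_core hb ih

theorem Gam_indep {b' : ℕ → ℝ} (hb' : ∀ n, 0 ≤ b' n ∧ b' n ≤ (d n).kap) {n : ℕ} {z : ℂ}
    (hz : z ∈ Es (d (n + 1)).ψ) : (d n).Gam (b n) z = (d n).Gam (b' n) z := by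
  rw [S.Es_succ n] at hz
  obtain ⟨_, ⟨w, hw, rfl⟩, rfl⟩ := hz
  have hX := ((S.good n).X_maps w hw).1
  have h1 := (S.good n).F_eq (b n) _ hX
  have h2 := (S.good n).F_eq (b' n) _ hX
  rw [(S.good n).F_X _ (hb n).1 (hb n).2 w hw] at h1
  rw [(S.good n).F_X _ (hb' n).1 (hb' n).2 w hw] at h2
  linear_combination h1 - h2

theorem FF_core_indep {b' : ℕ → ℝ} (hb' : ∀ n, 0 ≤ b' n ∧ b' n ≤ (d n).kap) {z : ℂ}
    (hz : ∀ n, z ∈ Es (d n).ψ) : FF d b z = FF d b' z := by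
  rw [FF, FF]
  congr 1
  apply tsum_congr
  intro n
  exact S.Gam_indep hb hb' (hz (n + 1))

theorem FF_core_iter_indep {b' : ℕ → ℝ} (hb' : ∀ n, 0 ≤ b' n ∧ b' n ≤ (d n).kap) {z : ℂ}
    (hz : ∀ n, z ∈ Es (d n).ψ) (i : ℕ) : (FF d b)^[i] z = (FF d b')^[i] z := by
  induction i with
  | zero => rfl
  | succ i ih =>
    rw [Function.iterate_succ_apply', Function.iterate_succ_apply', ← ih]
    exact S.FF_core_indep hb hb' (S.FF_core_iter hb hz i)

/-- trichotomy -/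
theorem tri (z : ℂ) : z ∉ Es (d 0).ψ ∨ (∀ n, z ∈ Es (d n).ψ) ∨
    ∃ n, ∃ w ∈ ball (0 : ℂ) 1, w ∉ (d n).X '' ball 0 1 ∧ (d n).ψ w = z := by
  by_cases h : ∀ n, z ∈ Es (d n).ψ
  · exact Or.inr (Or.inl h)
  · push Not at h
    classical
    set m := Nat.find h with hm
    have hm1 : z ∉ Es (d m).ψ := Nat.find_spec h
    rcases Nat.eq_zero_or_pos m with h0 | h0
    · left
      rw [h0] at hm1; exact hm1
    · right; right
      obtain ⟨n, hn⟩ : ∃ n, m = n + 1 := ⟨m - 1, by omega⟩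
      have h2 : z ∈ Es (d n).ψ := by
        by_contra h3
        have := Nat.find_min' h h3
        omega
      rw [hn] at hm1
      exact ⟨n, S.exists_w h2 hm1⟩

theorem K_indep {b' : ℕ → ℝ} (hb' : ∀ n, 0 ≤ b' n ∧ b' n ≤ (d n).kap) (hirr : ∀ n, Irrational (b n)) {z : ℂ}
    (hz : ∀ i, ‖(FF d b)^[i] z‖ ≤ 1 / 4) (i : ℕ) : ‖(FF d b')^[i] z‖ ≤ 1 / 4 := by
  rcases S.tri hb z with h | h | ⟨n, w, hw, hwX, rfl⟩
  · exfalso
    apply h
    refine ⟨z, ?_, by rw [S.ψ0]; rfl⟩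
    have := hz 0
    simp only [Function.iterate_zero, id] at this
    rw [mem_ball_zero_iff]
    linarith
  · rw [← S.FF_core_iter_indep hb hb' h i]
    exact hz i
  · rw [(S.FF_iter hb' hw hwX i).1]
    apply (S.good n).K (b n) (b' n) (hb n).1 (hb n).2 (hb' n).1 (hb' n).2 (hirr n) w hw hwX
    intro j
    rw [← (S.FF_iter hb hw hwX j).1]
    exact hz j

end SeqD

end Pool.Agent.Y297
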