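import Pool.Agent.Y297.Seq

/-!
# Derivatives of the limit map, the rotation number
-/

set_option autoImplicit false
set_option linter.all false

open Set Metric Filter Topology
open scoped ContDiff ComplexConjugate Manifold

noncomputable section

namespace Pool.Agent.Y297

theorem cdiff {F : ℂ → ℂ} {z : ℂ} {G : ℕ → ℂ → ℂ} {a : ℕ → ℂ} {e : ℕ → ℝ} (he : Tendsto e atTop (𝓝 0))
    (hG : ∀ n, HasDerivAt (G n) (a n) z)
    (hR : ∀ n x, ‖(F x - G n x) - (F z - G n z)‖ ≤ e n * ‖x - z‖) :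
    ∃ α, Tendsto a atTop (𝓝 α) ∧ HasDerivAt F α z := by
  have he0 : ∀ n, 0 ≤ e n := by
    intro n
    have h1 := (norm_nonneg _).trans (hR n (z + 1))
    simpa using h1
  have hnm : ∀ n m, ‖a n - a m‖ ≤ e n + e m := by
    intro n m
    have h1 : HasDerivAt (fun x => G n x - G m x) (a n - a m) z := (hG n).sub (hG m)
    refine h1.le_of_lip' (add_nonneg (he0 n) (he0 m)) (Eventually.of_forall fun x => ?_)
    have e1 : (G n x - G m x) - (G n z - G m z) =
        ((F x - G m x) - (F z - G m z)) - ((F x - G n x) - (F z - G n z)) := by ring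
    rw [e1]
    refine (norm_sub_le _ _).trans ?_
    have := hR n x
    have := hR m x
    linarith
  have hc : CauchySeq a := by
    rw [Metric.cauchySeq_iff]
    intro ε hε
    obtain ⟨N, hN⟩ := (he.eventually (gt_mem_nhds (half_pos hε))).exists_forall_of_atTop
    refine ⟨N, fun m hm n hn => ?_⟩
    rw [dist_eq_norm]
    have := hnm m n
    have := hN m hm
    have := hN n hn
    linarith
  obtain ⟨α, hα⟩ := cauchySeq_tendsto_of_complete hc
  have hαn : ∀ n, ‖a n - α‖ ≤ e n := by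
    intro n
    have h1 : Tendsto (fun m => ‖a n - a m‖) atTop (𝓝 ‖a n - α‖) := (tendsto_const_nhds.sub hα).norm
    have h2 : Tendsto (fun m => e n + e m) atTop (𝓝 (e n + 0)) := tendsto_const_nhds.add he
    rw [add_zero] at h2
    exact le_of_tendsto_of_tendsto' h1 h2 (hnm n)
  refine ⟨α, hα, ?_⟩
  rw [hasDerivAt_iff_isLittleO, Asymptotics.isLittleO_iff]
  intro c hc
  obtain ⟨n, hn⟩ := (he.eventually (gt_mem_nhds (by positivity : 0 < c / 3))).exists
  have h1 := hG n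
  rw [hasDerivAt_iff_isLittleO, Asymptotics.isLittleO_iff] at h1
  filter_upwards [h1 (by positivity : 0 < c / 3)] with x hx
  have e1 : F x - F z - (x - z) • α = ((F x - G n x) - (F z - G n z)) + (G n x - G n z - (x - z) • a n) +
      (x - z) • (a n - α) := by
    simp only [smul_eq_mul]; ring
  rw [e1]
  refine norm_add₃_le.trans ?_
  have h2 := hR n x
  have h3 : ‖(x - z) • (a n - α)‖ ≤ ‖x - z‖ * e n := by
    rw [norm_smul]
    exact mul_le_mul_of_nonneg_left (hαn n) (norm_nonneg _)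
  have h4 := norm_nonneg (x - z)
  nlinarith

namespace SeqD

variable {d : ℕ → Stg} (S : SeqD d) {b : ℕ → ℝ} (hb : ∀ n, 0 ≤ b n ∧ b n ≤ (d n).kap)

include S

theorem qpos (n : ℕ) : 0 < (d n).q := (S.good n).pre.hq

theorem Qpos (n : ℕ) : 0 < (d n).Q := by have := (S.good n).hQ; omega

theorem qsucc (n : ℕ) : 2 * (d n).q ≤ (d (n + 1)).q := by
  rw [S.qs n, mul_comm]
  exact Nat.mul_le_mul_left _ (by have := (S.good n).hQ; omega)

theorem qpow (n : ℕ) : 2 ^ n ≤ (d n).q := by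
  induction n with
  | zero => have := S.qpos 0; omega
  | succ n ih =>
    rw [pow_succ]
    have := S.qsucc n
    omega

theorem rsucc (n : ℕ) : ((d (n + 1)).p : ℝ) / (d (n + 1)).q = (d n).p / (d n).q + 1 / (d (n + 1)).q := by
  have h1 : ((d n).q : ℝ) ≠ 0 := by exact_mod_cast (S.qpos n).ne'
  have h2 : ((d n).Q : ℝ) ≠ 0 := by exact_mod_cast (S.Qpos n).ne'
  rw [S.qs n, S.ps n]
  push_cast
  field_simp

theorem alpha_exists : ∃ α : ℝ, Irrational α ∧
    Tendsto (fun n => ((d n).p : ℝ) / (d n).q) atTop (𝓝 α) := by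
  set r : ℕ → ℝ := fun n => ((d n).p : ℝ) / (d n).q with hr
  have hq0 : ∀ n, (0 : ℝ) < (d n).q := fun n => by exact_mod_cast S.qpos n
  have hs : ∀ n, r (n + 1) = r n + 1 / (d (n + 1)).q := S.rsucc
  have hc : CauchySeq r := by
    apply cauchySeq_of_le_geometric (1 / 2) 1 (by norm_num)
    intro n
    rw [dist_comm, dist_eq_norm, hs n, add_sub_cancel_left, Real.norm_of_nonneg (by positivity), one_mul,
      one_div_pow]
    apply one_div_le_one_div_of_le (by positivity)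
    have h1 : (2 : ℝ) ^ n ≤ (d n).q := by exact_mod_cast S.qpow n
    have h2 : (2 : ℝ) * (d n).q ≤ (d (n + 1)).q := by exact_mod_cast S.qsucc n
    have := hq0 n
    linarith
  obtain ⟨α, hα⟩ := cauchySeq_tendsto_of_complete hc
  refine ⟨α, ?_, hα⟩
  have hup : ∀ n m, n ≤ m → r m + 2 / (d (m + 1)).q ≤ r n + 2 / (d (n + 1)).q := by
    intro n m hnm
    induction m, hnm using Nat.le_induction with
    | base => exact le_rfl
    | succ m _ ih =>
      refine le_trans ?_ ih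
      have h2 : (2 : ℝ) * (d (m + 1)).q ≤ (d (m + 1 + 1)).q := by exact_mod_cast S.qsucc (m + 1)
      have h3 : 2 / ((d (m + 1 + 1)).q : ℝ) ≤ 1 / (d (m + 1)).q := by
        rw [div_le_div_iff₀ (hq0 _) (hq0 _)]
        linarith
      have h4 : 2 / ((d (m + 1)).q : ℝ) = 1 / (d (m + 1)).q + 1 / (d (m + 1)).q := by ring
      rw [hs m, h4]
      linarith
  have hmono : Monotone r := monotone_nat_of_le_succ fun n => by
    rw [hs n]
    have : 0 < 1 / ((d (n + 1)).q : ℝ) := by have := hq0 (n + 1); positivity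
    linarith
  have hlow : ∀ n, r n < α := by
    intro n
    have h1 : r (n + 1) ≤ α := hmono.ge_of_tendsto hα (n + 1)
    have : 0 < 1 / ((d (n + 1)).q : ℝ) := by have := hq0 (n + 1); positivity
    rw [hs n] at h1
    linarith
  have hupα : ∀ n, α ≤ r n + 2 / (d (n + 1)).q := by
    intro n
    apply le_of_tendsto hα
    filter_upwards [eventually_ge_atTop n] with m hm
    have := hup n m hm
    have h3 : 0 < 2 / ((d (m + 1)).q : ℝ) := by have := hq0 (m + 1); positivity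
    linarith
  rintro ⟨x, hx⟩
  have hden : (0 : ℝ) < x.den := by exact_mod_cast x.den_pos
  set n := 2 * x.den with hn
  have h1 := hlow n
  have h2 := hupα n
  have hxα : α = x.num / x.den := by rw [← hx]; exact Rat.cast_def x
  have h3 : (((x.num * (d n).q - x.den * (d n).p : ℤ)) : ℝ) = x.den * (d n).q * (α - r n) := by
    rw [hxα, hr]
    have := (hq0 n).ne'
    push_cast
    field_simp
  have h4 : (0 : ℝ) < ((x.num * (d n).q - x.den * (d n).p : ℤ) : ℝ) := by
    rw [h3]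
    apply mul_pos (mul_pos hden (hq0 n))
    linarith
  have h5 : (1 : ℝ) ≤ ((x.num * (d n).q - x.den * (d n).p : ℤ) : ℝ) := by
    have : 0 < (x.num * (d n).q - x.den * (d n).p : ℤ) := by exact_mod_cast h4
    exact_mod_cast this
  have h6 : x.den * (d n).q * (α - r n) ≤ x.den * (d n).q * (2 / (d (n + 1)).q) :=
    mul_le_mul_of_nonneg_left (by linarith) (mul_pos hden (hq0 n)).le
  have h7 : (x.den : ℝ) * (d n).q * (2 / (d (n + 1)).q) = 2 * x.den / (d n).Q := by
    rw [S.qs n]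
    have := (hq0 n).ne'
    have : ((d n).Q : ℝ) ≠ 0 := by exact_mod_cast (S.Qpos n).ne'
    push_cast
    field_simp
  have h8 : ((n : ℝ) + 2) ≤ (d n).Q := by exact_mod_cast (S.good n).hQ
  have hQ0 : (0 : ℝ) < (d n).Q := by exact_mod_cast S.Qpos n
  rw [h3] at h5
  rw [h7] at h6
  have h9 : (1 : ℝ) ≤ 2 * x.den / (d n).Q := h5.trans h6
  rw [le_div_iff₀ hQ0] at h9
  have h10 : (n : ℝ) = 2 * x.den := by rw [hn]; push_cast; ring
  linarith

theorem be_off {n : ℕ} {t : ℝ} (ht : 0 ≤ t ∧ t ≤ (d n).kap) {z : ℂ} (hz : z ∉ Es (d n).ψ ∨ z ∈ Es (d (n + 1)).ψ) :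
    (d n).bet t z = 0 := by
  rcases hz with hz | hz
  · exact (S.good n).bet_off t z hz
  · rw [S.Es_succ n] at hz
    obtain ⟨_, ⟨w, hw, rfl⟩, rfl⟩ := hz
    exact (S.good n).bet_X t ht.1 ht.2 w hw

include hb

theorem be_core {z : ℂ} (hz : ∀ n, z ∈ Es (d n).ψ) : be d b z = 0 := by
  rw [be]
  have : ∀ k, (d k).bet (b k) z = 0 := fun k => S.be_off (hb k) (Or.inr (hz (k + 1)))
  simp only [this, tsum_zero]

theorem be_on {n : ℕ} {w : ℂ} (hw : w ∈ ball (0 : ℂ) 1) (hwX : w ∉ (d n).X '' ball 0 1) :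
    be d b ((d n).ψ w) = (d n).bet (b n) ((d n).ψ w) := by
  rw [be]
  apply tsum_eq_single
  intro k hk
  rcases lt_or_gt_of_ne hk with h | h
  · exact S.be_off (hb k) (Or.inr (S.Es_anti (by omega) (mem_Es hw)))
  · exact S.be_off (hb k) (Or.inl fun h2 => S.not_mem_succ hw hwX (S.Es_anti (by omega) h2))

theorem be_wn : Wn (1 / 8) (be d b) :=
  Wn.tsum (fun n => (S.good n).bet_wn (b n) (hb n).1 (hb n).2) summ_eps tsum_eps.le

theorem Gn_near {n : ℕ} {z : ℂ} (hz : z ∈ Es (d n).ψ) :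
    Gn d b n =ᶠ[𝓝 z] fun z => (d n).ψ (lm (d n).q (d n).p * ph (d n).ψ z) := by
  filter_upwards [(S.inj n).Es_open.mem_nhds hz] with y hy
  obtain ⟨w, hw, rfl⟩ := hy
  rw [S.tel n w hw hb, ph_psi (S.inj n) hw]

theorem Gn_deriv {n : ℕ} {w : ℂ} (hw : w ∈ ball (0 : ℂ) 1) :
    HasDerivAt (Gn d b n) (deriv (d n).ψ (lm (d n).q (d n).p * w) * (lm (d n).q (d n).p * (deriv (d n).ψ w)⁻¹))
      ((d n).ψ w) := by
  have hlw : lm (d n).q (d n).p * w ∈ ball (0 : ℂ) 1 := by
    rw [mem_ball_zero_iff] at hw ⊢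
    rw [norm_mul, lm_norm, one_mul]; exact hw
  have h1 := ((S.inj n).ph_deriv hw).const_mul (lm (d n).q (d n).p)
  have h2 : HasDerivAt (d n).ψ (deriv (d n).ψ (lm (d n).q (d n).p * w))
      (lm (d n).q (d n).p * ph (d n).ψ ((d n).ψ w)) := by
    rw [ph_psi (S.inj n) hw]
    exact ((S.inj n).analytic hlw).differentiableAt.hasDerivAt
  exact (h2.comp ((d n).ψ w) h1).congr_of_eventuallyEq (S.Gn_near hb (mem_Es hw))

theorem tend_e : Tendsto (fun n : ℕ => (1 / 2 : ℝ) ^ n * (1 / 8)) atTop (𝓝 0) := by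
  have := (tendsto_pow_atTop_nhds_zero_of_lt_one (r := (1 / 2 : ℝ)) (by norm_num) (by norm_num)).mul_const (1 / 8 : ℝ)
  rwa [zero_mul] at this

theorem FF_deriv_core {z : ℂ} (hz : ∀ n, z ∈ Es (d n).ψ) : ∃ a, HasDerivAt (FF d b) a z := by
  have h1 : ∀ n, ∃ a, HasDerivAt (Gn d b n) a z := by
    intro n
    obtain ⟨w, hw, hwz⟩ := hz n
    rw [← hwz]
    exact ⟨_, S.Gn_deriv hb hw⟩
  choose a ha using h1
  obtain ⟨α, -, h2⟩ := cdiff (S.tend_e hb) ha (fun n x => S.FF_lip hb n x z)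
  exact ⟨α, h2⟩

theorem FF_deriv_zero {α : ℝ} (hα : Tendsto (fun n => ((d n).p : ℝ) / (d n).q) atTop (𝓝 α)) :
    HasDerivAt (FF d b) (Complex.exp (2 * Real.pi * Complex.I * α)) 0 := by
  have h1 : ∀ n, HasDerivAt (Gn d b n) (lm (d n).q (d n).p) 0 := by
    intro n
    have h0 : (0 : ℂ) ∈ ball (0 : ℂ) 1 := by simp
    have := S.Gn_deriv hb (n := n) h0
    rw [(S.inj n).zero, mul_zero] at this
    have h2 := (S.inj n).der 0 h0
    have e : deriv (d n).ψ 0 * (lm (d n).q (d n).p * (deriv (d n).ψ 0)⁻¹) = lm (d n).q (d n).p := by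
      field_simp
    rwa [e] at this
  obtain ⟨a, h2, h3⟩ := cdiff (S.tend_e hb) h1 (fun n x => S.FF_lip hb n x 0)
  have h4 : Tendsto (fun n => lm (d n).q (d n).p) atTop (𝓝 (Complex.exp (2 * Real.pi * Complex.I * α))) := by
    have h5 : Tendsto (fun n => (((d n).p : ℝ) / (d n).q : ℝ)) atTop (𝓝 α) := hα
    have h6 : Tendsto (fun n => ((((d n).p : ℝ) / (d n).q : ℝ) : ℂ)) atTop (𝓝 (α : ℂ)) :=
      (Complex.continuous_ofReal.tendsto α).comp h5
    have h7 : Tendsto (fun n => 2 * Real.pi * Complex.I * ((((d n).p : ℝ) / (d n).q : ℝ) : ℂ)) atTop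
        (𝓝 (2 * Real.pi * Complex.I * α)) := tendsto_const_nhds.mul h6
    have h8 := (Complex.continuous_exp.tendsto _).comp h7
    refine h8.congr fun n => ?_
    simp only [Function.comp, lm]
    push_cast
    rfl
  rw [tendsto_nhds_unique h2 h4] at h3
  exact h3

theorem FF_belt {x : ℂ} (hx : ‖x‖ < 1 / 2) : ∃ a a' : ℂ, HasFDerivAt (FF d b) (lin a a') x ∧
    be d b x * (a + be d b (FF d b x) * conj a') = a' + be d b (FF d b x) * conj a := by
  rcases S.tri hb x with h | h | ⟨n, w, hw, hwX, rfl⟩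
  · exfalso
    apply h
    refine ⟨x, ?_, by rw [S.ψ0]; rfl⟩
    rw [mem_ball_zero_iff]
    linarith
  · obtain ⟨a, ha⟩ := S.FF_deriv_core hb h
    refine ⟨a, 0, hasFDerivAt_of_deriv ha, ?_⟩
    rw [S.be_core hb h, S.be_core hb (S.FF_core hb h)]
    simp
  · obtain ⟨a, a', h1, h2⟩ := (S.good n).belt (b n) (hb n).1 (hb n).2 w hw hx
    refine ⟨a, a', ?_, ?_⟩
    · refine h1.congr_of_eventuallyEq ?_
      have h3 := S.FF_eq_Gn hb (S.not_mem_succ hw hwX)
      have h4 := S.Gn_near hb (mem_Es (ψ := (d n).ψ) hw)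
      filter_upwards [h3, h4] with z hz3 hz4
      rw [hz3, Gn, Finset.sum_range_succ, ← add_assoc]
      congr 1
    · have hF := (S.good n).F_ball _ (hb n).1 (hb n).2 w hw
      have hF' := (S.good n).F_X' _ (hb n).1 (hb n).2 w hwX
      rw [S.FF_on hb hw hwX, S.be_on hb hw hwX, S.be_on hb hF hF']
      exact h2

end SeqD

end Pool.Agent.Y297
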