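import Pool.Agent.Y297.Inj
import Pool.Agent.Y297.Dense

/-!
# Choice of the small parameters of one stage
-/

set_option autoImplicit false
set_option linter.all false

open Set Metric Filter Topology
open scoped ContDiff ComplexConjugate Manifold

noncomputable section

namespace Pool.Agent.Y297

theorem k_exists {ψ : ℂ → ℂ} (h : Inj ψ) {s : ℝ} (hs : s < 1) :
    ∃ k : ℂ → ℝ, ContDiff ℝ ∞ k ∧ (∀ w, (w ∉ ball (0 : ℂ) 1 ∨ 3 / 4 ≤ ‖ψ w‖) → k w = 0) ∧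
      (∀ w : ℂ, ‖w‖ ≤ s → ‖ψ w‖ ≤ 1 / 2 → k w = 1) := by
  have hc : ContinuousOn (fun w => ‖ψ w‖) (ball 0 1) := h.diff.continuousOn.norm
  have ho : IsOpen (ball (0 : ℂ) 1 ∩ (fun w => ‖ψ w‖) ⁻¹' Iio (3 / 4)) :=
    hc.isOpen_inter_preimage isOpen_ball isOpen_Iio
  have hcl : IsClosed (closedBall (0 : ℂ) s ∩ (fun w => ‖ψ w‖) ⁻¹' Iic (1 / 2)) :=
    (hc.mono (closedBall_subset_ball hs)).preimage_isClosed_of_isClosed isClosed_closedBall isClosed_Iic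
  obtain ⟨k, h1, h2, h3, -⟩ := urys ho.isClosed_compl hcl (by
    rw [Set.disjoint_left]
    rintro w hw ⟨hw1, hw2⟩
    apply hw
    refine ⟨closedBall_subset_ball hs hw1, ?_⟩
    simp only [mem_preimage, mem_Iic, mem_Iio] at hw2 ⊢
    linarith)
  refine ⟨k, h1, ?_, ?_⟩
  · intro w hw
    apply h2
    rintro ⟨hw1, hw2⟩
    rcases hw with hw | hw
    · exact hw hw1
    · simp only [mem_preimage, mem_Iio] at hw2
      linarith
  · intro w hw hw2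
    exact h3 w ⟨by rwa [mem_closedBall_zero_iff], hw2⟩

namespace Mod

variable (M : Mod)

theorem near_lam {η : ℝ} (hη : 0 < η) : ∃ r > 0, ∀ om : ℝ, |om| < r → M.Ok om ∧
    ∀ t, 0 ≤ t → t ≤ 1 → ∀ w : ℂ, ‖w‖ ≤ 1 → ‖M.F om t w - M.lam * w‖ ≤ η := by
  have h1 : ContinuousAt (rt M.q) 1 := rt_cont M.q (by simp)
  rw [Metric.continuousAt_iff] at h1
  obtain ⟨γ, hγ, hγ2⟩ := h1 η hη
  have hA := M.hA0
  refine ⟨min γ (1 / 2) / (2 * (1 + M.A)), by positivity, ?_⟩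
  intro om hom
  rw [lt_div_iff₀ (by positivity)] at hom
  have e1 : 2 * |om| * (1 + M.A) < min γ (1 / 2) := by
    calc 2 * |om| * (1 + M.A) = |om| * (2 * (1 + M.A)) := by ring
      _ < _ := hom
  refine ⟨(e1.trans_le (min_le_right _ _)).le, ?_⟩
  intro t ht0 ht1 w hw
  have h2 := M.D_near om t ht0 ht1 hw
  have h3 : ‖rt M.q (M.D om t w) - 1‖ < η := by
    have := hγ2 (x := M.D om t w) (by
      rw [dist_eq_norm]
      exact h2.trans_lt (e1.trans_le (min_le_left _ _)))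
    rwa [dist_eq_norm, rt_one] at this
  have h4 : M.F om t w - M.lam * w = M.lam * w * (rt M.q (M.D om t w) - 1) := by rw [F]; ring
  rw [h4, norm_mul, norm_mul, M.lam_norm, one_mul]
  calc ‖w‖ * ‖rt M.q (M.D om t w) - 1‖ ≤ 1 * ‖rt M.q (M.D om t w) - 1‖ :=
        mul_le_mul_of_nonneg_right hw (norm_nonneg _)
    _ ≤ η := by rw [one_mul]; exact h3.le

theorem c_om0 (t : ℝ) (w : ℂ) : M.c 0 t w = 1 := by rw [c]; simp

theorem F_om0 (t : ℝ) (w : ℂ) : M.F 0 t w = M.lam * w := by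
  rw [F, D, M.c_om0]
  simp [rt_one]

theorem wab_om0 (t : ℝ) (w : ℂ) : wa (M.F 0 t) w = M.lam ∧ wb (M.F 0 t) w = 0 := by
  have h3 : HasDerivAt (fun z : ℂ => M.lam * z) (M.lam * 1) w := (hasDerivAt_id w).const_mul M.lam
  rw [mul_one] at h3
  have h4 : M.F 0 t = fun z => M.lam * z := by
    funext z; exact M.F_om0 t z
  rw [h4]
  exact wab_of (hasFDerivAt_of_deriv h3)

theorem bh_om0 (k : ℂ → ℝ) (t : ℝ) (j : ℕ) : ∀ w, bh k (M.F 0 t) j w = 0 := by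
  induction j with
  | zero => intro w; rfl
  | succ j ih =>
    intro w
    rw [bh_succ, ih, (M.wab_om0 t w).2]
    simp

theorem dn_om0 (k : ℂ → ℝ) (t : ℝ) (j : ℕ) (w : ℂ) : dn k (M.F 0 t) j w = M.lam := by
  rw [dn, M.bh_om0, (M.wab_om0 t w).1]
  simp

/-- the choice of the angle -/
theorem stepA {ψ : ℂ → ℂ} (h : Inj ψ) {δ : ℝ} (hexit : ∀ w ∈ ball (0 : ℂ) 1, ‖w - 1‖ < δ → 3 / 4 < ‖ψ w‖)
    (hq : Real.pi / M.q < δ / 2) (hs1 : 1 - M.s1 ≤ δ / 4) {k : ℂ → ℝ} (hk : ContDiff ℝ ∞ k)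
    (hk0 : ∀ w, (w ∉ ball (0 : ℂ) 1 ∨ 3 / 4 ≤ ‖ψ w‖) → k w = 0) {ε : ℝ} (hε : 0 < ε) :
    ∃ r > 0, ∀ om : ℝ, 0 < om → om < r →
      M.Ok om ∧ (∀ t, 0 ≤ t → t ≤ 1 → ∀ w : ℂ, ‖w‖ < 1 → ‖M.F om t w‖ < 1) ∧
      (∀ t, 0 ≤ t → t ≤ 1 → ∀ w, M.s2 ≤ ‖(M.F om t)^[M.q] w‖ → ‖(M.F om t)^[M.q] w‖ ≤ M.s3 →
        ∃ i < M.q, k ((M.F om t)^[i] w) = 0) ∧
      (∃ N, ∀ t, 0 ≤ t → t ≤ 1 → ∀ w : ℂ,
        M.ra * ‖w‖ ^ M.q ≤ ‖1 + M.A * w ^ M.q‖ → ‖1 + M.A * w ^ M.q‖ ≤ M.rb * ‖w‖ ^ M.q →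
        ∃ i ≤ N, ‖(M.F om t)^[i] w - 1‖ < δ) ∧
      (∀ j, ∀ w, dn k (M.F om 0) j w ≠ 0) ∧
      (∀ j, M.q ≤ j → bh k (M.F om 0) j = bh k (M.F om 0) M.q) ∧
      Wn ε (Bt ψ k (M.F om 0) M.q) ∧
      (∀ x y, ‖Gm ψ M.lam (M.F om 0) x - Gm ψ M.lam (M.F om 0) y‖ ≤ ε * ‖x - y‖) := by
  have hq0 : (0 : ℝ) < M.q := by exact_mod_cast M.hq
  have hs12 := M.hs12
  have hs3 := M.hs3
  have hkn : ∀ v : ℂ, ‖v - 1‖ < δ → k v = 0 := by
    intro v hv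
    apply hk0
    by_cases hb : v ∈ ball (0 : ℂ) 1
    · exact Or.inr (hexit v hb hv).le
    · exact Or.inl hb
  set η : ℝ := min ((δ - ((1 - M.s2) + Real.pi / M.q)) / (2 * M.q)) ((1 - M.s3) / 2) with hη
  have hpos : 0 < δ - ((1 - M.s2) + Real.pi / M.q) := by
    have : 0 < Real.pi / M.q := by positivity
    linarith
  have hη0 : 0 < η := by
    rw [hη]
    apply lt_min
    · positivity
    · linarith
  have hη1 : M.q * η + (1 - M.s2) + Real.pi / M.q < δ := by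
    have : M.q * η ≤ (δ - ((1 - M.s2) + Real.pi / M.q)) / 2 := by
      calc M.q * η ≤ M.q * ((δ - ((1 - M.s2) + Real.pi / M.q)) / (2 * M.q)) :=
            mul_le_mul_of_nonneg_left (min_le_left _ _) hq0.le
        _ = _ := by field_simp
    linarith
  have hη2 : η ≤ (1 - M.s3) / 2 := min_le_right _ _
  obtain ⟨r1, hr1, h1⟩ := M.near_lam hη0
  have hpq : 0 < Real.pi / M.q := by positivity
  obtain ⟨r2, hr2, h2⟩ := M.exit2 (δ := δ) (by linarith)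
  -- smallness at t = 0
  have hk3 : ContDiff ℝ (3 : ℕ) k := contDiff_infty.1 hk 3
  have hFo : ∀ w, ContDiffAt ℝ (3 + 1 : ℕ) (Function.uncurry fun om w => M.F om 0 w) (0, w) :=
    fun w => M.F_smooth_om w
  have hd0 : ∀ j < M.q, ∀ w, dn k ((fun om w => M.F om 0 w) 0) j w ≠ 0 := by
    intro j _ w
    show dn k (M.F 0 0) j w ≠ 0
    rw [M.dn_om0]; exact M.lam_ne
  have hout : ∀ (p : ℝ) (w : ℂ), M.s3 ≤ ‖w‖ → (fun om w => M.F om 0 w) p w = M.lam * w :=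
    fun p w hw => M.F_out p 0 hw
  have hb0 : ∀ w : ℂ, ‖w‖ < 1 → ‖(fun om w => M.F om 0 w) 0 w‖ < 1 := by
    intro w hw
    show ‖M.F 0 0 w‖ < 1
    rw [M.F_om0, norm_mul, M.lam_norm, one_mul]; exact hw
  have hC := h.compact_C hs3
  have e1 := diff_small hC (G := fun om => Bt ψ k (M.F om 0) M.q) (p₀ := 0)
    (Bt_cda h hs3 M.lam_norm hout k M.q (rec_smooth hk3 hFo hd0 M.q le_rfl))
    (fun p w hw => Bt_off h hs3 M.lam_norm hout k M.q p w hw) hε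
  have e2 := diff_small hC (G := fun om => Gm ψ M.lam (M.F om 0)) (p₀ := 0)
    (Gm_cda h hs3 M.lam_norm hout hb0 (fun w => (hFo w).of_le (by norm_num)))
    (fun p w hw => Gm_off h hs3 M.lam_norm hout p w hw) hε
  have e3 : ∀ j ≤ M.q, ∀ᶠ om in 𝓝 (0 : ℝ), ∀ w ∈ closedBall (0 : ℂ) M.s3, dn k (M.F om 0) j w ≠ 0 := by
    intro j hj
    apply nz_event (isCompact_closedBall _ _) (Q := fun om => dn k (M.F om 0) j) (p₀ := 0)
    · intro w
      have := dn_smooth (N := j) hk3 hFo (fun i hi w => hd0 i (by omega) w) w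
      exact this.continuousAt
    · intro w
      show dn k (M.F 0 0) j w ≠ 0
      rw [M.dn_om0]; exact M.lam_ne
  have e4 : ∀ᶠ om in 𝓝 (0 : ℝ), ∀ j ≤ M.q, ∀ w ∈ closedBall (0 : ℂ) M.s3, dn k (M.F om 0) j w ≠ 0 := by
    have := (Filter.eventually_all_finite (Set.finite_Iic M.q)
      (p := fun j om => ∀ w ∈ closedBall (0 : ℂ) M.s3, dn k (M.F om 0) j w ≠ 0) (l := 𝓝 (0:ℝ))).2 e3
    exact this
  obtain ⟨r3, hr3, h3⟩ := Metric.eventually_nhds_iff.1 (e1.and (e2.and e4))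
  refine ⟨min r1 (min r2 r3), by positivity, ?_⟩
  intro om hom homr
  have l1 : om < r1 := homr.trans_le (min_le_left _ _)
  have l2 : om < r2 := homr.trans_le ((min_le_right _ _).trans (min_le_left _ _))
  have l3 : om < r3 := homr.trans_le ((min_le_right _ _).trans (min_le_right _ _))
  obtain ⟨hok, hnl⟩ := h1 om (by rw [abs_of_pos hom]; exact l1)
  obtain ⟨f1, f2, f3⟩ := h3 (y := om) (by rw [Real.dist_eq, sub_zero, abs_of_pos hom]; exact l3)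
  have hX1 : ∀ t, 0 ≤ t → t ≤ 1 → ∀ w, M.s2 ≤ ‖(M.F om t)^[M.q] w‖ → ‖(M.F om t)^[M.q] w‖ ≤ M.s3 →
      ∃ i < M.q, k ((M.F om t)^[i] w) = 0 := by
    intro t ht0 ht1 w hw1 hw2
    obtain ⟨i, hi, hi2⟩ := M.exit1 (fun w hw => hnl t ht0 ht1 w hw) hη1 hw1 hw2
    exact ⟨i, hi, hkn _ hi2⟩
  have hstab : ∀ j, M.q ≤ j → bh k (M.F om 0) j = bh k (M.F om 0) M.q := by
    intro j hj
    apply bh_stab _ j hj
    intro w hw
    obtain ⟨g1, g2⟩ := M.wb_loc0 hok hw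
    obtain ⟨i, hi, hi2⟩ := hX1 0 le_rfl zero_le_one w g1 g2
    exact ⟨i, hi.le, hi2⟩
  have hdn : ∀ j ≤ M.q, ∀ w, dn k (M.F om 0) j w ≠ 0 := by
    intro j hj w
    by_cases hw : w ∈ closedBall (0 : ℂ) M.s3
    · exact f3 j hj w hw
    · have := dn_off' h hs3 M.lam_norm hout k om j w hw
      have h5 : dn k (M.F om 0) j w = M.lam := this
      rw [h5]; exact M.lam_ne
  refine ⟨hok, ?_, hX1, h2 om hom l2 hok, ?_, hstab, ?_, ?_⟩
  · intro t ht0 ht1 w hw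
    rcases le_total M.s3 ‖w‖ with h5 | h5
    · rw [M.F_out om t h5, norm_mul, M.lam_norm, one_mul]; exact hw
    · have h6 := hnl t ht0 ht1 w hw.le
      have h7 : ‖M.F om t w‖ ≤ ‖M.F om t w - M.lam * w‖ + ‖M.lam * w‖ := by
        have := norm_add_le (M.F om t w - M.lam * w) (M.lam * w)
        rwa [sub_add_cancel] at this
      rw [norm_mul, M.lam_norm, one_mul] at h7
      linarith
  · intro j w
    rcases le_total j M.q with hj | hj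
    · exact hdn j hj w
    · have : dn k (M.F om 0) j w = dn k (M.F om 0) M.q w := by
        rw [dn, dn, hstab j hj]
      rw [this]; exact hdn _ le_rfl w
  · have h6 : (fun z => Bt ψ k (M.F om 0) M.q z - Bt ψ k (M.F 0 0) M.q z) = Bt ψ k (M.F om 0) M.q := by
      funext z
      have : Bt ψ k (M.F 0 0) M.q z = 0 := by
        unfold Bt
        split_ifs
        · rw [M.bh_om0, zero_mul]
        · rfl
      rw [this, sub_zero]
    have := f1.1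
    rwa [h6] at this
  · intro x y
    have hz : ∀ z, Gm ψ M.lam (M.F 0 0) z = 0 := by
      intro z
      unfold Gm
      split_ifs
      · rw [M.F_om0, sub_self]
      · rfl
    have := f2.2 x y
    simp only [hz, sub_zero] at this
    exact this

/-- the choice of the twist -/
theorem stepB {ψ : ℂ → ℂ} (h : Inj ψ) {δ : ℝ} (hexit : ∀ w ∈ ball (0 : ℂ) 1, ‖w - 1‖ < δ → 3 / 4 < ‖ψ w‖)
    {k : ℂ → ℝ} (hk : ContDiff ℝ ∞ k)
    (hk0 : ∀ w, (w ∉ ball (0 : ℂ) 1 ∨ 3 / 4 ≤ ‖ψ w‖) → k w = 0) {ε : ℝ} (hε : 0 < ε) {om : ℝ}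
    (hok : M.Ok om) (hball : ∀ t, 0 ≤ t → t ≤ 1 → ∀ w : ℂ, ‖w‖ < 1 → ‖M.F om t w‖ < 1)
    (hX1 : ∀ t, 0 ≤ t → t ≤ 1 → ∀ w, M.s2 ≤ ‖(M.F om t)^[M.q] w‖ → ‖(M.F om t)^[M.q] w‖ ≤ M.s3 →
        ∃ i < M.q, k ((M.F om t)^[i] w) = 0)
    (hX2 : ∃ N, ∀ t, 0 ≤ t → t ≤ 1 → ∀ w : ℂ,
        M.ra * ‖w‖ ^ M.q ≤ ‖1 + M.A * w ^ M.q‖ → ‖1 + M.A * w ^ M.q‖ ≤ M.rb * ‖w‖ ^ M.q →
        ∃ i ≤ N, ‖(M.F om t)^[i] w - 1‖ < δ)
    (hdn : ∀ j, ∀ w, dn k (M.F om 0) j w ≠ 0)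
    (hstab : ∀ j, M.q ≤ j → bh k (M.F om 0) j = bh k (M.F om 0) M.q)
    (hW : Wn ε (Bt ψ k (M.F om 0) M.q))
    (hL : ∀ x y, ‖Gm ψ M.lam (M.F om 0) x - Gm ψ M.lam (M.F om 0) y‖ ≤ ε * ‖x - y‖) :
    ∃ (N : ℕ) (κ : ℝ), 0 < κ ∧ κ ≤ 1 ∧ ∀ t, 0 ≤ t → t ≤ κ →
      (∀ w, wb (M.F om t) ((M.F om t)^[N] w) ≠ 0 → ∃ i ≤ N, k ((M.F om t)^[i] w) = 0) ∧
      (∀ w, dn k (M.F om t) N w ≠ 0) ∧ Wn (2 * ε) (Bt ψ k (M.F om t) N) ∧
      (∀ x y, ‖Gm ψ M.lam (M.F om t) x - Gm ψ M.lam (M.F om t) y‖ ≤ 2 * ε * ‖x - y‖) := by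
  have hs3 := M.hs3
  have hkn : ∀ v : ℂ, ‖v - 1‖ < δ → k v = 0 := by
    intro v hv
    apply hk0
    by_cases hb : v ∈ ball (0 : ℂ) 1
    · exact Or.inr (hexit v hb hv).le
    · exact Or.inl hb
  obtain ⟨N2, hN2⟩ := hX2
  set N := N2 + M.q with hN
  have hk3 : ContDiff ℝ (3 : ℕ) k := contDiff_infty.1 hk 3
  have hFo : ∀ w, ContDiffAt ℝ (3 + 1 : ℕ) (Function.uncurry fun t w => M.F om t w) (0, w) :=
    fun w => M.F_smooth_t (M.D_re hok le_rfl zero_le_one w)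
  have hd0 : ∀ j < N, ∀ w, dn k ((fun t w => M.F om t w) 0) j w ≠ 0 := fun j _ w => hdn j w
  have hout : ∀ (p : ℝ) (w : ℂ), M.s3 ≤ ‖w‖ → (fun t w => M.F om t w) p w = M.lam * w :=
    fun p w hw => M.F_out om p hw
  have hC := h.compact_C hs3
  have e1 := diff_small hC (G := fun t => Bt ψ k (M.F om t) N) (p₀ := 0)
    (Bt_cda h hs3 M.lam_norm hout k N (rec_smooth hk3 hFo hd0 N le_rfl))
    (fun p w hw => Bt_off h hs3 M.lam_norm hout k N p w hw) hε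
  have e2 := diff_small hC (G := fun t => Gm ψ M.lam (M.F om t)) (p₀ := 0)
    (Gm_cda h hs3 M.lam_norm hout (hball 0 le_rfl zero_le_one) (fun w => (hFo w).of_le (by norm_num)))
    (fun p w hw => Gm_off h hs3 M.lam_norm hout p w hw) hε
  have e3 : ∀ᶠ t in 𝓝 (0 : ℝ), ∀ w ∈ closedBall (0 : ℂ) M.s3, dn k (M.F om t) N w ≠ 0 := by
    apply nz_event (isCompact_closedBall _ _) (Q := fun t => dn k (M.F om t) N) (p₀ := 0)
    · intro w
      have := dn_smooth (N := N) hk3 hFo hd0 w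
      exact this.continuousAt
    · intro w
      exact hdn N w
  obtain ⟨r3, hr3, h3⟩ := Metric.eventually_nhds_iff.1 (e1.and (e2.and e3))
  refine ⟨N, min (r3 / 2) 1, by positivity, min_le_right _ _, ?_⟩
  intro t ht0 htk
  have ht1 : t ≤ 1 := htk.trans (min_le_right _ _)
  have htr : t < r3 := by
    have := htk.trans (min_le_left _ _)
    linarith
  obtain ⟨f1, f2, f3⟩ := h3 (y := t) (by rw [Real.dist_eq, sub_zero, abs_of_nonneg ht0]; exact htr)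
  refine ⟨?_, ?_, ?_, ?_⟩
  · intro w hw
    rcases M.wb_loc hok ht0 ht1 hw with ⟨g1, g2⟩ | ⟨g1, g2⟩
    · have e : (M.F om t)^[N] w = (M.F om t)^[M.q] ((M.F om t)^[N2] w) := by
        rw [← Function.iterate_add_apply, hN, add_comm]
      rw [e] at g1 g2
      obtain ⟨i, hi, hi2⟩ := hX1 t ht0 ht1 _ g1 g2
      rw [← Function.iterate_add_apply] at hi2
      exact ⟨i + N2, by omega, hi2⟩
    · have hinv : ∀ j : ℕ, (M.ra * ‖(M.F om t)^[j] w‖ ^ M.q ≤ ‖1 + M.A * ((M.F om t)^[j] w) ^ M.q‖ ↔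
          M.ra * ‖w‖ ^ M.q ≤ ‖1 + M.A * w ^ M.q‖) ∧
          (M.rb * ‖(M.F om t)^[j] w‖ ^ M.q < ‖1 + M.A * ((M.F om t)^[j] w) ^ M.q‖ ↔
          M.rb * ‖w‖ ^ M.q < ‖1 + M.A * w ^ M.q‖) := by
        intro j
        induction j with
        | zero => simp
        | succ j ih =>
          rw [Function.iterate_succ_apply', M.reg_le (M.D_ne hok ht0 ht1 _), M.reg_lt (M.D_ne hok ht0 ht1 _)]
          exact ih
      have g1' := (hinv N).1.1 g1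
      have g2' : ‖1 + M.A * w ^ M.q‖ ≤ M.rb * ‖w‖ ^ M.q := by
        by_contra hne
        push Not at hne
        have := (hinv N).2.2 hne
        linarith
      obtain ⟨i, hi, hi2⟩ := hN2 t ht0 ht1 w g1' g2'
      exact ⟨i, by omega, hkn _ hi2⟩
  · intro w
    by_cases hw : w ∈ closedBall (0 : ℂ) M.s3
    · exact f3 w hw
    · have h5 : dn k (M.F om t) N w = M.lam := dn_off' h hs3 M.lam_norm hout k t N w hw
      rw [h5]; exact M.lam_ne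
  · have h7 : Bt ψ k (M.F om 0) M.q = Bt ψ k (M.F om 0) N := by
      funext z
      rw [Bt, Bt, hstab N (by omega)]
    rw [h7] at hW
    have h8 := hW.add f1.1
    have h9 : (fun z => Bt ψ k (M.F om 0) N z + (Bt ψ k (M.F om t) N z - Bt ψ k (M.F om 0) N z)) =
        Bt ψ k (M.F om t) N := by
      funext z; ring
    rw [h9] at h8
    exact h8.mono (by linarith)
  · intro x y
    have h8 := f2.2 x y
    have h9 := hL x y
    have e : Gm ψ M.lam (M.F om t) x - Gm ψ M.lam (M.F om t) y =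
        ((Gm ψ M.lam (M.F om t) x - Gm ψ M.lam (M.F om 0) x) - (Gm ψ M.lam (M.F om t) y - Gm ψ M.lam (M.F om 0) y)) +
        (Gm ψ M.lam (M.F om 0) x - Gm ψ M.lam (M.F om 0) y) := by ring
    rw [e]
    refine (norm_add_le _ _).trans ?_
    linarith

end Mod

end Pool.Agent.Y297
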