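import Pool.Agent.Y297.StageA

/-!
# Properties of one stage
-/

set_option autoImplicit false
set_option linter.all false

open Set Metric Filter Topology
open scoped ContDiff ComplexConjugate Manifold

noncomputable section

namespace Pool.Agent.Y297

theorem mod_exists {q : ℕ} (hq : 0 < q) {lam : ℂ} (hlam : IsPrimitiveRoot lam q) {d : ℝ} (hd0 : 0 < d)
    (hd1 : d < 1) {ρ : ℝ} (hρ : 0 < ρ) :
    ∃ M : Mod, M.q = q ∧ M.lam = lam ∧ 1 - M.s1 = d ∧ 2 < M.A ∧ 1 ≤ M.ra ∧ (M.A - 1)⁻¹ < ρ ^ q := by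
  set s1 : ℝ := 1 - d with hs1
  set s2 : ℝ := 1 - d / 2 with hs2
  set s3 : ℝ := 1 - d / 4 with hs3
  have h10 : 0 < s1 := by rw [hs1]; linarith
  have h12 : s1 < s2 := by rw [hs1, hs2]; linarith
  have h23 : s2 < s3 := by rw [hs2, hs3]; linarith
  have h31 : s3 < 1 := by rw [hs3]; linarith
  have h20 : 0 < s2 := h10.trans h12
  set a : ℝ := (s1 ^ q)⁻¹ with ha
  set b : ℝ := (s2 ^ q)⁻¹ with hb
  have hba : b < a := by
    rw [ha, hb]
    apply inv_strictAnti₀ (pow_pos h10 q)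
    exact pow_lt_pow_left₀ h12 h10.le hq.ne'
  have hb1 : 1 < b := by
    rw [hb, one_lt_inv₀ (pow_pos h20 _)]
    exact pow_lt_one₀ h20.le (h23.trans h31) hq.ne'
  set A : ℝ := a + 2 + (ρ ^ q)⁻¹ with hA
  have hρq : 0 < ρ ^ q := pow_pos hρ q
  have hρi : 0 < (ρ ^ q)⁻¹ := inv_pos.2 hρq
  set ra : ℝ := A - (2 * a + b) / 3 with hra
  set rb : ℝ := A - (a + 2 * b) / 3 with hrb
  have hra1 : 1 ≤ ra := by rw [hra, hA]; linarith
  have hrab : ra < rb := by rw [hra, hrb]; linarith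
  -- the cutoffs
  obtain ⟨x1, x1s, x1z, x1o, x1b⟩ := urys (s := {w : ℂ | s3 ≤ ‖w‖}) (t := {w : ℂ | ‖w‖ ≤ s2})
    (isClosed_le continuous_const continuous_norm) (isClosed_le continuous_norm continuous_const) (by
      rw [Set.disjoint_left]
      intro w hw hw'
      simp only [mem_setOf_eq] at hw hw'
      linarith)
  obtain ⟨tau, taus, tauz, tauo, taub⟩ := urys (s := {w : ℂ | rb * ‖w‖ ^ q ≤ ‖1 + A * w ^ q‖})
    (t := {w : ℂ | ‖1 + A * w ^ q‖ ≤ ra * ‖w‖ ^ q})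
    (isClosed_le (by fun_prop) (by fun_prop)) (isClosed_le (by fun_prop) (by fun_prop)) (by
      rw [Set.disjoint_left]
      intro w hw hw'
      simp only [mem_setOf_eq] at hw hw'
      have h1 : rb * ‖w‖ ^ q ≤ ra * ‖w‖ ^ q := hw.trans hw'
      have h2 : 0 ≤ ‖w‖ ^ q := by positivity
      have h3 : ‖w‖ ^ q = 0 := by nlinarith
      have h4 : w = 0 := by
        have := (pow_eq_zero_iff hq.ne').1 h3
        exact norm_eq_zero.1 this
      rw [h4, norm_zero, zero_pow hq.ne', zero_pow hq.ne'] at hw'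
      simp at hw'
      norm_num at hw')
  refine ⟨{ q := q, lam := lam, A := A, s1 := s1, s2 := s2, s3 := s3, ra := ra, rb := rb, x1 := x1, tau := tau,
            hq := hq, hlam := hlam, hA := by rw [hA]; linarith, hs1 := h10, hs12 := h12, hs23 := h23, hs3 := h31,
            hra0 := by linarith, hra := by rw [hra]; linarith, hrab := hrab, hrb := by rw [hrb]; linarith,
            x1s := x1s, x1_one := x1o, x1_zero := x1z, x1_nn := fun w => (x1b w).1, x1_le := fun w => (x1b w).2,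
            taus := taus, tau_one := tauo, tau_zero := tauz, tau_nn := fun w => (taub w).1,
            tau_le := fun w => (taub w).2 }, rfl, rfl, ?_, ?_, hra1, ?_⟩
  · show 1 - s1 = d
    rw [hs1]; ring
  · show 2 < A
    rw [hA]; linarith
  · show (A - 1)⁻¹ < ρ ^ q
    rw [inv_lt_comm₀ (by rw [hA]; linarith) hρq, hA]
    linarith

namespace Mod

variable (M : Mod)

theorem mem_X {w : ℂ} : w ∈ M.X '' ball 0 1 ↔ M.B * ‖w‖ ^ M.q < ‖1 + M.A * w ^ M.q‖ := by
  constructor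
  · rintro ⟨w', hw', rfl⟩
    exact chi_region M.hq M.hA0.le M.hAB (by simpa using hw')
  · intro hw
    obtain ⟨w', h1, h2⟩ := chi_surj M.hq M.hA0 M.hAB hw
    exact ⟨w', by simpa using h1, h2⟩

theorem F_X' {om t : ℝ} (hok : M.Ok om) (ht0 : 0 ≤ t) (ht1 : t ≤ 1) {w : ℂ} :
    M.F om t w ∈ M.X '' ball 0 1 ↔ w ∈ M.X '' ball 0 1 := by
  rw [M.mem_X, M.mem_X, M.reg_lt (M.D_ne hok ht0 ht1 w)]

theorem wb_X {om t : ℝ} (hok : M.Ok om) (ht0 : 0 ≤ t) (ht1 : t ≤ 1) {w : ℂ} (hw : w ∈ M.X '' ball 0 1) :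
    wb (M.F om t) w = 0 := by
  by_contra hne
  rw [M.mem_X] at hw
  have h1 : ‖w‖ < M.s2 := reg2 M.hA0 M.hs2 rfl hw
  rcases M.wb_loc hok ht0 ht1 hne with ⟨h2, -⟩ | ⟨-, h2⟩
  · linarith
  · have h3 : 0 ≤ ‖w‖ ^ M.q := by positivity
    have := M.rbA
    have := M.hAB
    nlinarith

theorem bh_X {om t : ℝ} (hok : M.Ok om) (ht0 : 0 ≤ t) (ht1 : t ≤ 1) (k : ℂ → ℝ) (N : ℕ) {w : ℂ}
    (hw : w ∈ M.X '' ball 0 1) : bh k (M.F om t) N w = 0 := by
  apply bh_off (C := (M.X '' ball 0 1)ᶜ)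
  · intro w hw
    rw [notMem_compl_iff] at hw
    exact M.wb_X hok ht0 ht1 hw
  · intro w hw
    rw [notMem_compl_iff] at hw ⊢
    rw [M.F_X' hok ht0 ht1]
    exact hw
  · rw [notMem_compl_iff]; exact hw

theorem X_zero : M.X 0 = 0 := chi_zero _ _ _

theorem X_one : M.X 1 = M.s2 := by
  have h1 : ((M.B : ℂ) - M.A * 1 ^ M.q) = (((M.s2 ^ M.q)⁻¹ : ℝ) : ℂ) := by
    rw [one_pow, mul_one, B]
    push_cast
    ring
  rw [X, chi, h1, rt_inv_pow M.hq M.hs2, one_mul]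

theorem X_cont {w : ℂ} (hw : ‖w‖ ≤ 1) : ContinuousAt M.X w := by
  obtain ⟨d, -, hd⟩ := chi_deriv M.hq M.hA0.le M.hAB hw
  exact hd.continuousAt

theorem inj_comp {ψ : ℂ → ℂ} (h : Inj ψ) : Inj (ψ ∘ M.X) := by
  have hb : ∀ w ∈ ball (0 : ℂ) 1, M.X w ∈ ball (0 : ℂ) 1 := by
    intro w hw
    rw [mem_ball_zero_iff] at hw ⊢
    exact (M.X_small hw).trans M.hs2'
  have hd : ∀ w ∈ ball (0 : ℂ) 1, ∃ d, d ≠ 0 ∧ HasDerivAt (ψ ∘ M.X) d w := by
    intro w hw
    obtain ⟨d, hd0, hd⟩ := chi_deriv M.hq M.hA0.le M.hAB (mem_ball_zero_iff.1 hw).le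
    refine ⟨deriv ψ (M.X w) * d, mul_ne_zero (h.der _ (hb w hw)) hd0, ?_⟩
    exact (h.analytic (hb w hw)).differentiableAt.hasDerivAt.comp w hd
  refine ⟨?_, ?_, ?_, ?_, ?_⟩
  · intro w hw
    obtain ⟨d, -, h1⟩ := hd w hw
    exact h1.differentiableAt.differentiableWithinAt
  · intro w hw w' hw' he
    have h1 : M.X w = M.X w' := h.inj (hb w hw) (hb w' hw') he
    exact chi_inj M.hq M.hA0.le M.hAB (mem_ball_zero_iff.1 hw).le (mem_ball_zero_iff.1 hw').le h1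
  · intro w hw
    obtain ⟨d, h0, h1⟩ := hd w hw
    rw [h1.deriv]; exact h0
  · intro w hw
    exact h.maps _ (hb w hw)
  · show ψ (M.X 0) = 0
    rw [M.X_zero, h.zero]

/-- the Beltrami relation in the plane -/
theorem belt_rel {ψ : ℂ → ℂ} (h : Inj ψ) {k : ℂ → ℝ} {om t : ℝ} (hok : M.Ok om) (ht0 : 0 ≤ t) (ht1 : t ≤ 1) {N : ℕ}
    (hball : ∀ w : ℂ, ‖w‖ < 1 → ‖M.F om t w‖ < 1)
    (hk1 : ∀ w : ℂ, ‖w‖ ≤ M.s3 → ‖ψ w‖ ≤ 1 / 2 → k w = 1)
    (hst : ∀ w, wb (M.F om t) ((M.F om t)^[N] w) ≠ 0 → ∃ i ≤ N, k ((M.F om t)^[i] w) = 0)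
    (hdn : ∀ w, dn k (M.F om t) N w ≠ 0) {w : ℂ} (hw : w ∈ ball (0 : ℂ) 1) (hw2 : ‖ψ w‖ < 1 / 2) :
    ∃ a b : ℂ, HasFDerivAt (fun z => ψ (M.lam * ph ψ z) + Gm ψ M.lam (M.F om t) z) (lin a b) (ψ w) ∧
      Bt ψ k (M.F om t) N (ψ w) * (a + Bt ψ k (M.F om t) N (ψ (M.F om t w)) * conj b) =
        b + Bt ψ k (M.F om t) N (ψ (M.F om t w)) * conj a := by
  set u := M.F om t w with hu
  have hub : u ∈ ball (0 : ℂ) 1 := by
    rw [mem_ball_zero_iff] at hw ⊢
    exact hball w hw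
  set P := deriv ψ w with hP
  set R := deriv ψ u with hR
  have hP0 : P ≠ 0 := h.der w hw
  have hR0 : R ≠ 0 := h.der u hub
  have hP0' : conj P ≠ 0 := (map_ne_zero _).2 hP0
  have hR0' : conj R ≠ 0 := (map_ne_zero _).2 hR0
  set a := wa (M.F om t) w with ha
  set b := wb (M.F om t) w with hb
  refine ⟨R * a / P, R * b / conj P, ?_, ?_⟩
  · have e1 : HasFDerivAt (ph ψ) (lin P⁻¹ 0) (ψ w) := hasFDerivAt_of_deriv (h.ph_deriv hw)
    have e2 : HasFDerivAt (M.F om t) (lin a b) (ph ψ (ψ w)) := by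
      rw [ph_psi h hw]
      exact hasFDerivAt_lin ((M.F_smooth_w (n := 1) (M.D_re hok ht0 ht1 w)).differentiableAt (by norm_num))
    have e3 : HasFDerivAt ψ (lin R 0) (M.F om t (ph ψ (ψ w))) := by
      rw [ph_psi h hw]
      exact hasFDerivAt_of_deriv (h.analytic hub).differentiableAt.hasDerivAt
    have e4 := e3.comp (ψ w) (e2.comp (ψ w) e1)
    have e5 : (lin R 0).comp ((lin a b).comp (lin P⁻¹ 0)) = lin (R * a / P) (R * b / conj P) := by
      ext v
      simp only [ContinuousLinearMap.comp_apply, lin_apply, zero_mul, add_zero, map_mul, map_inv₀]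
      field_simp
    rw [e5] at e4
    refine e4.congr_of_eventuallyEq ?_
    filter_upwards [h.Es_open.mem_nhds (mem_Es hw)] with z hz
    simp only [Gm, if_pos hz, Function.comp]
    ring
  · rw [Bt_in h hw, Bt_in h hub, ← hP, ← hR]
    have hmain : bh k (M.F om t) N w * (a + bh k (M.F om t) N u * conj b) =
        b + bh k (M.F om t) N u * conj a := by
      rcases le_total ‖w‖ M.s3 with h1 | h1
      · exact bh_eq hst (hk1 w h1 hw2.le) (hdn w)
      · have h2 : M.s3 ≤ ‖u‖ := by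
          rw [hu, M.F_out om t h1, norm_mul, M.lam_norm, one_mul]
          exact h1
        rcases h1.lt_or_eq with h1 | h1
        · have h2 : M.s3 < ‖u‖ := by
            rw [hu, M.F_out om t h1.le, norm_mul, M.lam_norm, one_mul]
            exact h1
          have hout : ∀ (p : ℝ) (w : ℂ), M.s3 ≤ ‖w‖ → (fun t w => M.F om t w) p w = M.lam * w :=
            fun p w hw => M.F_out om p hw
          have e1 : bh k (M.F om t) N w = 0 :=
            bh_off' h M.hs3 M.lam_norm hout k t N w (by rw [mem_closedBall_zero_iff, not_le]; exact h1)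
          have e2 : bh k (M.F om t) N u = 0 :=
            bh_off' h M.hs3 M.lam_norm hout k t N u (by rw [mem_closedBall_zero_iff, not_le]; exact h2)
          have e3 : b = 0 := (M.F_wab_out om t h1).2
          rw [e1, e2, e3]; ring
        · exact bh_eq hst (hk1 w h1.ge hw2.le) (hdn w)
    simp only [map_div₀, map_mul, Complex.conj_conj]
    field_simp
    linear_combination hmain

end Mod

end Pool.Agent.Y297
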