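import Pool.Agent.Y297.StageB

/-!
# One stage: stable set, small cycle, and the stage theorem
-/

set_option autoImplicit false
set_option linter.all false

open Set Metric Filter Topology
open scoped ContDiff ComplexConjugate Manifold

noncomputable section

namespace Pool.Agent.Y297

/-- the rational rotation multiplier -/
def lm (q p : ℕ) : ℂ := Complex.exp (2 * Real.pi * Complex.I * (p / q))

theorem lm_norm (q p : ℕ) : ‖lm q p‖ = 1 := by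
  rw [lm]
  have : (2 * Real.pi * Complex.I * (p / q) : ℂ) = ((2 * Real.pi * (p / q) : ℝ) : ℂ) * Complex.I := by
    push_cast; ring
  rw [this, Complex.norm_exp_ofReal_mul_I]

/-- the state before a stage -/
structure PreG (q p : ℕ) (ψ : ℂ → ℂ) : Prop where
  hq : 0 < q
  cop : p.Coprime q
  inj : Inj ψ
  ex : ∃ δ > 0, Real.pi / q < δ / 2 ∧ ∀ w ∈ ball (0 : ℂ) 1, ‖w - 1‖ < δ → 3 / 4 < ‖ψ w‖

/-- the data of a stage -/
structure Stg where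
  q : ℕ
  p : ℕ
  Q : ℕ
  ψ : ℂ → ℂ
  X : ℂ → ℂ
  kap : ℝ
  s : ℝ
  Fw : ℝ → ℂ → ℂ
  Gam : ℝ → ℂ → ℂ
  bet : ℝ → ℂ → ℂ

/-- the properties of a stage -/
structure GoodS (n : ℕ) (ε : ℝ) (d : Stg) : Prop where
  pre : PreG d.q d.p d.ψ
  pre' : PreG (d.q * d.Q) (d.p * d.Q + 1) (d.ψ ∘ d.X)
  hQ : n + 2 ≤ d.Q
  kap0 : 0 < d.kap
  kap1 : d.kap ≤ 1
  hs : d.s < 1
  X_maps : ∀ w ∈ ball (0 : ℂ) 1, d.X w ∈ ball (0 : ℂ) 1 ∧ ‖d.X w‖ ≤ d.s
  F_zero : ∀ t, d.Fw t 0 = 0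
  Gam_off : ∀ t z, z ∉ d.ψ '' closedBall 0 d.s → d.Gam t z = 0
  F_ball : ∀ t, 0 ≤ t → t ≤ d.kap → ∀ w ∈ ball (0 : ℂ) 1, d.Fw t w ∈ ball (0 : ℂ) 1
  F_eq : ∀ t, ∀ w ∈ ball (0 : ℂ) 1,
    d.ψ (lm d.q d.p * w) + d.Gam t (d.ψ w) = d.ψ (d.Fw t w)
  F_X : ∀ t, 0 ≤ t → t ≤ d.kap → ∀ w ∈ ball (0 : ℂ) 1,
    d.Fw t (d.X w) = d.X (lm (d.q * d.Q) (d.p * d.Q + 1) * w)
  F_X' : ∀ t, 0 ≤ t → t ≤ d.kap → ∀ w, w ∉ d.X '' ball 0 1 → d.Fw t w ∉ d.X '' ball 0 1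
  Gam_lip : ∀ t, 0 ≤ t → t ≤ d.kap → ∀ x y, ‖d.Gam t x - d.Gam t y‖ ≤ ε * ‖x - y‖
  bet_wn : ∀ t, 0 ≤ t → t ≤ d.kap → Wn ε (d.bet t)
  bet_off : ∀ t z, z ∉ Es d.ψ → d.bet t z = 0
  bet_X : ∀ t, 0 ≤ t → t ≤ d.kap → ∀ w ∈ ball (0 : ℂ) 1, d.bet t (d.ψ (d.X w)) = 0
  belt : ∀ t, 0 ≤ t → t ≤ d.kap → ∀ w ∈ ball (0 : ℂ) 1, ‖d.ψ w‖ < 1 / 2 →
    ∃ a b : ℂ, HasFDerivAt (fun z => d.ψ (lm d.q d.p * ph d.ψ z) + d.Gam t z) (lin a b) (d.ψ w) ∧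
      d.bet t (d.ψ w) * (a + d.bet t (d.ψ (d.Fw t w)) * conj b) = b + d.bet t (d.ψ (d.Fw t w)) * conj a
  K : ∀ t t', 0 ≤ t → t ≤ d.kap → 0 ≤ t' → t' ≤ d.kap → Irrational t →
    ∀ w ∈ ball (0 : ℂ) 1, w ∉ d.X '' ball 0 1 → (∀ i, ‖d.ψ ((d.Fw t)^[i] w)‖ ≤ 1 / 4) →
      ∀ i, ‖d.ψ ((d.Fw t')^[i] w)‖ ≤ 1 / 4
  cyc : ∀ t, 0 ≤ t → t ≤ d.kap → ∃ η : ℂ → ℂ, ContinuousOn η (closedBall 0 1) ∧ InjOn η (closedBall 0 1) ∧
    (∀ r > 0, η '' (ball 0 r ∩ closedBall 0 1) ∈ 𝓝 (η 0)) ∧ η 0 ≠ 0 ∧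
    (∀ u ∈ closedBall (0 : ℂ) 1, η u ∈ ball (0 : ℂ) 1 ∧ η u ∉ d.X '' ball 0 1) ∧
    (∀ u ∈ closedBall (0 : ℂ) 1, (d.Fw t)^[d.q] (η u) =
      η (Complex.exp (-((2 * Real.pi * (d.q * (1 + t) / d.Q) : ℝ) * Complex.I)) * u)) ∧
    ∀ u ∈ closedBall (0 : ℂ) 1, ∀ i, ‖d.ψ ((d.Fw t)^[i] (η u))‖ ≤ 1 / (n + 1)

namespace Mod

variable (M : Mod)

theorem F_tau0 {om t t' : ℝ} {w : ℂ} (hw : M.tau w = 0) : M.F om t w = M.F om t' w := by
  have : M.c om t w = M.c om t' w := by rw [c, c, hw, mul_zero, mul_zero]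
  rw [F, F, D, D, this]

theorem F_mid_iter {om t t' : ℝ} (hok : M.Ok om) (ht0 : 0 ≤ t) (ht1 : t ≤ 1) {w : ℂ}
    (hw : M.rb * ‖w‖ ^ M.q ≤ ‖1 + M.A * w ^ M.q‖) (i : ℕ) :
    (M.F om t)^[i] w = (M.F om t')^[i] w ∧
      M.rb * ‖(M.F om t)^[i] w‖ ^ M.q ≤ ‖1 + M.A * ((M.F om t)^[i] w) ^ M.q‖ := by
  induction i with
  | zero => exact ⟨rfl, hw⟩
  | succ i ih =>
    constructor
    · rw [Function.iterate_succ_apply', Function.iterate_succ_apply', ← ih.1]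
      exact M.F_tau0 (M.tau_zero _ ih.2)
    · rw [Function.iterate_succ_apply', M.reg_le (M.D_ne hok ht0 ht1 _)]
      exact ih.2

theorem K_rel {ψ : ℂ → ℂ} (h : Inj ψ) {om t t' : ℝ} (hok : M.Ok om) (hom : 0 ≤ om)
    (ht0 : 0 ≤ t) (ht1 : t ≤ 1) (ht0' : 0 ≤ t') (ht1' : t' ≤ 1)
    (hball : ∀ w : ℂ, ‖w‖ < 1 → ‖M.F om t w‖ < 1)
    (hirr : Irrational (M.q * (om * (1 + t)) / (2 * Real.pi)))
    (hX2 : ∀ w : ℂ, M.ra * ‖w‖ ^ M.q ≤ ‖1 + M.A * w ^ M.q‖ → ‖1 + M.A * w ^ M.q‖ ≤ M.rb * ‖w‖ ^ M.q →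
        ∃ i, ‖w‖ < 1 → 3 / 4 < ‖ψ ((M.F om t)^[i] w)‖)
    {w : ℂ} (hw : ‖w‖ < 1) (hK : ∀ i, ‖ψ ((M.F om t)^[i] w)‖ ≤ 1 / 4) (i : ℕ) :
    ‖ψ ((M.F om t')^[i] w)‖ ≤ 1 / 4 := by
  rcases le_total (M.rb * ‖w‖ ^ M.q) ‖1 + M.A * w ^ M.q‖ with h1 | h1
  · rw [← (M.F_mid_iter (t' := t') hok ht0 ht1 h1 i).1]
    exact hK i
  rcases le_total (M.ra * ‖w‖ ^ M.q) ‖1 + M.A * w ^ M.q‖ with h2 | h2
  · exfalso
    obtain ⟨j, hj⟩ := hX2 w h2 h1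
    have := hj hw
    have := hK j
    linarith
  -- the inner discs
  have hraA : M.ra < M.A := M.hrab.trans M.rbA
  obtain ⟨ζ, W, hz, hW, rfl⟩ := M.param hraA h2
  have hWA : ‖W‖ < M.A := hW.trans_lt hraA
  obtain ⟨φ, -, -, hφ, hφa⟩ := M.iter_g hok hom ht0 ht1 hz (hW.trans M.hrab.le)
  obtain ⟨φ', -, -, hφ', -⟩ := M.iter_g hok hom ht0' ht1' hz (hW.trans M.hrab.le)
  rw [hφ']
  set c' : ℂ := Complex.exp (-(φ' i * Complex.I)) with hc'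
  have hc'n : ‖c'‖ = 1 := by rw [hc', Complex.norm_exp]; simp
  set j := i % M.q with hj
  have hlamj : M.lam ^ i = M.lam ^ j := by
    rw [hj]; exact (pow_mod_orderOf_aux M i)
  rw [hlamj]
  -- closedness
  have hgb : ∀ V : ℂ, ‖V‖ ≤ ‖W‖ → ‖M.lam ^ j * ζ * M.g V‖ < 1 := by
    intro V hV
    have hVA : ‖V‖ < M.A := hV.trans_lt hWA
    have h5 : ‖M.lam ^ j * ζ * M.g V‖ < M.s2 := by
      apply reg1 M.hA0 M.hs2 M.hrb
      rw [M.zg_reg (M.lz_pow hz j) hVA]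
      exact mul_le_mul_of_nonneg_right (hV.trans (hW.trans M.hrab.le)) (by positivity)
    exact h5.trans M.hs2'
  have hcont : ContinuousAt (fun c : ℂ => ‖ψ (M.lam ^ j * ζ * M.g (c * W))‖) c' := by
    have e1 : ‖c' * W‖ = ‖W‖ := by rw [norm_mul, hc'n, one_mul]
    have e2 : ContinuousAt M.g (c' * W) := M.g_cont (by rw [e1]; exact hWA)
    have e3 : ContinuousAt (fun c : ℂ => M.g (c * W)) c' :=
      ContinuousAt.comp (g := M.g) (f := fun c : ℂ => c * W) e2 (by fun_prop)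
    have e4 : ContinuousAt (fun c : ℂ => M.lam ^ j * ζ * M.g (c * W)) c' := continuousAt_const.mul e3
    have e5 : ContinuousAt ψ (M.lam ^ j * ζ * M.g (c' * W)) :=
      (h.analytic (by rw [mem_ball_zero_iff]; exact hgb _ e1.le)).continuousAt
    exact (ContinuousAt.comp (g := ψ) (f := fun c : ℂ => M.lam ^ j * ζ * M.g (c * W)) e5 e4).norm
  by_contra hne
  push Not at hne
  have hev := hcont.eventually_const_lt hne
  obtain ⟨γ, hγ, hγ2⟩ := Metric.eventually_nhds_iff.1 hev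
  -- approximate c'
  set θ : ℝ := M.q * (om * (1 + t)) / (2 * Real.pi) with hθ
  have hpi := Real.pi_pos
  -- we need exp(-(j + m q) om (1+t) i) close to c'
  set u : ℂ := (starRingEnd ℂ) (c' * Complex.exp ((j * (om * (1 + t)) : ℝ) * Complex.I)) with hu
  have hun : ‖u‖ = 1 := by
    rw [hu, RCLike.norm_conj, norm_mul, hc'n, Complex.norm_exp_ofReal_mul_I, mul_one]
  obtain ⟨m, hm⟩ := irr_dense hirr hun hγ
  have hfin := hK (j + m * M.q)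
  rw [hφ, hφa hW] at hfin
  have hlam2 : M.lam ^ (j + m * M.q) = M.lam ^ j := by
    rw [pow_add, mul_comm m, pow_mul, M.lam_pow, one_pow, mul_one]
  rw [hlam2] at hfin
  have hclose : dist (Complex.exp (-((((j + m * M.q : ℕ) : ℝ) * (om * (1 + t)) : ℝ) * Complex.I))) c' < γ := by
    rw [dist_eq_norm]
    have e1 : Complex.exp (-((((j + m * M.q : ℕ) : ℝ) * (om * (1 + t)) : ℝ) * Complex.I)) - c' =
        Complex.exp (-((j * (om * (1 + t)) : ℝ) * Complex.I)) *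
        (starRingEnd ℂ) (Complex.exp (2 * Real.pi * θ * m * Complex.I) - u) := by
      have e2 : (starRingEnd ℂ) (Complex.exp (2 * Real.pi * θ * m * Complex.I)) =
          Complex.exp (-((m * (M.q * (om * (1 + t))) : ℝ) * Complex.I)) := by
        rw [← Complex.exp_conj]
        congr 1
        rw [hθ]
        simp only [map_mul, Complex.conj_I, Complex.conj_ofReal, map_ofNat, map_natCast]
        push_cast
        have : (Real.pi : ℂ) ≠ 0 := by exact_mod_cast hpi.ne'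
        field_simp
      have e3 : Complex.exp (-((j * (om * (1 + t)) : ℝ) * Complex.I)) *
          Complex.exp ((j * (om * (1 + t)) : ℝ) * Complex.I) = 1 := by
        rw [← Complex.exp_add]; simp
      rw [map_sub, e2, hu, Complex.conj_conj, mul_sub, ← Complex.exp_add]
      have e4 : -((((j + m * M.q : ℕ) : ℝ) * (om * (1 + t)) : ℝ) * Complex.I) =
          -((j * (om * (1 + t)) : ℝ) * Complex.I) + -((m * (M.q * (om * (1 + t))) : ℝ) * Complex.I) := by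
        push_cast; ring
      rw [e4]
      linear_combination c' * e3
    rw [e1, norm_mul, RCLike.norm_conj]
    have e5 : ‖Complex.exp (-((j * (om * (1 + t)) : ℝ) * Complex.I))‖ = 1 := by
      rw [Complex.norm_exp]; simp
    rw [e5, one_mul]
    exact hm
  have := hγ2 hclose
  linarith
where
  pow_mod_orderOf_aux (M : Mod) (i : ℕ) : M.lam ^ i = M.lam ^ (i % M.q) := by
    conv_lhs => rw [← Nat.mod_add_div i M.q]
    rw [pow_add, pow_mul, M.lam_pow, one_pow, mul_one]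

theorem g_deriv0 : ∃ d : ℂ, d ≠ 0 ∧ HasStrictDerivAt M.g d 0 := by
  have h1 : 0 < ((M.A : ℂ) - 0).re := by
    rw [sub_zero, Complex.ofReal_re]; exact M.hA0
  have ho : IsOpen {z : ℂ | 0 < z.re} := isOpen_lt continuous_const Complex.continuous_re
  have h2 : DifferentiableOn ℂ (rt M.q) {z : ℂ | 0 < z.re} := fun z hz =>
    (rt_deriv M.q hz).differentiableAt.differentiableWithinAt
  have h3 : AnalyticAt ℂ (rt M.q) (M.A - 0) := h2.analyticAt (ho.mem_nhds h1)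
  have h4 : HasStrictDerivAt (rt M.q) (rt M.q (M.A - 0) * (-((M.A - 0 : ℂ)⁻¹) / M.q)) (M.A - 0) := by
    have := h3.hasStrictDerivAt
    rwa [(rt_deriv M.q h1).deriv] at this
  have h5 : HasStrictDerivAt (fun W : ℂ => (M.A : ℂ) - W) (-1) 0 :=
    (hasStrictDerivAt_id (0 : ℂ)).const_sub _
  refine ⟨_, ?_, HasStrictDerivAt.comp (0 : ℂ) h4 h5⟩
  have hA : (M.A : ℂ) ≠ 0 := by exact_mod_cast M.hA0.ne'
  have hq : (M.q : ℂ) ≠ 0 := by exact_mod_cast M.hq.ne'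
  simp only [sub_zero]
  apply mul_ne_zero (mul_ne_zero (rt_ne _ _) (div_ne_zero (neg_ne_zero.2 (inv_ne_zero hA)) hq))
  norm_num

theorem cyc_rel {ψ : ℂ → ℂ} {n : ℕ} {om t : ℝ} (hok : M.Ok om) (hom : 0 ≤ om)
    (ht0 : 0 ≤ t) (ht1 : t ≤ 1) (hA2 : 2 < M.A) (hra1 : 1 ≤ M.ra)
    (hsm : ∀ v : ℂ, ‖v‖ ^ M.q ≤ (M.A - 1)⁻¹ → ‖ψ v‖ ≤ 1 / (n + 1)) :
    ∃ η : ℂ → ℂ, ContinuousOn η (closedBall 0 1) ∧ InjOn η (closedBall 0 1) ∧
    (∀ r > 0, η '' (ball 0 r ∩ closedBall 0 1) ∈ 𝓝 (η 0)) ∧ η 0 ≠ 0 ∧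
    (∀ u ∈ closedBall (0 : ℂ) 1, η u ∈ ball (0 : ℂ) 1 ∧ η u ∉ M.X '' ball 0 1) ∧
    (∀ u ∈ closedBall (0 : ℂ) 1, (M.F om t)^[M.q] (η u) =
      η (Complex.exp (-((M.q * (om * (1 + t)) : ℝ) * Complex.I)) * u)) ∧
    ∀ u ∈ closedBall (0 : ℂ) 1, ∀ i, ‖ψ ((M.F om t)^[i] (η u))‖ ≤ 1 / (n + 1) := by
  have hA1 : 1 < M.A := M.hA
  have hqc : (M.q : ℂ) ≠ 0 := by exact_mod_cast M.hq.ne'
  set ζ : ℂ := Complex.exp (Real.pi * Complex.I / M.q) with hζ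
  have hz : ζ ^ M.q = -1 := by
    rw [hζ, ← Complex.exp_nat_mul]
    have : (M.q : ℂ) * (Real.pi * Complex.I / M.q) = Real.pi * Complex.I := by field_simp
    rw [this, Complex.exp_pi_mul_I]
  have hζ0 : ζ ≠ 0 := Complex.exp_ne_zero _
  have hmem : ∀ u ∈ closedBall (0 : ℂ) 1, ‖u‖ < M.A := fun u hu =>
    (mem_closedBall_zero_iff.1 hu).trans_lt hA1
  have hpow : ∀ (ζ' : ℂ), ζ' ^ M.q = -1 → ∀ u : ℂ, ‖u‖ ≤ 1 → ‖ζ' * M.g u‖ ^ M.q ≤ (M.A - 1)⁻¹ := by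
    intro ζ' hz' u hu
    rw [← norm_pow, M.zg_pow hz' (hu.trans_lt hA1), norm_neg, norm_inv]
    apply inv_anti₀ (by linarith)
    have h1 : M.A - ‖u‖ ≤ ‖(M.A : ℂ) - u‖ := by
      have := norm_sub_norm_le (M.A : ℂ) u
      rwa [Complex.norm_real, Real.norm_of_nonneg M.hA0.le] at this
    linarith
  have hiter : ∀ u ∈ closedBall (0 : ℂ) 1, ∀ i, (M.F om t)^[i] (ζ * M.g u) =
      (M.lam ^ i * ζ) * M.g (Complex.exp (-((i * (om * (1 + t)) : ℝ) * Complex.I)) * u) := by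
    intro u hu i
    have hu1 : ‖u‖ ≤ M.ra := (mem_closedBall_zero_iff.1 hu).trans hra1
    obtain ⟨φ, -, -, hφ, hφa⟩ := M.iter_g hok hom ht0 ht1 hz (hu1.trans M.hrab.le)
    rw [hφ, hφa hu1]
  refine ⟨fun u => ζ * M.g u, ?_, ?_, ?_, ?_, ?_, ?_, ?_⟩
  · intro u hu
    exact (continuousAt_const.mul (M.g_cont (hmem u hu))).continuousWithinAt
  · intro u hu v hv he
    simp only at he
    have h1 : M.g u = M.g v := mul_left_cancel₀ hζ0 he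
    have h2 : (M.A - u : ℂ)⁻¹ = (M.A - v)⁻¹ := by
      rw [← M.g_pow (hmem u hu), ← M.g_pow (hmem v hv), h1]
    have h3 := inv_injective h2
    linear_combination -h3
  · intro r hr
    obtain ⟨d, hd0, hd⟩ := M.g_deriv0
    have h1 : HasStrictDerivAt (fun u => ζ * M.g u) (ζ * d) 0 := hd.const_mul ζ
    have h2 := h1.map_nhds_eq (mul_ne_zero hζ0 hd0)
    simp only
    rw [← h2]
    apply image_mem_map
    apply inter_mem (ball_mem_nhds _ hr) (closedBall_mem_nhds _ one_pos)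
  · exact mul_ne_zero hζ0 (M.g_ne 0)
  · intro u hu
    have hu1 : ‖u‖ ≤ 1 := mem_closedBall_zero_iff.1 hu
    constructor
    · rw [mem_ball_zero_iff]
      by_contra hne
      push Not at hne
      have h1 := one_le_pow₀ hne (n := M.q)
      have h2 := hpow ζ hz u hu1
      have h3 : (M.A - 1)⁻¹ < 1 := inv_lt_one_of_one_lt₀ (by linarith)
      linarith
    · rw [M.mem_X, not_lt, M.zg_reg hz (hmem u hu)]
      apply mul_le_mul_of_nonneg_right _ (by positivity)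
      have := M.hAB
      linarith
  · intro u hu
    rw [hiter u hu, M.lam_pow, one_mul]
  · intro u hu i
    rw [hiter u hu]
    apply hsm
    apply hpow _ (M.lz_pow hz i)
    rw [norm_mul, Complex.norm_exp]
    simpa using hu

end Mod

end Pool.Agent.Y297
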