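import Pool.Agent.Y297.StageC

/-!
# The stage theorem
-/

set_option autoImplicit false
set_option linter.all false

open Set Metric Filter Topology
open scoped ContDiff ComplexConjugate Manifold

noncomputable section

namespace Pool.Agent.Y297

theorem irr_aux {q Q : ℕ} (hq : 0 < q) (hQ : 0 < Q) {t : ℝ} (ht : Irrational t) :
    Irrational (q * (2 * Real.pi / Q * (1 + t)) / (2 * Real.pi)) := by
  have e : (q * (2 * Real.pi / Q * (1 + t)) / (2 * Real.pi) : ℝ) = ((q / Q : ℚ) : ℝ) * (1 + t) := by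
    have := Real.pi_pos
    push_cast
    field_simp
  rw [e]
  have h1 : Irrational (1 + t) := by
    have := ht.natCast_add 1
    simpa using this
  apply h1.ratCast_mul
  positivity

theorem stage (n : ℕ) {ε : ℝ} (hε : 0 < ε) {q p : ℕ} {ψ : ℂ → ℂ} (hp : PreG q p ψ) :
    ∃ d : Stg, d.q = q ∧ d.p = p ∧ d.ψ = ψ ∧ GoodS n ε d := by
  obtain ⟨hq, hcop, h, δ, hδ, hpi, hexit⟩ := hp
  have hpp := Real.pi_pos
  have hlam : IsPrimitiveRoot (lm q p) q := Complex.isPrimitiveRoot_exp_of_coprime p q hq.ne' hcop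
  -- radius for smallness
  obtain ⟨ρ, hρ, hρ2⟩ : ∃ ρ > 0, ∀ v : ℂ, ‖v‖ < ρ → ‖ψ v‖ ≤ 1 / ((n : ℝ) + 1) := by
    have h1 : ContinuousAt ψ 0 := (h.analytic (by simp)).continuousAt
    rw [Metric.continuousAt_iff] at h1
    obtain ⟨ρ, hρ, h2⟩ := h1 (1 / ((n : ℝ) + 1)) (by positivity)
    refine ⟨ρ, hρ, fun v hv => ?_⟩
    have := h2 (x := v) (by simpa using hv)
    rw [h.zero, dist_zero_right] at this
    exact this.le
  obtain ⟨M, hMq, hMl, hMs1, hMA, hMra, hMρ⟩ := mod_exists hq hlam (d := min (δ / 4) (1 / 4)) (by positivity)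
    (by have := min_le_right (δ / 4) (1 / 4 : ℝ); linarith) hρ
  subst hMq
  obtain ⟨k, hk, hk0, hk1⟩ := k_exists h M.hs3
  have hMs1' : 1 - M.s1 ≤ δ / 4 := by rw [hMs1]; exact min_le_left _ _
  obtain ⟨r, hr, hrA⟩ := M.stepA h hexit hpi hMs1' hk hk0 (ε := ε / 2) (by positivity)
  -- exit radius of the next map
  have hs2b : (M.s2 : ℂ) ∈ ball (0 : ℂ) 1 := by
    rw [mem_ball_zero_iff, Complex.norm_real, Real.norm_of_nonneg M.hs2.le]
    exact M.hs2'
  have hexX : 3 / 4 < ‖ψ (M.X 1)‖ := by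
    rw [M.X_one]
    apply hexit _ hs2b
    have : ((M.s2 : ℂ) - 1) = ((M.s2 - 1 : ℝ) : ℂ) := by push_cast; ring
    rw [this, Complex.norm_real, Real.norm_eq_abs, abs_lt]
    have := M.hs12
    have := M.hs2'
    constructor <;> linarith
  have hcX : ContinuousAt (fun w => ‖ψ (M.X w)‖) 1 := by
    have e1 : ContinuousAt M.X 1 := M.X_cont (by simp)
    have e2 : ContinuousAt ψ (M.X 1) := by
      rw [M.X_one]
      exact (h.analytic hs2b).continuousAt
    exact (ContinuousAt.comp (g := ψ) (f := M.X) e2 e1).norm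
  obtain ⟨δ', hδ', hex'⟩ := Metric.eventually_nhds_iff.1 (hcX.eventually_const_lt hexX)
  -- the integer Q
  obtain ⟨m, hm⟩ := exists_nat_gt (max (2 * Real.pi / (min r (Real.pi / 2))) (max ((n : ℝ) + 2) (2 * Real.pi / δ')))
  have hm1 : 2 * Real.pi / (min r (Real.pi / 2)) < m := (le_max_left _ _).trans_lt hm
  have hm2 : (n : ℝ) + 2 < m := ((le_max_left _ _).trans (le_max_right _ _)).trans_lt hm
  have hm3 : 2 * Real.pi / δ' < m := ((le_max_right _ _).trans (le_max_right _ _)).trans_lt hm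
  have hm0 : 0 < m := by
    have : (0 : ℝ) < m := by have : (0:ℝ) ≤ n := n.cast_nonneg; linarith
    exact_mod_cast this
  set Q : ℕ := M.q * m with hQ
  have hQm : m ≤ Q := by rw [hQ]; exact Nat.le_mul_of_pos_left m M.hq
  have hQ0 : 0 < Q := lt_of_lt_of_le hm0 hQm
  have hQmr : (m : ℝ) ≤ Q := by exact_mod_cast hQm
  have hQr : (0 : ℝ) < Q := by exact_mod_cast hQ0
  have hqr : (0 : ℝ) < M.q := by exact_mod_cast M.hq
  set om : ℝ := 2 * Real.pi / Q with hom
  have hom0 : 0 < om := by positivity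
  have hmin : 0 < min r (Real.pi / 2) := by positivity
  have hom1 : om < min r (Real.pi / 2) := by
    rw [div_lt_iff₀ hmin] at hm1
    rw [hom, div_lt_iff₀ hQr]
    calc 2 * Real.pi < m * min r (Real.pi / 2) := hm1
      _ ≤ Q * min r (Real.pi / 2) := mul_le_mul_of_nonneg_right hQmr hmin.le
      _ = _ := mul_comm _ _
  have homr : om < r := hom1.trans_le (min_le_left _ _)
  have hompi : |om| < Real.pi / 2 := by
    rw [abs_of_pos hom0]; exact hom1.trans_le (min_le_right _ _)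
  obtain ⟨hok, hball, hX1, hX2, hdn, hstab, hW, hL⟩ := hrA om hom0 homr
  obtain ⟨N, κ, hκ0, hκ1, hB⟩ := M.stepB h hexit hk hk0 (by positivity) hok hball hX1 hX2 hdn hstab hW hL
  have hconj : ∀ w : ℂ, M.lam * Complex.exp (om * Complex.I / M.q) * w = lm (M.q * Q) (p * Q + 1) * w := by
    intro w
    rw [hMl, lm, lm, ← Complex.exp_add]
    congr 2
    rw [hom]
    push_cast
    have e1 : (M.q : ℂ) ≠ 0 := by exact_mod_cast M.hq.ne'
    have e2 : (Q : ℂ) ≠ 0 := by exact_mod_cast hQ0.ne'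
    field_simp
  refine ⟨{ q := M.q, p := p, Q := Q, ψ := ψ, X := M.X, kap := κ, s := M.s3, Fw := M.F om,
            Gam := fun t => Gm ψ M.lam (M.F om t), bet := fun t => Bt ψ k (M.F om t) N }, rfl, rfl, rfl, ?_⟩
  have hout : ∀ (p : ℝ) (w : ℂ), M.s3 ≤ ‖w‖ → (fun t w => M.F om t w) p w = M.lam * w :=
    fun p w hw => M.F_out om p hw
  have hXb : ∀ w ∈ ball (0 : ℂ) 1, M.X w ∈ ball (0 : ℂ) 1 := by
    intro w hw
    rw [mem_ball_zero_iff] at hw ⊢
    exact (M.X_small hw).trans M.hs2'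
  constructor
  · exact ⟨hq, hcop, h, δ, hδ, hpi, hexit⟩
  · refine ⟨Nat.mul_pos M.hq hQ0, ?_, M.inj_comp h, δ', hδ', ?_, ?_⟩
    · show Nat.Coprime (p * Q + 1) (M.q * Q)
      have h1 : Nat.Coprime (p * Q + 1) Q := by
        rw [Nat.coprime_mul_right_add_left]
        exact Nat.coprime_one_left Q
      have h2 : Nat.Coprime (p * Q + 1) M.q := Nat.Coprime.coprime_dvd_right ⟨m, hQ⟩ h1
      exact Nat.Coprime.mul_right h2 h1
    · show Real.pi / ((M.q * Q : ℕ) : ℝ) < δ' / 2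
      rw [div_lt_iff₀ (by positivity)]
      rw [div_lt_iff₀ hδ'] at hm3
      have hq1 : (1 : ℝ) ≤ M.q := by exact_mod_cast M.hq
      have e1 : (m : ℝ) ≤ M.q * Q := by nlinarith
      push_cast
      calc Real.pi < m * δ' / 2 := by linarith
        _ ≤ (M.q * Q) * δ' / 2 := by gcongr
        _ = _ := by ring
    · intro w hw hw2
      exact hex' (by rwa [dist_eq_norm])
  · show n + 2 ≤ Q
    have : n + 2 < m := by exact_mod_cast hm2
    omega
  · exact hκ0
  · exact hκ1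
  · exact M.hs3
  · intro w hw
    refine ⟨hXb w hw, ?_⟩
    rw [mem_ball_zero_iff] at hw
    exact ((M.X_small hw).trans M.hs23).le
  · intro t; exact M.F_zero om t
  · intro t z hz
    exact Gm_off h M.hs3 M.lam_norm hout t z hz
  · intro t ht0 htk w hw
    rw [mem_ball_zero_iff] at hw ⊢
    exact hball t ht0 (htk.trans hκ1) w hw
  · intro t w hw
    show ψ (lm M.q p * w) + Gm ψ M.lam (M.F om t) (ψ w) = ψ (M.F om t w)
    rw [Gm_in h hw, hMl]
    ring
  · intro t ht0 htk w hw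
    show M.F om t (M.X w) = M.X (lm (M.q * Q) (p * Q + 1) * w)
    rw [M.F_X hok hompi ht0 (htk.trans hκ1) (mem_ball_zero_iff.1 hw), hconj]
  · intro t ht0 htk w hw
    show M.F om t w ∉ M.X '' ball 0 1
    rw [M.F_X' hok ht0 (htk.trans hκ1)]
    exact hw
  · intro t ht0 htk x y
    have := (hB t ht0 htk).2.2.2 x y
    have e : 2 * (ε / 2) = ε := by ring
    rwa [e] at this
  · intro t ht0 htk
    have := (hB t ht0 htk).2.2.1
    have e : 2 * (ε / 2) = ε := by ring
    rwa [e] at this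
  · intro t z hz
    show Bt ψ k (M.F om t) N z = 0
    rw [Bt, if_neg hz]
  · intro t ht0 htk w hw
    show Bt ψ k (M.F om t) N (ψ (M.X w)) = 0
    rw [Bt_in h (hXb w hw), M.bh_X hok ht0 (htk.trans hκ1) k N ⟨w, hw, rfl⟩, zero_mul]
  · intro t ht0 htk w hw hw2
    obtain ⟨g1, g2, -, -⟩ := hB t ht0 htk
    have := M.belt_rel h hok ht0 (htk.trans hκ1) (hball t ht0 (htk.trans hκ1)) hk1 g1 g2 hw hw2
    rw [hMl] at this
    show ∃ a b : ℂ, HasFDerivAt (fun z => ψ (lm M.q p * ph ψ z) + Gm ψ M.lam (M.F om t) z) (lin a b) (ψ w) ∧ _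
    rw [hMl]
    exact this
  · intro t t' ht0 htk ht0' htk' hirr w hw hwX hK
    obtain ⟨N2, hN2⟩ := hX2
    apply M.K_rel h hok hom0.le ht0 (htk.trans hκ1) ht0' (htk'.trans hκ1) (hball t ht0 (htk.trans hκ1))
      (irr_aux M.hq hQ0 hirr) _ (mem_ball_zero_iff.1 hw) hK
    intro v hv1 hv2
    obtain ⟨i, -, hi⟩ := hN2 t ht0 (htk.trans hκ1) v hv1 hv2
    refine ⟨i, fun hv => ?_⟩
    have hvi : ∀ j, ‖(M.F om t)^[j] v‖ < 1 := by
      intro j
      induction j with
      | zero => exact hv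
      | succ j ih =>
        rw [Function.iterate_succ_apply']
        exact hball t ht0 (htk.trans hκ1) _ ih
    exact hexit _ (by rw [mem_ball_zero_iff]; exact hvi i) hi
  · intro t ht0 htk
    have hsm : ∀ v : ℂ, ‖v‖ ^ M.q ≤ (M.A - 1)⁻¹ → ‖ψ v‖ ≤ 1 / ((n : ℝ) + 1) := by
      intro v hv
      apply hρ2
      by_contra hne
      push Not at hne
      have := pow_le_pow_left₀ hρ.le hne M.q
      linarith
    have := M.cyc_rel (n := n) hok hom0.le ht0 (htk.trans hκ1) hMA hMra hsm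
    have e : M.q * (om * (1 + t)) = 2 * Real.pi * (M.q * (1 + t) / Q) := by
      rw [hom]; ring
    rw [e] at this
    exact this

end Pool.Agent.Y297
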